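import Mathlib

set_option autoImplicit false

/-!
# Boxes of coefficient vectors, sums of bounded functions over shifted boxes, values of polynomials
-/

namespace Pool.Agent.Q236.RP

open Finset Polynomial

/-- the box of the integer vectors `c` with `Z i < c i ≤ Z i + Y i` -/
noncomputable def Box {d : ℕ} (Z : Fin d → ℤ) (Y : Fin d → ℕ) : Finset (Fin d → ℤ) :=
  Fintype.piFinset fun i => Ioc (Z i) (Z i + Y i)

variable {d : ℕ}

lemma mem_Box (Z : Fin d → ℤ) (Y : Fin d → ℕ) (c : Fin d → ℤ) :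
    c ∈ Box Z Y ↔ ∀ i, Z i < c i ∧ c i ≤ Z i + Y i := by
  unfold Box
  rw [Fintype.mem_piFinset]
  simp only [mem_Ioc]

lemma card_Box (Z : Fin d → ℤ) (Y : Fin d → ℕ) : (Box Z Y).card = ∏ i, Y i := by
  unfold Box
  rw [Fintype.card_piFinset]
  apply Finset.prod_congr rfl
  intro i _
  rw [Int.card_Ioc]
  simp

lemma out_one (Z v : ℤ) (Y : ℕ) : (((Ioc Z (Z + Y)).filter (fun x => x + v ∉ Ioc Z (Z + Y))).card : ℝ) ≤ |(v : ℝ)| := by
  have h : (Ioc Z (Z + Y)).filter (fun x => x + v ∉ Ioc Z (Z + Y)) ⊆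
      if 0 ≤ v then Ioc (Z + Y - v) (Z + Y) else Ioc Z (Z - v) := by
    intro x hx
    rw [mem_filter, mem_Ioc, mem_Ioc] at hx
    split_ifs with hv
    · rw [mem_Ioc]
      omega
    · rw [mem_Ioc]
      omega
  have h2 := card_le_card h
  have h3 : ((if 0 ≤ v then Ioc (Z + Y - v) (Z + Y) else Ioc Z (Z - v)).card : ℝ) ≤ |(v : ℝ)| := by
    split_ifs with hv
    · rw [Int.card_Ioc]
      have : (0 : ℝ) ≤ v := by exact_mod_cast hv
      rw [abs_of_nonneg this]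
      have e : (Z + Y - (Z + Y - v)).toNat = v.toNat := by congr 1; ring
      rw [e]
      have : ((v.toNat : ℤ) : ℝ) = v := by rw [Int.toNat_of_nonneg hv]
      exact_mod_cast this.le
    · push Not at hv
      rw [Int.card_Ioc]
      have : (v : ℝ) < 0 := by exact_mod_cast hv
      rw [abs_of_neg this]
      have e : (Z - v - Z).toNat = (-v).toNat := by congr 1; ring
      rw [e]
      have : (((-v).toNat : ℤ) : ℝ) = ((-v : ℤ) : ℝ) := by rw [Int.toNat_of_nonneg (by omega)]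
      push_cast at this ⊢
      exact this.le
  exact le_trans (by exact_mod_cast h2) h3

open Classical in
lemma out_coord (Z : Fin d → ℤ) (Y : Fin d → ℕ) (hY : ∀ i, 1 ≤ Y i) (v : Fin d → ℤ) (i : Fin d) :
    (((Box Z Y).filter (fun c => c i + v i ∉ Ioc (Z i) (Z i + Y i))).card : ℝ) ≤
      |(v i : ℝ)| / Y i * (Box Z Y).card := by
  have h1 : (Box Z Y).filter (fun c => c i + v i ∉ Ioc (Z i) (Z i + Y i)) ⊆
      Fintype.piFinset (fun l => if l = i then (Ioc (Z l) (Z l + Y l)).filter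
        (fun x => x + v l ∉ Ioc (Z l) (Z l + Y l)) else Ioc (Z l) (Z l + Y l)) := by
    intro c hc
    rw [mem_filter] at hc
    rw [Fintype.mem_piFinset]
    intro l
    have h2 := (mem_Box Z Y c).1 hc.1 l
    split_ifs with hl
    · rw [mem_filter, mem_Ioc]
      refine ⟨h2, ?_⟩
      rw [hl]
      exact hc.2
    · rw [mem_Ioc]
      exact h2
  have h2 := card_le_card h1
  rw [Fintype.card_piFinset] at h2
  have h3 : (∏ l, (if l = i then (Ioc (Z l) (Z l + Y l)).filter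
        (fun x => x + v l ∉ Ioc (Z l) (Z l + Y l)) else Ioc (Z l) (Z l + Y l)).card) =
      ((Ioc (Z i) (Z i + Y i)).filter (fun x => x + v i ∉ Ioc (Z i) (Z i + Y i))).card * ∏ l ∈ univ.erase i, Y l := by
    rw [← Finset.mul_prod_erase univ _ (mem_univ i), if_pos rfl]
    congr 1
    apply Finset.prod_congr rfl
    intro l hl
    rw [if_neg (Finset.ne_of_mem_erase hl), Int.card_Ioc]
    simp
  rw [h3] at h2
  have h4 : ((Box Z Y).card : ℝ) = Y i * ((∏ l ∈ univ.erase i, Y l : ℕ) : ℝ) := by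
    rw [card_Box, ← Finset.mul_prod_erase univ _ (mem_univ i)]
    push_cast
    ring
  have hYi : (0 : ℝ) < Y i := by exact_mod_cast hY i
  rw [h4]
  calc (((Box Z Y).filter (fun c => c i + v i ∉ Ioc (Z i) (Z i + Y i))).card : ℝ) ≤
      (((Ioc (Z i) (Z i + Y i)).filter (fun x => x + v i ∉ Ioc (Z i) (Z i + Y i))).card : ℝ) *
        ((∏ l ∈ univ.erase i, Y l : ℕ) : ℝ) := by exact_mod_cast h2
    _ ≤ |(v i : ℝ)| * ((∏ l ∈ univ.erase i, Y l : ℕ) : ℝ) :=
        mul_le_mul_of_nonneg_right (out_one _ _ _) (Nat.cast_nonneg _)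
    _ = _ := by field_simp

open Classical in
lemma out_card (Z : Fin d → ℤ) (Y : Fin d → ℕ) (hY : ∀ i, 1 ≤ Y i) (v : Fin d → ℤ) :
    (((Box Z Y).filter (fun c => c + v ∉ Box Z Y)).card : ℝ) ≤ (∑ i, |(v i : ℝ)| / Y i) * (Box Z Y).card := by
  have h1 : (Box Z Y).filter (fun c => c + v ∉ Box Z Y) ⊆
      univ.biUnion (fun i => (Box Z Y).filter (fun c => c i + v i ∉ Ioc (Z i) (Z i + Y i))) := by
    intro c hc
    rw [mem_filter] at hc
    obtain ⟨hc1, hc2⟩ := hc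
    unfold Box at hc2
    rw [Fintype.mem_piFinset] at hc2
    push Not at hc2
    obtain ⟨i, hi⟩ := hc2
    rw [mem_biUnion]
    exact ⟨i, mem_univ i, mem_filter.2 ⟨hc1, hi⟩⟩
  have h2 := (card_le_card h1).trans card_biUnion_le
  calc (((Box Z Y).filter (fun c => c + v ∉ Box Z Y)).card : ℝ) ≤
      ∑ i, (((Box Z Y).filter (fun c => c i + v i ∉ Ioc (Z i) (Z i + Y i))).card : ℝ) := by exact_mod_cast h2
    _ ≤ ∑ i, |(v i : ℝ)| / Y i * (Box Z Y).card := sum_le_sum fun i _ => out_coord Z Y hY v i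
    _ = _ := by rw [Finset.sum_mul]

open Classical in
lemma shift_le (Z : Fin d → ℤ) (Y : Fin d → ℕ) (hY : ∀ i, 1 ≤ Y i) (v : Fin d → ℤ) (F : (Fin d → ℤ) → ℝ)
    (hF0 : ∀ c, 0 ≤ F c) (hF1 : ∀ c, F c ≤ 1) :
    ∑ c ∈ Box Z Y, F (c + v) ≤ ∑ c ∈ Box Z Y, F c + (∑ i, |(v i : ℝ)| / Y i) * (Box Z Y).card := by
  rw [← Finset.sum_filter_add_sum_filter_not (Box Z Y) (fun c => c + v ∈ Box Z Y)]
  apply add_le_add
  · have hm := Finset.sum_map ((Box Z Y).filter (fun c => c + v ∈ Box Z Y)) (addRightEmbedding v) F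
    simp only [addRightEmbedding_apply] at hm
    rw [← hm]
    apply Finset.sum_le_sum_of_subset_of_nonneg
    · intro c hc
      rw [mem_map] at hc
      obtain ⟨c', hc', rfl⟩ := hc
      rw [mem_filter] at hc'
      exact hc'.2
    · intro c _ _
      exact hF0 c
  · refine (sum_le_sum (fun c _ => hF1 (c + v))).trans ?_
    rw [Finset.sum_const, nsmul_eq_mul, mul_one]
    exact out_card Z Y hY v

/-- sums over shifted boxes -/
lemma shift_sum (Z : Fin d → ℤ) (Y : Fin d → ℕ) (hY : ∀ i, 1 ≤ Y i) (v : Fin d → ℤ) (F : (Fin d → ℤ) → ℝ)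
    (hF0 : ∀ c, 0 ≤ F c) (hF1 : ∀ c, F c ≤ 1) :
    |∑ c ∈ Box Z Y, F (c + v) - ∑ c ∈ Box Z Y, F c| ≤ (∑ i, |(v i : ℝ)| / Y i) * (Box Z Y).card := by
  have h1 := shift_le Z Y hY v F hF0 hF1
  have h2 := shift_le Z Y hY (-v) (fun c => F (c + v)) (fun c => hF0 _) (fun c => hF1 _)
  have e1 : ∀ c : Fin d → ℤ, c + -v + v = c := fun c => by rw [neg_add_cancel_right]
  simp only [e1] at h2
  have e2 : ∑ i, |(((-v) i : ℤ) : ℝ)| / (Y i : ℝ) = ∑ i, |(v i : ℝ)| / Y i := by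
    apply Finset.sum_congr rfl
    intro i _
    rw [Pi.neg_apply]
    push_cast
    rw [abs_neg]
  rw [e2] at h2
  rw [abs_le]
  constructor
  · linarith
  · linarith

/-- the value of `f + ∑ c i x ^ i` at `k`, with an arbitrary function `f` -/
def ev (f : ℕ → ℤ) (c : Fin d → ℤ) (k : ℕ) : ℤ :=
  f k + ∑ i, c i * (k : ℤ) ^ (i : ℕ)

lemma ev_add (f : ℕ → ℤ) (c v : Fin d → ℤ) (k : ℕ) :
    ev f (c + v) k = ev f c k + ∑ i, v i * (k : ℤ) ^ (i : ℕ) := by
  unfold ev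
  rw [add_assoc, ← Finset.sum_add_distrib]
  congr 1
  apply Finset.sum_congr rfl
  intro i _
  rw [Pi.add_apply]
  ring

lemma ev_dvd (f : ℕ → ℤ) (c : Fin d → ℤ) (k s : ℕ) : ((k : ℤ) - s) ∣ (ev f c k - f k) - (ev f c s - f s) := by
  unfold ev
  have h2 : ((k : ℤ) - s) ∣ ∑ i, c i * (k : ℤ) ^ (i : ℕ) - ∑ i, c i * (s : ℤ) ^ (i : ℕ) := by
    rw [← Finset.sum_sub_distrib]
    apply Finset.dvd_sum
    intro i _
    rw [← mul_sub]
    exact Dvd.dvd.mul_left (sub_dvd_pow_sub_pow _ _ _) _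
  have e : f k + ∑ i, c i * (k : ℤ) ^ (i : ℕ) - f k - (f s + ∑ i, c i * (s : ℤ) ^ (i : ℕ) - f s) =
      ∑ i, c i * (k : ℤ) ^ (i : ℕ) - ∑ i, c i * (s : ℤ) ^ (i : ℕ) := by ring
  rw [e]
  exact h2

lemma ev_cl (f : ℕ → ℤ) (M : ℤ) (c a : Fin d → ℤ) (h : ∀ i, M ∣ c i - a i) (k : ℕ) :
    M ∣ ev f c k - ev f a k := by
  unfold ev
  have e : f k + ∑ i, c i * (k : ℤ) ^ (i : ℕ) - (f k + ∑ i, a i * (k : ℤ) ^ (i : ℕ)) =
      ∑ i, (c i - a i) * (k : ℤ) ^ (i : ℕ) := by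
    rw [add_sub_add_left_eq_sub, ← Finset.sum_sub_distrib]
    apply Finset.sum_congr rfl
    intro i _
    ring
  rw [e]
  apply Finset.dvd_sum
  intro i _
  exact Dvd.dvd.mul_right (h i) _

/-- the polynomial vanishing at the points of `S` -/
noncomputable def vp (S : Finset ℕ) : ℤ[X] := ∏ s ∈ S, (X - C (s : ℤ))

lemma vp_natDegree (S : Finset ℕ) : (vp S).natDegree = S.card := by
  unfold vp
  rw [natDegree_prod_of_monic _ _ (fun s _ => monic_X_sub_C _)]
  have h : ∀ s ∈ S, (X - C ((s : ℕ) : ℤ) : ℤ[X]).natDegree = 1 := fun s _ => natDegree_X_sub_C _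
  rw [Finset.sum_congr rfl h, Finset.sum_const, smul_eq_mul, mul_one]

lemma vp_eval (S : Finset ℕ) (k : ℕ) : (vp S).eval (k : ℤ) = ∏ s ∈ S, ((k : ℤ) - s) := by
  unfold vp
  rw [eval_prod]
  simp

lemma vp_coeff_le (K : ℕ) (S : Finset ℕ) (hS : ∀ s ∈ S, s ≤ K) (i : ℕ) :
    |(vp S).coeff i| ≤ ((K : ℤ) + 1) ^ S.card := by
  induction S using Finset.induction_on generalizing i with
  | empty =>
    unfold vp
    rw [prod_empty, card_empty, pow_zero, coeff_one]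
    split_ifs <;> simp
  | insert s S hs ih =>
    have hS2 : ∀ s ∈ S, s ≤ K := fun t ht => hS t (mem_insert_of_mem ht)
    have hsK : (s : ℤ) ≤ K := by exact_mod_cast hS s (mem_insert_self s S)
    have e : vp (insert s S) = (X - C (s : ℤ)) * vp S := by
      unfold vp
      rw [prod_insert hs]
    rw [e, card_insert_of_notMem hs, sub_mul, coeff_sub, coeff_C_mul]
    have h1 : |(X * vp S).coeff i| ≤ ((K : ℤ) + 1) ^ S.card := by
      rcases i with _ | i
      · rw [coeff_X_mul_zero, abs_zero]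
        positivity
      · rw [coeff_X_mul]
        exact ih hS2 i
    have h2 : |(s : ℤ) * (vp S).coeff i| ≤ K * ((K : ℤ) + 1) ^ S.card := by
      rw [abs_mul, abs_of_nonneg (Int.natCast_nonneg s)]
      exact mul_le_mul hsK (ih hS2 i) (abs_nonneg _) (Int.natCast_nonneg K)
    calc |(X * vp S).coeff i - (s : ℤ) * (vp S).coeff i| ≤ |(X * vp S).coeff i| + |(s : ℤ) * (vp S).coeff i| :=
          abs_sub _ _
      _ ≤ ((K : ℤ) + 1) ^ S.card + K * ((K : ℤ) + 1) ^ S.card := add_le_add h1 h2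
      _ = _ := by ring

/-- the coefficient vector of `t M vp S` -/
noncomputable def sv (d : ℕ) (M : ℤ) (S : Finset ℕ) (t : ℤ) : Fin d → ℤ := fun i => t * M * (vp S).coeff i

lemma sv_sum (M : ℤ) (S : Finset ℕ) (hS : S.card < d) (t : ℤ) (k : ℕ) :
    ∑ i : Fin d, sv d M S t i * (k : ℤ) ^ (i : ℕ) = t * M * ∏ s ∈ S, ((k : ℤ) - s) := by
  rw [← vp_eval, Polynomial.eval_eq_sum_range' (n := d) (by rw [vp_natDegree]; exact hS), ← Fin.sum_univ_eq_sum_range
    (fun i => (vp S).coeff i * (k : ℤ) ^ i), Finset.mul_sum]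
  apply Finset.sum_congr rfl
  intro i _
  unfold sv
  ring

end Pool.Agent.Q236.RP
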