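import Mathlib

set_option autoImplicit false

/-!
# The number of the `k` modulo a primorial for which a polynomial has no small prime factor
-/

namespace Pool.Agent.Q236.RP

open Finset Polynomial

/-- the number of zeros of `G` modulo `p` -/
noncomputable def om (G : ℤ[X]) (p : ℕ) : ℕ := ((range p).filter (fun k : ℕ => (p : ℤ) ∣ G.eval (k : ℤ))).card

lemma om_le (G : ℤ[X]) (p : ℕ) : om G p ≤ p := by
  unfold om
  refine (card_filter_le _ _).trans ?_
  rw [card_range]

lemma eval_mod (G : ℤ[X]) (m : ℕ) (k l : ℕ) (h : k ≡ l [MOD m]) : (m : ℤ) ∣ G.eval (k : ℤ) - G.eval (l : ℤ) := by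
  refine dvd_trans ?_ (Polynomial.sub_dvd_eval_sub (k : ℤ) (l : ℤ) G)
  have := (Nat.modEq_iff_dvd.1 h.symm)
  exact this

lemma cop_mod (G : ℤ[X]) (m : ℕ) (k l : ℕ) (h : k ≡ l [MOD m]) :
    IsCoprime (G.eval (k : ℤ)) (m : ℤ) ↔ IsCoprime (G.eval (l : ℤ)) (m : ℤ) := by
  obtain ⟨z, hz⟩ := eval_mod G m k l h
  have e : G.eval (k : ℤ) = G.eval (l : ℤ) + m * z := by linarith
  rw [e, IsCoprime.add_mul_left_left_iff]

open Classical in
/-- the number of the good residues modulo `m` -/
noncomputable def gd (G : ℤ[X]) (m : ℕ) : ℕ := ((range m).filter (fun k : ℕ => IsCoprime (G.eval (k : ℤ)) (m : ℤ))).card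

open Classical in
lemma gd_mul (G : ℤ[X]) (a b : ℕ) (ha : a ≠ 0) (hb : b ≠ 0) (hab : a.Coprime b) : gd G (a * b) = gd G a * gd G b := by
  unfold gd
  rw [← card_product]
  apply card_bij (fun k _ => (k % a, k % b))
  · intro k hk
    rw [mem_filter, mem_range] at hk
    rw [mem_product, mem_filter, mem_filter, mem_range, mem_range]
    have h1 := hk.2
    push_cast at h1
    rw [IsCoprime.mul_right_iff] at h1
    refine ⟨⟨Nat.mod_lt _ (Nat.pos_of_ne_zero ha), ?_⟩, ⟨Nat.mod_lt _ (Nat.pos_of_ne_zero hb), ?_⟩⟩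
    · exact (cop_mod G a k (k % a) (Nat.mod_modEq k a).symm).1 h1.1
    · exact (cop_mod G b k (k % b) (Nat.mod_modEq k b).symm).1 h1.2
  · intro k hk l hl hkl
    rw [mem_filter, mem_range] at hk hl
    simp only [Prod.mk.injEq] at hkl
    have h1 : k ≡ l [MOD a] := hkl.1
    have h2 : k ≡ l [MOD b] := hkl.2
    have h3 : k ≡ l [MOD a * b] := (Nat.modEq_and_modEq_iff_modEq_mul hab).1 ⟨h1, h2⟩
    exact Nat.ModEq.eq_of_lt_of_lt h3 hk.1 hl.1
  · rintro ⟨u, v⟩ huv
    rw [mem_product, mem_filter, mem_filter, mem_range, mem_range] at huv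
    obtain ⟨⟨hu, hu2⟩, ⟨hv, hv2⟩⟩ := huv
    obtain ⟨k, hk1, hk2⟩ := Nat.chineseRemainder hab u v
    have hab0 : 0 < a * b := Nat.mul_pos (Nat.pos_of_ne_zero ha) (Nat.pos_of_ne_zero hb)
    obtain ⟨l, hl⟩ : ∃ l, l = k % (a * b) := ⟨_, rfl⟩
    have hlk : l ≡ k [MOD a * b] := by rw [hl]; exact Nat.mod_modEq _ _
    have h1 : l ≡ u [MOD a] := (hlk.of_mul_right b).trans hk1
    have h2 : l ≡ v [MOD b] := (hlk.of_mul_left a).trans hk2
    refine ⟨l, ?_, ?_⟩
    · rw [mem_filter, mem_range]
      refine ⟨by rw [hl]; exact Nat.mod_lt _ hab0, ?_⟩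
      push_cast
      rw [IsCoprime.mul_right_iff]
      exact ⟨(cop_mod G a l u h1).2 hu2, (cop_mod G b l v h2).2 hv2⟩
    · simp only [Prod.mk.injEq]
      exact ⟨Nat.mod_eq_of_modEq h1 hu, Nat.mod_eq_of_modEq h2 hv⟩

open Classical in
lemma gd_prime (G : ℤ[X]) (p : ℕ) (hp : p.Prime) : (gd G p : ℝ) = p - om G p := by
  have h1 : gd G p + om G p = p := by
    unfold gd om
    have h2 : (range p).filter (fun k : ℕ => IsCoprime (G.eval (k : ℤ)) (p : ℤ)) =
        (range p).filter (fun k : ℕ => ¬(p : ℤ) ∣ G.eval (k : ℤ)) := by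
      apply filter_congr
      intro k _
      rw [isCoprime_comm]
      exact (Nat.prime_iff_prime_int.1 hp).coprime_iff_not_dvd
    rw [h2, add_comm, Finset.card_filter_add_card_filter_not, card_range]
  have h2 : (gd G p : ℝ) + om G p = p := by exact_mod_cast h1
  linarith

/-- the product formula -/
lemma gd_prod (G : ℤ[X]) (S : Finset ℕ) (hS : ∀ p ∈ S, p.Prime) :
    (gd G (∏ p ∈ S, p) : ℝ) = ∏ p ∈ S, ((p : ℝ) - om G p) := by
  induction S using Finset.induction_on with
  | empty =>
    rw [prod_empty, prod_empty]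
    unfold gd
    have : IsCoprime (G.eval ((0 : ℕ) : ℤ)) ((1 : ℕ) : ℤ) := by
      push_cast
      exact isCoprime_one_right
    classical
    rw [filter_true_of_mem]
    · simp
    · intro k hk
      push_cast
      exact isCoprime_one_right
  | insert p S hp ih =>
    have hpp := hS p (mem_insert_self p S)
    have hS2 : ∀ q ∈ S, q.Prime := fun q hq => hS q (mem_insert_of_mem hq)
    rw [prod_insert hp, prod_insert hp, gd_mul]
    · push_cast
      rw [gd_prime G p hpp, ih hS2]
    · exact hpp.ne_zero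
    · exact Finset.prod_ne_zero_iff.2 fun q hq => (hS2 q hq).ne_zero
    · apply Nat.Coprime.prod_right
      intro q hq
      rw [Nat.coprime_primes hpp (hS2 q hq)]
      intro h
      rw [h] at hp
      exact hp hq

/-- the truncated Euler product -/
lemma gd_primorial (G : ℤ[X]) (w : ℕ) : (gd G (primorial w) : ℝ) =
    (primorial w : ℝ) * ∏ p ∈ (range (w + 1)).filter Nat.Prime, (1 - (om G p : ℝ) / p) := by
  unfold primorial
  rw [gd_prod G _ (fun p hp => (mem_filter.1 hp).2)]
  push_cast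
  rw [← Finset.prod_mul_distrib]
  apply Finset.prod_congr rfl
  intro p hp
  have : (p : ℝ) ≠ 0 := by exact_mod_cast (mem_filter.1 hp).2.ne_zero
  field_simp

open Classical in
/-- counting in an interval -/
lemma count_interval (G : ℤ[X]) (m : ℕ) (hm : 0 < m) (K0 K : ℕ) :
    |(((Ioc K0 (K0 + K)).filter (fun k : ℕ => IsCoprime (G.eval (k : ℤ)) (m : ℤ))).card : ℝ) -
      K * ((gd G m : ℝ) / m)| ≤ 2 * m := by
  have hmr : (0 : ℝ) < m := by exact_mod_cast hm
  have hper : ∀ a : ℕ, ((Ico a (a + m)).filter (fun k : ℕ => IsCoprime (G.eval (k : ℤ)) (m : ℤ))).card = gd G m := by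
    intro a
    unfold gd
    rw [← Nat.count_eq_card_filter_range]
    apply Nat.filter_Ico_card_eq_of_periodic
    intro k
    apply propext
    exact cop_mod G m (k + m) k (by unfold Nat.ModEq; rw [Nat.add_mod_right])
  have hblocks : ∀ (q a : ℕ), ((Ico a (a + q * m)).filter (fun k : ℕ => IsCoprime (G.eval (k : ℤ)) (m : ℤ))).card =
      q * gd G m := by
    intro q
    induction q with
    | zero => intro a; simp
    | succ q ih =>
      intro a
      have e : Ico a (a + (q + 1) * m) = Ico a (a + q * m) ∪ Ico (a + q * m) (a + q * m + m) := by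
        rw [Finset.Ico_union_Ico_eq_Ico (by omega) (by omega)]
        congr 1
        ring
      rw [e, filter_union, card_union_of_disjoint]
      · rw [ih a, hper (a + q * m)]
        ring
      · apply Finset.disjoint_filter_filter
        exact Finset.Ico_disjoint_Ico_consecutive _ _ _
  obtain ⟨q, hq⟩ : ∃ q, q = K / m := ⟨_, rfl⟩
  have hKq := Nat.div_add_mod K m
  have hKm := Nat.mod_lt K hm
  rw [← hq] at hKq
  have hqm : q * m ≤ K := by rw [mul_comm]; omega
  have hKlt : K < q * m + m := by rw [mul_comm q m]; omega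
  obtain ⟨N, hN⟩ : ∃ N, N = ((Ioc K0 (K0 + K)).filter (fun k : ℕ => IsCoprime (G.eval (k : ℤ)) (m : ℤ))).card := ⟨_, rfl⟩
  have hlo : q * gd G m ≤ N := by
    rw [← hblocks q (K0 + 1), hN]
    apply card_le_card
    apply filter_subset_filter
    intro x hx
    rw [mem_Ico] at hx
    rw [mem_Ioc]
    omega
  have hup : N ≤ (q + 1) * gd G m := by
    rw [← hblocks (q + 1) (K0 + 1), hN]
    apply card_le_card
    apply filter_subset_filter
    intro x hx
    rw [mem_Ioc] at hx
    rw [mem_Ico]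
    have : (q + 1) * m = q * m + m := by ring
    omega
  have hgm : (gd G m : ℝ) ≤ m := by
    unfold gd
    have := card_filter_le (range m) (fun k : ℕ => IsCoprime (G.eval (k : ℤ)) (m : ℤ))
    rw [card_range] at this
    exact_mod_cast this
  rw [← hN]
  have h1 : (q : ℝ) * gd G m ≤ N := by exact_mod_cast hlo
  have h2 : (N : ℝ) ≤ (q + 1) * gd G m := by exact_mod_cast hup
  have h3 : (K : ℝ) * ((gd G m : ℝ) / m) ≤ (q + 1) * gd G m := by
    have h4 : (K : ℝ) ≤ (q + 1) * m := by
      have : K ≤ (q + 1) * m := by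
        have : (q + 1) * m = q * m + m := by ring
        omega
      exact_mod_cast this
    calc (K : ℝ) * ((gd G m : ℝ) / m) ≤ ((q + 1) * m) * ((gd G m : ℝ) / m) :=
          mul_le_mul_of_nonneg_right h4 (by positivity)
      _ = _ := by field_simp
  have h4 : (q : ℝ) * gd G m ≤ K * ((gd G m : ℝ) / m) := by
    have h5 : (q : ℝ) * m ≤ K := by exact_mod_cast hqm
    calc (q : ℝ) * gd G m = (q * m) * ((gd G m : ℝ) / m) := by field_simp
      _ ≤ _ := mul_le_mul_of_nonneg_right h5 (by positivity)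
  have hg0 : (0 : ℝ) ≤ gd G m := Nat.cast_nonneg _
  rw [abs_le]
  constructor
  · nlinarith
  · nlinarith

end Pool.Agent.Q236.RP
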