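import Pool.Agent.H343R2.EH.Psi
import Pool.Agent.H343R2.EH.Primes
import Pool.Agent.H442R2.EHI.PntErr

set_option autoImplicit false

/-!
# Primes in progressions to moduli up to a power of the logarithm, in intervals of length `X / log^B X`
-/

namespace Pool.Agent.Q236.RP

open Finset Filter H343E
open Pool.Agent.H442R2.EHI (lis)

/-- the prime number theorem for progressions, any power of the logarithm saved -/
theorem sw_pow (A U : ℕ) : ∃ x0 : ℕ, ∀ x : ℕ, x0 ≤ x → ∀ q a : ℕ, 1 ≤ q →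
    (q : ℝ) ≤ Real.log x ^ A → a.Coprime q →
    |piAP x q a - pi1 x / (Nat.totient q : ℝ)| ≤ x / Real.log x ^ U := by
  obtain ⟨B, x0, hBV⟩ := primes_of U (unsmoothed (U + 2))
  have h1 := (Real.isLittleO_pow_log_id_atTop (n := 2 * A + B)).def (show (0 : ℝ) < 1 by norm_num)
  have h2 := (tendsto_natCast_atTop_atTop (R := ℝ)).eventually h1
  have h3 := (Real.tendsto_log_atTop.comp (tendsto_natCast_atTop_atTop (R := ℝ))).eventually_ge_atTop 1
  obtain ⟨x1, h4⟩ := (h2.and h3).exists_forall_of_atTop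
  refine ⟨max (max x0 x1) 2, ?_⟩
  intro x hx q a' hq hqx hcop'
  obtain ⟨a, ha⟩ : ∃ a, a = a' % q := ⟨_, rfl⟩
  have haq : a < q := by rw [ha]; exact Nat.mod_lt _ hq
  have hmod : a ≡ a' [MOD q] := by rw [ha]; exact Nat.mod_modEq _ _
  have hcop : a.Coprime q := by
    unfold Nat.Coprime
    rw [hmod.gcd_eq]
    exact hcop'
  have hpi : piAP x q a' = piAP x q a := by
    unfold piAP
    congr 2
    ext p
    rw [mem_filter, mem_filter]
    constructor
    · rintro ⟨u1, u2, u3⟩
      exact ⟨u1, u2, u3.trans hmod.symm⟩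
    · rintro ⟨u1, u2, u3⟩
      exact ⟨u1, u2, u3.trans hmod⟩
  rw [hpi]
  have hx0 : x0 ≤ x := (le_max_left _ _).trans ((le_max_left _ _).trans hx)
  have hx1 : x1 ≤ x := (le_max_right _ _).trans ((le_max_left _ _).trans hx)
  have hx2 : 2 ≤ x := (le_max_right _ _).trans hx
  obtain ⟨h5, h6⟩ := h4 x hx1
  have hL : 1 ≤ Real.log x := h6
  have hL0 : 0 < Real.log x := by linarith
  have hxp : (0 : ℝ) < x := by exact_mod_cast (by omega : 0 < x)
  have h7 : Real.log x ^ (2 * A + B) ≤ x := by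
    have h := h5
    simp only [id, Real.norm_eq_abs, one_mul] at h
    rwa [abs_of_nonneg (by positivity), abs_of_nonneg hxp.le] at h
  have hq1 : (1 : ℝ) ≤ q := by exact_mod_cast hq
  have h8 : (q : ℝ) ^ 2 ≤ 1 * x / Real.log x ^ B := by
    rw [one_mul, le_div_iff₀ (by positivity)]
    calc (q : ℝ) ^ 2 * Real.log x ^ B ≤ (Real.log x ^ A) ^ 2 * Real.log x ^ B := by gcongr
      _ = Real.log x ^ (2 * A + B) := by ring
      _ ≤ x := h7
  have h9 : (q : ℝ) ≤ x / Real.log x ^ B := by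
    have h : (q : ℝ) ≤ (q : ℝ) ^ 2 := by nlinarith
    rw [one_mul] at h8
    linarith
  have hfam : Fam 1 (fun d => if d = q then {a} else ∅) := by
    refine ⟨?_, ?_⟩
    · intro d b hb
      by_cases hd : d = q
      · rw [if_pos hd, mem_singleton] at hb
        rw [hb, hd]
        exact ⟨haq, hcop⟩
      · rw [if_neg hd] at hb
        exact absurd hb (notMem_empty _)
    · intro d
      by_cases hd : d = q
      · simp only [if_pos hd, card_singleton, Nat.cast_one, le_refl]
      · simp only [if_neg hd, card_empty, Nat.cast_zero, zero_le_one]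
  have h10 := hBV x hx0 1 le_rfl q h9 h8 _ hfam
  have h11 : |piAP x q a - pi1 x / (Nat.totient q : ℝ)| ≤
      ∑ d ∈ Icc 1 q, ∑ b ∈ (if d = q then {a} else ∅ : Finset ℕ),
        |piAP x d b - pi1 x / (Nat.totient d : ℝ)| := by
    refine le_trans ?_ (single_le_sum (f := fun d => ∑ b ∈ (if d = q then {a} else ∅ : Finset ℕ),
      |piAP x d b - pi1 x / (Nat.totient d : ℝ)|)
      (fun d _ => sum_nonneg (fun _ _ => abs_nonneg _)) (mem_Icc.2 ⟨hq, le_rfl⟩))
    simp only [if_true, sum_singleton, le_refl]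
  rw [one_mul] at h10
  exact h11.trans h10

lemma lis_sub (x h : ℕ) (hx : 2 ≤ x) : lis (x + h) - lis x = ∑ n ∈ Ioc x (x + h), 1 / Real.log n := by
  unfold lis
  have e : Icc 2 (x + h) = Icc 2 x ∪ Ioc x (x + h) := by
    ext n
    rw [mem_union, mem_Icc, mem_Icc, mem_Ioc]
    omega
  rw [e, sum_union]
  · ring
  · rw [Finset.disjoint_left]
    intro n hn hn'
    rw [mem_Icc] at hn
    rw [mem_Ioc] at hn'
    omega

lemma lis_sub_bounds (x h : ℕ) (hx : 2 ≤ x) :
    (h : ℝ) / Real.log ((x : ℝ) + h) ≤ lis (x + h) - lis x ∧ lis (x + h) - lis x ≤ (h : ℝ) / Real.log x := by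
  rw [lis_sub x h hx]
  have hxr : (2 : ℝ) ≤ x := by exact_mod_cast hx
  have hlx : 0 < Real.log x := Real.log_pos (by linarith)
  constructor
  · have h1 := card_nsmul_le_sum (Ioc x (x + h)) (fun n : ℕ => 1 / Real.log n) (1 / Real.log ((x : ℝ) + h)) (by
      intro n hn
      rw [mem_Ioc] at hn
      have h1 : (x : ℝ) < n := by exact_mod_cast hn.1
      have h2 : (n : ℝ) ≤ x + h := by exact_mod_cast hn.2
      apply one_div_le_one_div_of_le (Real.log_pos (by linarith))
      exact Real.log_le_log (by linarith) h2)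
    rw [Nat.card_Ioc, nsmul_eq_mul] at h1
    have e : ((x + h - x : ℕ) : ℝ) = h := by rw [Nat.add_sub_cancel_left]
    rw [e, mul_one_div] at h1
    exact h1
  · have h1 := sum_le_card_nsmul (Ioc x (x + h)) (fun n : ℕ => 1 / Real.log n) (1 / Real.log (x : ℝ)) (by
      intro n hn
      rw [mem_Ioc] at hn
      have h1 : (x : ℝ) < n := by exact_mod_cast hn.1
      apply one_div_le_one_div_of_le hlx
      exact Real.log_le_log (by linarith) h1.le)
    rw [Nat.card_Ioc, nsmul_eq_mul] at h1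
    have e : ((x + h - x : ℕ) : ℝ) = h := by rw [Nat.add_sub_cancel_left]
    rw [e, mul_one_div] at h1
    exact h1

lemma piAP_sub (x h q a : ℕ) : (((Ioc x (x + h)).filter (fun p => p.Prime ∧ p ≡ a [MOD q])).card : ℝ) =
    piAP (x + h) q a - piAP x q a := by
  unfold piAP
  have e : (Icc 1 (x + h)).filter (fun p => p.Prime ∧ p ≡ a [MOD q]) =
      (Icc 1 x).filter (fun p => p.Prime ∧ p ≡ a [MOD q]) ∪
        (Ioc x (x + h)).filter (fun p => p.Prime ∧ p ≡ a [MOD q]) := by
    rw [← filter_union]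
    congr 1
    ext n
    rw [mem_union, mem_Icc, mem_Icc, mem_Ioc]
    omega
  rw [e, card_union_of_disjoint]
  · push_cast
    ring
  · rw [Finset.disjoint_left]
    intro n hn hn'
    rw [mem_filter, mem_Icc] at hn
    rw [mem_filter, mem_Ioc] at hn'
    omega


lemma log_window (X : ℝ) (B C : ℕ) (δ : ℝ) (hX : 1 < X) (hL : 1 ≤ Real.log X)
    (hB : B * Real.log (Real.log X) ≤ δ * Real.log X) (hC : C * Real.log (Real.log X) ≤ δ * Real.log X)
    (z : ℝ) (h1 : X / Real.log X ^ B ≤ z) (h2 : z ≤ X * Real.log X ^ C) :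
    (1 - δ) * Real.log X ≤ Real.log z ∧ Real.log z ≤ (1 + δ) * Real.log X := by
  have hX0 : 0 < X := by linarith
  have hL0 : 0 < Real.log X := by linarith
  have hz0 : 0 < X / Real.log X ^ B := by positivity
  constructor
  · have h3 := Real.log_le_log hz0 h1
    rw [Real.log_div hX0.ne' (by positivity), Real.log_pow] at h3
    linarith
  · have h3 := Real.log_le_log (hz0.trans_le h1) h2
    rw [Real.log_mul hX0.ne' (by positivity), Real.log_pow] at h3
    linarith

lemma ev_loglog (B : ℕ) (δ : ℝ) (hδ : 0 < δ) : ∀ᶠ X : ℕ in atTop,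
    B * Real.log (Real.log X) ≤ δ * Real.log X := by
  have h1 := (Real.isLittleO_log_id_atTop.comp_tendsto
    (Real.tendsto_log_atTop.comp tendsto_natCast_atTop_atTop)).def (show (0 : ℝ) < δ / (B + 1) by positivity)
  have h2 := (Real.tendsto_log_atTop.comp (tendsto_natCast_atTop_atTop (R := ℝ))).eventually_ge_atTop 1
  filter_upwards [h1, h2] with X h3 h4
  simp only [Function.comp_apply, id, Real.norm_eq_abs] at h3 h4
  have hl : 0 ≤ Real.log (Real.log X) := Real.log_nonneg h4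
  rw [abs_of_nonneg hl, abs_of_nonneg (by linarith)] at h3
  have hB : (0 : ℝ) ≤ B := Nat.cast_nonneg B
  calc B * Real.log (Real.log X) ≤ B * (δ / (B + 1) * Real.log X) := mul_le_mul_of_nonneg_left h3 hB
    _ = (B / (B + 1)) * (δ * Real.log X) := by ring
    _ ≤ 1 * (δ * Real.log X) := by
      apply mul_le_mul_of_nonneg_right _ (by positivity)
      rw [div_le_one (by positivity)]
      linarith
    _ = _ := one_mul _

lemma ev_log_ge (c : ℝ) : ∀ᶠ X : ℕ in atTop, c ≤ Real.log X :=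
  (Real.tendsto_log_atTop.comp (tendsto_natCast_atTop_atTop (R := ℝ))).eventually_ge_atTop c

lemma ev_pow_log (B : ℕ) : ∀ᶠ X : ℕ in atTop, Real.log X ^ B ≤ X := by
  have h1 := (Real.isLittleO_pow_log_id_atTop (n := B)).def (show (0 : ℝ) < 1 by norm_num)
  have h2 := (tendsto_natCast_atTop_atTop (R := ℝ)).eventually h1
  filter_upwards [h2, ev_log_ge 1] with X h3 h4
  simp only [id, Real.norm_eq_abs, one_mul] at h3
  rwa [abs_of_nonneg (by positivity), abs_of_nonneg (Nat.cast_nonneg X)] at h3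

/-- **Primes in short intervals and progressions** -/
theorem prime_short (A B C : ℕ) (η : ℝ) (hη : 0 < η) : ∀ᶠ X : ℕ in atTop, ∀ q a : ℕ, 1 ≤ q →
    (q : ℝ) ≤ Real.log X ^ A → a.Coprime q → ∀ x h : ℕ, X / Real.log X ^ B ≤ x →
    (x : ℝ) + h ≤ X * Real.log X ^ C → X / Real.log X ^ B ≤ h →
    |(((Ioc x (x + h)).filter (fun p => p.Prime ∧ p ≡ a [MOD q])).card : ℝ) -
      h / ((Nat.totient q : ℝ) * Real.log X)| ≤ η * (h / ((Nat.totient q : ℝ) * Real.log X)) := by
  obtain ⟨U, hU⟩ : ∃ U : ℕ, U = A + B + C + 2 := ⟨_, rfl⟩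
  obtain ⟨x0, hsw⟩ := sw_pow (A + 1) U
  obtain ⟨C1', hpnt⟩ := Pool.Agent.H442R2.EHI.pnt_err U
  obtain ⟨C1, hC1⟩ : ∃ C1 : ℝ, C1 = |C1'| := ⟨_, rfl⟩
  have hC10 : 0 ≤ C1 := by rw [hC1]; exact abs_nonneg _
  obtain ⟨δ, hδ⟩ : ∃ δ : ℝ, δ = min (η / 4) (1 / 2) := ⟨_, rfl⟩
  have hδ0 : 0 < δ := by rw [hδ]; positivity
  have hδη : δ ≤ η / 4 := by rw [hδ]; exact min_le_left _ _
  have hδ2 : δ ≤ 1 / 2 := by rw [hδ]; exact min_le_right _ _
  filter_upwards [ev_loglog B δ hδ0, ev_loglog C δ hδ0, ev_log_ge (2 ^ (A + 1)), ev_log_ge 2,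
    ev_log_ge ((2 + 2 * C1) * 2 ^ U * (2 / η)), ev_pow_log (B + 1), ev_log_ge (max (x0 : ℝ) 2)] with X hX1 hX2 hX3 hX4
    hX5 hX6 hX7 q a hq hqA hcop x h hx hxh hh
  obtain ⟨L, hL⟩ : ∃ L, L = Real.log (X : ℝ) := ⟨_, rfl⟩
  rw [← hL] at hX1 hX2 hX3 hX4 hX5 hX6 hX7 hqA hx hxh hh ⊢
  have hL0 : 0 < L := by linarith
  have hL1 : 1 ≤ L := by linarith
  have hX0 : (1 : ℝ) < X := by
    by_contra hcon
    push Not at hcon
    have : Real.log (X : ℝ) ≤ 0 := Real.log_nonpos (Nat.cast_nonneg X) hcon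
    rw [← hL] at this
    linarith
  have hXp : (0 : ℝ) < X := by linarith
  have hxL : L ≤ x := by
    refine le_trans ?_ hx
    rw [le_div_iff₀ (by positivity)]
    calc L * L ^ B = L ^ (B + 1) := by ring
      _ ≤ X := hX6
  have hxx0 : x0 ≤ x := by
    have h1 : (x0 : ℝ) ≤ x := (le_max_left _ _).trans (hX7.trans hxL)
    exact_mod_cast h1
  have hx2 : 2 ≤ x := by
    have h1 : (2 : ℝ) ≤ x := (le_max_right _ _).trans (hX7.trans hxL)
    exact_mod_cast h1
  have hx2r : (2 : ℝ) ≤ x := by exact_mod_cast hx2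
  have hh0 : (0 : ℝ) < h := lt_of_lt_of_le (by positivity) hh
  -- logarithms
  have hlog : ∀ z : ℝ, X / L ^ B ≤ z → z ≤ X * L ^ C → (1 - δ) * L ≤ Real.log z ∧ Real.log z ≤ (1 + δ) * L := by
    intro z h1 h2
    rw [hL] at h1 h2 ⊢
    exact log_window X B C δ hX0 (by rw [← hL]; exact hL1) (by rw [← hL]; exact hX1)
      (by rw [← hL]; exact hX2) z h1 h2
  have hxup : (x : ℝ) ≤ X * L ^ C := by linarith
  have hhup : (h : ℝ) ≤ X * L ^ C := by linarith
  have hlx := hlog x hx hxup
  have hlxh := hlog ((x : ℝ) + h) (by linarith) hxh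
  -- errors
  have hφ0 : (0 : ℝ) < (Nat.totient q : ℝ) := by exact_mod_cast Nat.totient_pos.2 hq
  have hφ1 : (1 : ℝ) ≤ (Nat.totient q : ℝ) := by exact_mod_cast Nat.totient_pos.2 hq
  have hφq : (Nat.totient q : ℝ) ≤ L ^ A := le_trans (by exact_mod_cast Nat.totient_le q) hqA
  have herr : ∀ z : ℕ, (x : ℝ) ≤ z → (z : ℝ) ≤ X * L ^ C →
      |piAP z q a - lis z / (Nat.totient q : ℝ)| ≤ (1 + C1) * (2 ^ U * X * L ^ C / L ^ U) := by
    intro z hz1 hz2
    have hz3 := hlog z (hx.trans hz1) hz2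
    have hlz : L / 2 ≤ Real.log z := by nlinarith [hz3.1]
    have hz4 : x0 ≤ z := hxx0.trans (by exact_mod_cast hz1)
    have hz5 : 2 ≤ z := hx2.trans (by exact_mod_cast hz1)
    have hlz0 : 0 < Real.log z := by linarith
    have h1 := hsw z hz4 q a hq (by
      refine hqA.trans ?_
      calc L ^ A = L ^ A * 1 := (mul_one _).symm
        _ ≤ L ^ A * (L / 2 ^ (A + 1)) := by
          apply mul_le_mul_of_nonneg_left _ (by positivity)
          rw [le_div_iff₀ (by positivity), one_mul]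
          exact hX3
        _ = (L / 2) ^ (A + 1) := by rw [div_pow]; ring
        _ ≤ Real.log z ^ (A + 1) := pow_le_pow_left₀ (by positivity) hlz _) hcop
    have h2 : |pi1 z - lis z| ≤ C1 * (z / Real.log z ^ U) := by
      refine (show |pi1 z - lis z| ≤ C1' * z / Real.log z ^ U from hpnt z hz5).trans ?_
      rw [mul_div_assoc, hC1]
      exact mul_le_mul_of_nonneg_right (le_abs_self _) (by positivity)
    have h3 : (z : ℝ) / Real.log z ^ U ≤ 2 ^ U * X * L ^ C / L ^ U := by
      calc (z : ℝ) / Real.log z ^ U ≤ (X * L ^ C) / (L / 2) ^ U := by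
            apply div_le_div₀ (by positivity) hz2 (by positivity)
            exact pow_le_pow_left₀ (by positivity) hlz _
        _ = _ := by rw [div_pow]; field_simp
    have h4 : |pi1 z / (Nat.totient q : ℝ) - lis z / (Nat.totient q : ℝ)| ≤ C1 * (z / Real.log z ^ U) := by
      rw [← sub_div, abs_div, abs_of_pos hφ0]
      exact (div_le_self (abs_nonneg _) hφ1).trans h2
    calc |piAP z q a - lis z / (Nat.totient q : ℝ)| ≤
        |piAP z q a - pi1 z / (Nat.totient q : ℝ)| + |pi1 z / (Nat.totient q : ℝ) - lis z / (Nat.totient q : ℝ)| :=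
          abs_sub_le _ _ _
      _ ≤ z / Real.log z ^ U + C1 * (z / Real.log z ^ U) := add_le_add h1 h4
      _ = (1 + C1) * (z / Real.log z ^ U) := by ring
      _ ≤ _ := mul_le_mul_of_nonneg_left h3 (by linarith)
  have he1 := herr x le_rfl hxup
  have he2 := herr (x + h) (by push_cast; linarith) (by push_cast; exact hxh)
  rw [piAP_sub]
  obtain ⟨m, hm⟩ : ∃ m : ℝ, m = h / ((Nat.totient q : ℝ) * L) := ⟨_, rfl⟩
  have hm0 : 0 < m := by rw [hm]; positivity
  rw [← hm]
  have hE : (1 + C1) * (2 ^ U * X * L ^ C / L ^ U) ≤ η / 4 * m := by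
    have h1 : X / L ^ B / (L ^ A * L) ≤ m := by
      rw [hm]
      apply div_le_div₀ hh0.le hh (by positivity)
      exact mul_le_mul_of_nonneg_right hφq hL0.le
    have h2 : 2 ^ U * X * L ^ C / L ^ U = 2 ^ U / L * (X / L ^ B / (L ^ A * L)) := by
      rw [hU]
      field_simp
      ring
    rw [h2]
    have h3 : (1 + C1) * (2 ^ U / L) ≤ η / 4 := by
      rw [← mul_div_assoc, div_le_iff₀ hL0]
      have h4 : (2 + 2 * C1) * 2 ^ U * (2 / η) ≤ L := hX5
      have h5 : (2 + 2 * C1) * 2 ^ U * (2 / η) * (η / 4) ≤ L * (η / 4) := mul_le_mul_of_nonneg_right h4 (by positivity)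
      have h6 : (2 + 2 * C1) * 2 ^ U * (2 / η) * (η / 4) = (1 + C1) * 2 ^ U := by
        field_simp
        ring
      linarith
    calc (1 + C1) * (2 ^ U / L * (X / L ^ B / (L ^ A * L))) = (1 + C1) * (2 ^ U / L) * (X / L ^ B / (L ^ A * L)) := by ring
      _ ≤ η / 4 * m := mul_le_mul h3 h1 (by positivity) (by positivity)
  have hl := lis_sub_bounds x h hx2
  have hmain : |(lis (x + h) - lis x) / (Nat.totient q : ℝ) - m| ≤ η / 2 * m := by
    have h1 : h / L * (1 - δ) ≤ lis (x + h) - lis x := by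
      refine le_trans ?_ hl.1
      have h2 : 0 < Real.log ((x : ℝ) + h) := Real.log_pos (by linarith)
      rw [le_div_iff₀ h2]
      calc h / L * (1 - δ) * Real.log ((x : ℝ) + h) ≤ h / L * (1 - δ) * ((1 + δ) * L) := by
            apply mul_le_mul_of_nonneg_left hlxh.2
            have : 0 ≤ 1 - δ := by linarith
            positivity
        _ = h * (1 - δ ^ 2) := by field_simp; ring
        _ ≤ h := by nlinarith [sq_nonneg δ]
    have h2 : lis (x + h) - lis x ≤ h / L * (1 + 2 * δ) := by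
      refine hl.2.trans ?_
      have h3 : 0 < Real.log (x : ℝ) := Real.log_pos (by linarith)
      rw [div_le_iff₀ h3]
      calc (h : ℝ) ≤ h * ((1 + 2 * δ) * (1 - δ)) := by
            have : 1 ≤ (1 + 2 * δ) * (1 - δ) := by nlinarith
            exact le_mul_of_one_le_right hh0.le this
        _ = h / L * (1 + 2 * δ) * ((1 - δ) * L) := by field_simp
        _ ≤ h / L * (1 + 2 * δ) * Real.log (x : ℝ) := by
            apply mul_le_mul_of_nonneg_left hlx.1 (by positivity)
    have h3 : m = h / L / (Nat.totient q : ℝ) := by rw [hm]; field_simp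
    have h4 : h / L * (1 - δ) / (Nat.totient q : ℝ) ≤ (lis (x + h) - lis x) / (Nat.totient q : ℝ) :=
      div_le_div_of_nonneg_right h1 hφ0.le
    have h5 : (lis (x + h) - lis x) / (Nat.totient q : ℝ) ≤ h / L * (1 + 2 * δ) / (Nat.totient q : ℝ) :=
      div_le_div_of_nonneg_right h2 hφ0.le
    have h6 : h / L * (1 - δ) / (Nat.totient q : ℝ) = m * (1 - δ) := by rw [h3]; ring
    have h7 : h / L * (1 + 2 * δ) / (Nat.totient q : ℝ) = m * (1 + 2 * δ) := by rw [h3]; ring
    rw [h6] at h4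
    rw [h7] at h5
    rw [abs_le]
    constructor
    · nlinarith
    · nlinarith
  have e : piAP (x + h) q a - piAP x q a - m = (piAP (x + h) q a - lis (x + h) / (Nat.totient q : ℝ)) -
      (piAP x q a - lis x / (Nat.totient q : ℝ)) + ((lis (x + h) - lis x) / (Nat.totient q : ℝ) - m) := by ring
  rw [e]
  have h8 := abs_le.1 (he1.trans hE)
  have h9 := abs_le.1 (he2.trans hE)
  have h10 := abs_le.1 hmain
  rw [abs_le]
  constructor
  · linarith [h8.1, h8.2, h9.1, h9.2, h10.1]
  · linarith [h8.1, h8.2, h9.1, h9.2, h10.2]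


lemma count_shift (a q y : ℕ) (hq : 1 ≤ q) : ((Ioc 0 y).filter (fun t => (a + q * t).Prime)).card =
    ((Ioc a (a + q * y)).filter (fun p => p.Prime ∧ p ≡ a [MOD q])).card := by
  apply card_bij (fun t _ => a + q * t)
  · intro t ht
    rw [mem_filter, mem_Ioc] at ht
    rw [mem_filter, mem_Ioc]
    refine ⟨⟨?_, ?_⟩, ht.2, ?_⟩
    · have : 0 < q * t := Nat.mul_pos hq ht.1.1
      omega
    · exact Nat.add_le_add_left (Nat.mul_le_mul_left q ht.1.2) a
    · unfold Nat.ModEq
      rw [Nat.add_mul_mod_self_left]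
  · intro t _ u _ htu
    have h1 : q * t = q * u := by omega
    exact Nat.eq_of_mul_eq_mul_left hq h1
  · intro p hp
    rw [mem_filter, mem_Ioc] at hp
    obtain ⟨⟨h1, h2⟩, h3, h4⟩ := hp
    obtain ⟨t, ht⟩ := (Nat.modEq_iff_dvd' h1.le).1 h4.symm
    refine ⟨t, ?_, by omega⟩
    rw [mem_filter, mem_Ioc]
    refine ⟨⟨?_, ?_⟩, ?_⟩
    · rcases Nat.eq_zero_or_pos t with h5 | h5
      · rw [h5, mul_zero] at ht
        omega
      · exact h5
    · exact Nat.le_of_mul_le_mul_left (by omega : q * t ≤ q * y) hq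
    · have : a + q * t = p := by omega
      rw [this]
      exact h3

/-- **Primes `a + q t`, `t ≤ y`** -/
theorem ap_count (A B C : ℕ) (η : ℝ) (hη : 0 < η) : ∀ᶠ X : ℕ in atTop, ∀ q a : ℕ, 1 ≤ q →
    (q : ℝ) ≤ Real.log X ^ A → a.Coprime q → ∀ y : ℕ, X / Real.log X ^ B ≤ a → (a : ℝ) ≤ X * Real.log X ^ C →
    X / Real.log X ^ B ≤ y → y ≤ X →
    |(((Ioc 0 y).filter (fun t => (a + q * t).Prime)).card : ℝ) -
      (q / (Nat.totient q : ℝ)) * (y / Real.log X)| ≤ η * ((q / (Nat.totient q : ℝ)) * (y / Real.log X)) := by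
  filter_upwards [prime_short A B (C + A + 1) η hη, ev_log_ge 2] with X h hL2 q a hq hqA hcop y ha ha2 hy hyX
  obtain ⟨L, hL⟩ : ∃ L, L = Real.log (X : ℝ) := ⟨_, rfl⟩
  rw [← hL] at h hL2 hqA ha ha2 hy ⊢
  have hL1 : 1 ≤ L := by linarith
  have hq1 : (1 : ℝ) ≤ q := by exact_mod_cast hq
  have hX0 : (0 : ℝ) ≤ X := Nat.cast_nonneg X
  have h1 := h q a hq hqA hcop a (q * y) ha (by
    push_cast
    have e1 : (q : ℝ) * y ≤ X * L ^ (C + A) := by
      calc (q : ℝ) * y ≤ L ^ A * X := mul_le_mul hqA (by exact_mod_cast hyX) (Nat.cast_nonneg _) (by positivity)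
        _ = X * L ^ A := mul_comm _ _
        _ ≤ X * L ^ (C + A) := mul_le_mul_of_nonneg_left (pow_le_pow_right₀ hL1 (by omega)) hX0
    have e2 : (a : ℝ) ≤ X * L ^ (C + A) := by
      refine ha2.trans ?_
      exact mul_le_mul_of_nonneg_left (pow_le_pow_right₀ hL1 (by omega)) hX0
    calc (a : ℝ) + q * y ≤ 2 * (X * L ^ (C + A)) := by linarith
      _ ≤ L * (X * L ^ (C + A)) := mul_le_mul_of_nonneg_right hL2 (by positivity)
      _ = X * L ^ (C + A + 1) := by ring) (by
    push_cast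
    calc X / L ^ B ≤ y := hy
      _ ≤ q * y := le_mul_of_one_le_left (Nat.cast_nonneg _) hq1)
  rw [count_shift a q y hq]
  have e : ((q * y : ℕ) : ℝ) / ((Nat.totient q : ℝ) * L) = (q / (Nat.totient q : ℝ)) * (y / L) := by
    push_cast
    rw [div_mul_div_comm]
  rw [e] at h1
  exact h1


lemma ev_log_lt (A B : ℕ) : ∀ᶠ X : ℕ in atTop, Real.log X ^ A < X / Real.log X ^ B := by
  filter_upwards [ev_pow_log (A + B + 1), ev_log_ge 2] with X h hL
  rw [lt_div_iff₀ (by positivity)]
  calc Real.log X ^ A * Real.log X ^ B = Real.log X ^ (A + B) := by ring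
    _ < Real.log X ^ (A + B + 1) := pow_lt_pow_right₀ (by linarith) (by omega)
    _ ≤ X := h

/-- upper bound without the coprimality condition -/
theorem ap_upper (A B C : ℕ) (η : ℝ) (hη : 0 < η) : ∀ᶠ X : ℕ in atTop, ∀ q a : ℕ, 1 ≤ q →
    (q : ℝ) ≤ Real.log X ^ A → ∀ y : ℕ, X / Real.log X ^ B ≤ a → (a : ℝ) ≤ X * Real.log X ^ C →
    X / Real.log X ^ B ≤ y → y ≤ X →
    (((Ioc 0 y).filter (fun t => (a + q * t).Prime)).card : ℝ) ≤
      (1 + η) * ((q / (Nat.totient q : ℝ)) * (y / Real.log X)) := by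
  filter_upwards [ap_count A B C η hη, ev_log_ge 2, ev_log_lt A B] with X h hL2 hlt q a hq hqA y ha ha2 hy hyX
  by_cases hcop : a.Coprime q
  · have h1 := abs_le.1 (h q a hq hqA hcop y ha ha2 hy hyX)
    linarith [h1.2]
  · have hqa : q < a := by
      have : (q : ℝ) < a := lt_of_le_of_lt hqA (lt_of_lt_of_le hlt ha)
      exact_mod_cast this
    have : (Ioc 0 y).filter (fun t => (a + q * t).Prime) = ∅ := by
      rw [filter_eq_empty_iff]
      intro t _ hp
      have hg : Nat.gcd a q ∣ a + q * t :=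
        dvd_add (Nat.gcd_dvd_left a q) (Dvd.dvd.mul_right (Nat.gcd_dvd_right a q) t)
      rcases (Nat.dvd_prime hp).1 hg with h1 | h1
      · exact hcop h1
      · have h2 := Nat.gcd_le_right a (by omega : 0 < q)
        have h3 : q ≤ q * t + q := Nat.le_add_left _ _
        have : a + q * t ≤ q := by rw [← h1]; exact h2
        omega
    rw [this, card_empty, Nat.cast_zero]
    have hφ0 : (0 : ℝ) < (Nat.totient q : ℝ) := by exact_mod_cast Nat.totient_pos.2 hq
    have hL0 : 0 < Real.log (X : ℝ) := by linarith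
    positivity

/-- upper bound with a further congruence -/
theorem ap_upper_marked (A B C : ℕ) (η : ℝ) (hη : 0 < η) : ∀ᶠ X : ℕ in atTop, ∀ q a p : ℕ, 1 ≤ q →
    (q : ℝ) ≤ Real.log X ^ A → p.Prime → (p : ℝ) ≤ Real.log X ^ A → ¬p ∣ q → ∀ b : ℤ,
    ∀ y : ℕ, X / Real.log X ^ B ≤ a → (a : ℝ) ≤ X * Real.log X ^ C →
    X / Real.log X ^ B ≤ y → y ≤ X →
    (((Ioc 0 y).filter (fun t => (a + q * t).Prime ∧ (p : ℤ) ∣ ((a + q * t : ℕ) : ℤ) - b)).card : ℝ) ≤
      (1 + η) * ((q / (Nat.totient q : ℝ)) * (2 / p) * (y / Real.log X)) := by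
  filter_upwards [ap_upper (2 * A) (B + A + 1) (C + A + 1) (η / 2) (by positivity), ev_log_ge 2,
    ev_pow_log (A + B + 1), ev_pow_log (A + B + 2), ev_log_ge (2 / η)] with X h hL2 hP1 hP2 hLη q a p hq hqA hp hpA hpq b
      y ha ha2 hy hyX
  obtain ⟨L, hL⟩ : ∃ L, L = Real.log (X : ℝ) := ⟨_, rfl⟩
  rw [← hL] at h hL2 hP1 hP2 hLη hqA hpA ha ha2 hy ⊢
  have hL0 : 0 < L := by linarith
  have hL1 : 1 ≤ L := by linarith
  have hφ0 : (0 : ℝ) < (Nat.totient q : ℝ) := by exact_mod_cast Nat.totient_pos.2 hq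
  have hq1 : (1 : ℝ) ≤ q := by exact_mod_cast hq
  have hg1 : 1 ≤ (q : ℝ) / (Nat.totient q : ℝ) := by
    rw [one_le_div hφ0]
    exact_mod_cast Nat.totient_le q
  have hp2 : (2 : ℝ) ≤ p := by exact_mod_cast hp.two_le
  have hp0 : (0 : ℝ) < p := by linarith
  have hX0 : (0 : ℝ) ≤ X := Nat.cast_nonneg X
  obtain ⟨T, hT⟩ : ∃ T, T = (Ioc 0 y).filter (fun t => (a + q * t).Prime ∧ (p : ℤ) ∣ ((a + q * t : ℕ) : ℤ) - b) := ⟨_, rfl⟩
  rw [← hT]
  rcases T.eq_empty_or_nonempty with hTe | hTne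
  · rw [hTe, card_empty, Nat.cast_zero]
    positivity
  · obtain ⟨t1, ht1⟩ : ∃ t1, t1 = T.min' hTne := ⟨_, rfl⟩
    have ht1T : t1 ∈ T := by rw [ht1]; exact T.min'_mem hTne
    have ht1' := ht1T
    rw [hT, mem_filter, mem_Ioc] at ht1'
    obtain ⟨y', hy'⟩ : ∃ y' : ℕ, y' = y / p := ⟨_, rfl⟩
    have hsub : T ⊆ insert t1 (((Ioc 0 y').filter (fun u => ((a + q * t1) + (q * p) * u).Prime)).image
        (fun u => t1 + p * u)) := by
      intro t ht
      have hle : t1 ≤ t := by rw [ht1]; exact T.min'_le t ht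
      have ht' := ht
      rw [hT, mem_filter, mem_Ioc] at ht'
      have hdvd : (p : ℤ) ∣ (q : ℤ) * ((t : ℤ) - t1) := by
        have h1 := dvd_sub ht'.2.2 ht1'.2.2
        have e : ((a + q * t : ℕ) : ℤ) - b - (((a + q * t1 : ℕ) : ℤ) - b) = (q : ℤ) * ((t : ℤ) - t1) := by
          push_cast
          ring
        rwa [e] at h1
      have hdvd2 : p ∣ t - t1 := by
        rcases (Nat.prime_iff_prime_int.1 hp).dvd_or_dvd hdvd with h1 | h1
        · exact absurd (Int.natCast_dvd_natCast.1 h1) hpq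
        · rw [← Nat.cast_sub hle] at h1
          exact Int.natCast_dvd_natCast.1 h1
      obtain ⟨u, hu⟩ := hdvd2
      have htu : t = t1 + p * u := by omega
      rcases Nat.eq_zero_or_pos u with h0 | h0
      · rw [mem_insert]
        left
        rw [htu, h0]
        simp
      · rw [mem_insert]
        right
        rw [mem_image]
        refine ⟨u, ?_, htu.symm⟩
        rw [mem_filter, mem_Ioc]
        refine ⟨⟨h0, ?_⟩, ?_⟩
        · rw [hy', Nat.le_div_iff_mul_le hp.pos, mul_comm]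
          omega
        · have e : a + q * t1 + q * p * u = a + q * t := by rw [htu]; ring
          rw [e]
          exact ht'.2.1
    have hcard : (T.card : ℝ) ≤ 1 + (((Ioc 0 y').filter (fun u => ((a + q * t1) + (q * p) * u).Prime)).card : ℝ) := by
      have h1 := (card_le_card hsub).trans (card_insert_le _ _)
      have h2 := card_image_le (s := (Ioc 0 y').filter (fun u => ((a + q * t1) + (q * p) * u).Prime))
        (f := fun u => t1 + p * u)
      have h3 : T.card ≤ 1 + ((Ioc 0 y').filter (fun u => ((a + q * t1) + (q * p) * u).Prime)).card := by omega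
      exact_mod_cast h3
    have hyr : (y : ℝ) / p - 1 ≤ y' := by
      rw [hy']
      have h1 := Nat.lt_div_mul_add (a := y) (b := p) hp.pos
      have h2 : (y : ℝ) < (y / p : ℕ) * p + p := by exact_mod_cast h1
      have h3 : (y : ℝ) / p < (y / p : ℕ) + 1 := by
        rw [div_lt_iff₀ hp0]
        linarith
      linarith
    have hyr2 : (y' : ℝ) ≤ y / p := by
      rw [hy']
      exact Nat.cast_div_le
    have hYp : X / L ^ (A + B) ≤ (y : ℝ) / p := by
      rw [pow_add, mul_comm, ← div_div]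
      calc X / L ^ B / L ^ A ≤ y / L ^ A := div_le_div_of_nonneg_right hy (by positivity)
        _ ≤ y / p := div_le_div_of_nonneg_left (Nat.cast_nonneg _) hp0 hpA
    have hup := h (q * p) (a + q * t1) (Nat.mul_pos hq hp.pos) (by
      push_cast
      calc (q : ℝ) * p ≤ L ^ A * L ^ A := mul_le_mul hqA hpA hp0.le (by positivity)
        _ = L ^ (2 * A) := by ring) y' (by
      push_cast
      have h1 : X / L ^ (B + A + 1) ≤ X / L ^ B :=
        div_le_div_of_nonneg_left hX0 (by positivity) (pow_le_pow_right₀ hL1 (by omega))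
      have h2 : (0 : ℝ) ≤ (q : ℝ) * t1 := by positivity
      linarith) (by
      push_cast
      have h1 : (q : ℝ) * t1 ≤ X * L ^ A := by
        have : (t1 : ℝ) ≤ X := by exact_mod_cast ht1'.1.2.trans hyX
        calc (q : ℝ) * t1 ≤ L ^ A * X := mul_le_mul hqA this (Nat.cast_nonneg _) (by positivity)
          _ = _ := mul_comm _ _
      have h2 : X * L ^ A ≤ X * L ^ (C + A) := mul_le_mul_of_nonneg_left (pow_le_pow_right₀ hL1 (by omega)) hX0
      have h3 : X * L ^ C ≤ X * L ^ (C + A) := mul_le_mul_of_nonneg_left (pow_le_pow_right₀ hL1 (by omega)) hX0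
      calc (a : ℝ) + q * t1 ≤ 2 * (X * L ^ (C + A)) := by linarith
        _ ≤ L * (X * L ^ (C + A)) := mul_le_mul_of_nonneg_right hL2 (by positivity)
        _ = X * L ^ (C + A + 1) := by ring) (by
      refine le_trans ?_ hyr
      have h1 : X / L ^ (B + A + 1) ≤ X / L ^ (A + B) / 2 := by
        rw [show B + A + 1 = (A + B) + 1 by ring, pow_succ, ← div_div]
        exact div_le_div_of_nonneg_left (by positivity) (by norm_num) hL2
      have h2 : 2 ≤ X / L ^ (A + B) := by
        rw [le_div_iff₀ (by positivity)]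
        calc 2 * L ^ (A + B) ≤ L * L ^ (A + B) := mul_le_mul_of_nonneg_right hL2 (by positivity)
          _ = L ^ (A + B + 1) := by ring
          _ ≤ X := hP1
      linarith) (by
        rw [hy']
        exact (Nat.div_le_self _ _).trans hyX)
    have htot : ((q * p : ℕ) : ℝ) / (Nat.totient (q * p) : ℝ) ≤ (q / (Nat.totient q : ℝ)) * 2 := by
      have hcop : q.Coprime p := by
        rw [Nat.coprime_comm]
        exact (hp.coprime_iff_not_dvd).2 hpq
      rw [Nat.totient_mul hcop, Nat.totient_prime hp]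
      push_cast
      rw [Nat.cast_sub hp.one_le]
      push_cast
      rw [mul_div_mul_comm]
      apply mul_le_mul_of_nonneg_left _ (by positivity)
      rw [div_le_iff₀ (by linarith)]
      linarith
    have h1 : (((Ioc 0 y').filter (fun u => ((a + q * t1) + (q * p) * u).Prime)).card : ℝ) ≤
        (1 + η / 2) * ((q / (Nat.totient q : ℝ)) * (2 / p) * (y / L)) := by
      refine hup.trans ?_
      apply mul_le_mul_of_nonneg_left _ (by positivity)
      calc ((q * p : ℕ) : ℝ) / (Nat.totient (q * p) : ℝ) * (y' / L) ≤ ((q / (Nat.totient q : ℝ)) * 2) * ((y / p) / L) := by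
            apply mul_le_mul htot _ (by positivity) (by positivity)
            exact div_le_div_of_nonneg_right hyr2 hL0.le
        _ = _ := by ring
    have h2 : 1 ≤ η / 2 * ((q / (Nat.totient q : ℝ)) * (2 / p) * (y / L)) := by
      have h3 : 1 * (2 * (X / L ^ (A + B)) / L) ≤ (q / (Nat.totient q : ℝ)) * (2 / p) * (y / L) := by
        calc 1 * (2 * (X / L ^ (A + B)) / L) ≤ (q / (Nat.totient q : ℝ)) * (2 * (y / p) / L) := by
              apply mul_le_mul hg1 _ (by positivity) (by positivity)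
              apply div_le_div_of_nonneg_right _ hL0.le
              linarith
          _ = _ := by ring
      have h4 : L ≤ X / L ^ (A + B) / L := by
        rw [div_div, le_div_iff₀ (by positivity)]
        calc L * (L ^ (A + B) * L) = L ^ (A + B + 2) := by ring
          _ ≤ X := hP2
      have h5 : η / 2 * (1 * (2 * (X / L ^ (A + B)) / L)) ≤ η / 2 * ((q / (Nat.totient q : ℝ)) * (2 / p) * (y / L)) :=
        mul_le_mul_of_nonneg_left h3 (by positivity)
      have h6 : η / 2 * (1 * (2 * (X / L ^ (A + B)) / L)) = η * (X / L ^ (A + B) / L) := by ring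
      have h7 : 1 ≤ η * L := by
        have := mul_le_mul_of_nonneg_left hLη hη.le
        have e : η * (2 / η) = 2 := by field_simp
        linarith
      have h8 : η * L ≤ η * (X / L ^ (A + B) / L) := mul_le_mul_of_nonneg_left h4 hη.le
      linarith
    linarith

end Pool.Agent.Q236.RP
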