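import Pool.Agent.Q236.RP.Many
import Pool.Agent.TH464.PO.AvgS
import Pool.Agent.Q236.ML.Cls

set_option autoImplicit false

/-!
# The weights of the sets of points are close to a constant on average
-/

namespace Pool.Agent.Q236.RP

open Finset
open Pool.Agent.H373R2.T7 Pool.Agent.TH464.PO

/-- the product over the primes dividing `N` but not `M` -/
noncomputable def Hh (M N : ℕ) : ℝ := ∏ p ∈ N.primeFactors \ M.primeFactors, (1 - (p : ℝ)⁻¹)⁻¹

lemma fac_pos (p : ℕ) (hp : p.Prime) : (0 : ℝ) < 1 - (p : ℝ)⁻¹ := by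
  have h2 : (2 : ℝ) ≤ p := by exact_mod_cast hp.two_le
  have : (p : ℝ)⁻¹ ≤ 2⁻¹ := inv_anti₀ (by norm_num) h2
  linarith

lemma fac_ge (p : ℕ) (hp : p.Prime) : (1 : ℝ) ≤ (1 - (p : ℝ)⁻¹)⁻¹ := by
  rw [one_le_inv₀ (fac_pos p hp)]
  have : (0 : ℝ) ≤ (p : ℝ)⁻¹ := by positivity
  linarith

lemma fac_le (p : ℕ) (hp : p.Prime) : (1 - (p : ℝ)⁻¹)⁻¹ ≤ 1 + 2 / p := by
  have h2 : (2 : ℝ) ≤ p := by exact_mod_cast hp.two_le
  have hp0 : (0 : ℝ) < p := by linarith
  rw [inv_le_comm₀ (fac_pos p hp) (by positivity), ← one_div, div_le_iff₀ (by positivity)]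
  have e : (1 - (p : ℝ)⁻¹) * (1 + 2 / p) = 1 + (1 / p - 2 / p ^ 2) := by
    field_simp
    ring
  rw [e]
  have : 2 / (p : ℝ) ^ 2 ≤ 1 / p := by
    rw [div_le_div_iff₀ (by positivity) hp0]
    nlinarith
  linarith

lemma prod_fac_ge (s : Finset ℕ) (hs : ∀ p ∈ s, p.Prime) : (1 : ℝ) ≤ ∏ p ∈ s, (1 - (p : ℝ)⁻¹)⁻¹ := by
  induction s using Finset.induction_on with
  | empty => simp
  | insert p s hp ih =>
    rw [prod_insert hp]
    have h1 := fac_ge p (hs p (mem_insert_self p s))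
    have h2 := ih (fun q hq => hs q (mem_insert_of_mem hq))
    nlinarith

lemma Hh_ge (M N : ℕ) : 1 ≤ Hh M N :=
  prod_fac_ge _ fun p hp => Nat.prime_of_mem_primeFactors (mem_sdiff.1 hp).1

lemma Hh_one (M : ℕ) : Hh M 1 = 1 := by
  unfold Hh
  rw [Nat.primeFactors_one, empty_sdiff, prod_empty]

lemma Hh_mul (M a b : ℕ) (ha : a ≠ 0) (hb : b ≠ 0) : Hh M (a * b) ≤ Hh M a * Hh M b := by
  unfold Hh
  rw [Nat.primeFactors_mul ha hb, union_sdiff_distrib, ← Finset.prod_union_inter]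
  apply le_mul_of_one_le_right
  · have := prod_fac_ge (a.primeFactors \ M.primeFactors ∪ b.primeFactors \ M.primeFactors) (fun p hp => by
      rw [mem_union, mem_sdiff, mem_sdiff] at hp
      rcases hp with hp | hp
      · exact Nat.prime_of_mem_primeFactors hp.1
      · exact Nat.prime_of_mem_primeFactors hp.1)
    linarith
  · exact prod_fac_ge _ fun p hp => Nat.prime_of_mem_primeFactors (mem_sdiff.1 (mem_inter.1 hp).1).1

lemma Hh_prod {ι : Type*} [DecidableEq ι] (M : ℕ) (s : Finset ι) (a : ι → ℕ) (ha : ∀ i ∈ s, a i ≠ 0) :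
    Hh M (∏ i ∈ s, a i) ≤ ∏ i ∈ s, Hh M (a i) := by
  induction s using Finset.induction_on with
  | empty => rw [prod_empty, prod_empty, Hh_one]
  | insert i s hi ih =>
    rw [prod_insert hi, prod_insert hi]
    have h1 : ∀ j ∈ s, a j ≠ 0 := fun j hj => ha j (mem_insert_of_mem hj)
    refine (Hh_mul M (a i) _ (ha i (mem_insert_self i s)) (Finset.prod_ne_zero_iff.2 h1)).trans ?_
    exact mul_le_mul_of_nonneg_left (ih h1) (by linarith [Hh_ge M (a i)])

/-- `N / φ(N)` as a product -/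
lemma ratio_eq (N : ℕ) (hN : N ≠ 0) : (N : ℝ) / (Nat.totient N : ℝ) = ∏ p ∈ N.primeFactors, (1 - (p : ℝ)⁻¹)⁻¹ := by
  have h1 := Nat.totient_eq_mul_prod_factors N
  have h2 : (Nat.totient N : ℝ) = N * ∏ p ∈ N.primeFactors, (1 - (p : ℝ)⁻¹) := by
    have h3 := congrArg (fun q : ℚ => (q : ℝ)) h1
    push_cast at h3
    exact h3
  rw [h2, Finset.prod_inv_distrib]
  have h3 : 0 < ∏ p ∈ N.primeFactors, (1 - (p : ℝ)⁻¹) :=
    prod_pos fun p hp => fac_pos p (Nat.prime_of_mem_primeFactors hp)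
  have hN' : (N : ℝ) ≠ 0 := by exact_mod_cast hN
  field_simp

lemma ratio_mul (M D : ℕ) (hM : M ≠ 0) (hD : D ≠ 0) :
    ((M * D : ℕ) : ℝ) / (Nat.totient (M * D) : ℝ) = M / (Nat.totient M : ℝ) * Hh M D := by
  rw [ratio_eq _ (Nat.mul_ne_zero hM hD), ratio_eq M hM, Nat.primeFactors_mul hM hD]
  unfold Hh
  have e : M.primeFactors ∪ D.primeFactors = M.primeFactors ∪ (D.primeFactors \ M.primeFactors) := by
    rw [union_sdiff_self_eq_union]
  rw [e, prod_union disjoint_sdiff]

/-- the variable part of the weight -/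
noncomputable def Wv (M : ℕ) (S : Finset ℕ) : ℝ := ∏ k ∈ S, Hh M (Dk S k)

lemma wt_eq (M : ℕ) (hM : M ≠ 0) (S : Finset ℕ) : wt M S = (M / (Nat.totient M : ℝ)) ^ S.card * Wv M S := by
  unfold wt Wv gk
  rw [Finset.prod_congr rfl (fun k _ => ratio_mul M (Dk S k) hM (Dk_pos S k).ne'), Finset.prod_mul_distrib,
    Finset.prod_const]

lemma Wv_ge (M : ℕ) (S : Finset ℕ) : 1 ≤ Wv M S := by
  unfold Wv
  have h : ∀ T : Finset ℕ, 1 ≤ ∏ k ∈ T, Hh M (Dk S k) := by
    intro T
    induction T using Finset.induction_on with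
    | empty => simp
    | insert k T hk ih =>
      rw [prod_insert hk]
      nlinarith [Hh_ge M (Dk S k)]
  exact h S

lemma Wv_le (M : ℕ) (S : Finset ℕ) : Wv M S ≤ ∏ x ∈ prs S, Hh M (x.2 - x.1) := by
  have h1 : ∀ k ∈ S, Hh M (Dk S k) ≤ ∏ s ∈ S.filter (fun s => s < k), Hh M (k - s) := by
    intro k _
    unfold Dk
    apply Hh_prod
    intro s hs
    rw [mem_filter] at hs
    omega
  have h2 : Wv M S ≤ ∏ k ∈ S, ∏ s ∈ S.filter (fun s => s < k), Hh M (k - s) := by
    unfold Wv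
    exact Finset.prod_le_prod (fun k _ => by linarith [Hh_ge M (Dk S k)]) h1
  refine h2.trans (le_of_eq ?_)
  unfold prs
  rw [Finset.prod_filter, Finset.prod_product_right]
  apply Finset.prod_congr rfl
  intro k _
  rw [Finset.prod_filter]

/-- products of numbers at least one and the sum of their powers -/
lemma prod_le_sum {ι : Type*} [DecidableEq ι] (P : Finset ι) (A : ι → ℝ) (hA : ∀ x ∈ P, 1 ≤ A x) (r : ℕ) (hr : P.card ≤ r) :
    ∏ x ∈ P, A x ≤ 1 + ∑ x ∈ P, (A x ^ r - 1) := by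
  rcases P.eq_empty_or_nonempty with h | h
  · rw [h]
    simp
  · obtain ⟨x0, hx0, hmax⟩ := P.exists_max_image A h
    have h1 : ∏ x ∈ P, A x ≤ A x0 ^ P.card := by
      rw [← Finset.prod_const]
      exact Finset.prod_le_prod (fun x hx => by linarith [hA x hx]) hmax
    have h2 : A x0 ^ P.card ≤ A x0 ^ r := pow_le_pow_right₀ (hA x0 hx0) hr
    have h3 : A x0 ^ r - 1 ≤ ∑ x ∈ P, (A x ^ r - 1) := by
      apply single_le_sum (f := fun x => A x ^ r - 1) _ hx0
      intro x hx
      have := one_le_pow₀ (n := r) (hA x hx)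
      linarith
    linarith

lemma pow_lin (x : ℝ) (hx0 : 0 ≤ x) (hx1 : x ≤ 1) (s : ℕ) : (1 + 2 * x) ^ s ≤ 1 + ((3 : ℝ) ^ s - 1) * x := by
  induction s with
  | zero => simp
  | succ s ih =>
    rw [pow_succ, pow_succ]
    have h3 : (1 : ℝ) ≤ 3 ^ s := one_le_pow₀ (by norm_num)
    calc (1 + 2 * x) ^ s * (1 + 2 * x) ≤ (1 + ((3 : ℝ) ^ s - 1) * x) * (1 + 2 * x) :=
          mul_le_mul_of_nonneg_right ih (by positivity)
      _ = 1 + ((3 : ℝ) ^ s - 1 + 2) * x + 2 * ((3 : ℝ) ^ s - 1) * (x * x) := by ring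
      _ ≤ 1 + ((3 : ℝ) ^ s - 1 + 2) * x + 2 * ((3 : ℝ) ^ s - 1) * x := by
          have : x * x ≤ x := by nlinarith
          have h4 : 0 ≤ 2 * ((3 : ℝ) ^ s - 1) := by linarith
          linarith [mul_le_mul_of_nonneg_left this h4]
      _ = _ := by ring

/-- the majorant -/
noncomputable def Eh (c w h : ℕ) : ℝ := ∏ p ∈ h.primeFactors.filter (fun p => w < p), (1 + (c : ℝ) / p)

lemma Eh_ge (c w h : ℕ) : 1 ≤ Eh c w h := by
  unfold Eh
  have : ∀ s : Finset ℕ, (1 : ℝ) ≤ ∏ p ∈ s, (1 + (c : ℝ) / p) := by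
    intro s
    induction s using Finset.induction_on with
    | empty => simp
    | insert p s hp ih =>
      rw [prod_insert hp]
      have : (0 : ℝ) ≤ c / p := by positivity
      nlinarith
  exact this _

lemma Hh_pow_le (w h s c : ℕ) (hc : 3 ^ s ≤ c) : Hh (primorial w) h ^ s ≤ Eh c w h := by
  unfold Hh Eh
  rw [← Finset.prod_pow]
  have hsub : h.primeFactors \ (primorial w).primeFactors ⊆ h.primeFactors.filter (fun p => w < p) := by
    intro p hp
    rw [Finset.mem_sdiff] at hp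
    rw [mem_filter]
    refine ⟨hp.1, ?_⟩
    by_contra hcon
    push Not at hcon
    apply hp.2
    have hpp := Nat.prime_of_mem_primeFactors hp.1
    rw [Nat.mem_primeFactors]
    refine ⟨hpp, ?_, primorial_ne_zero w⟩
    unfold primorial
    apply Finset.dvd_prod_of_mem
    rw [mem_filter, mem_range]
    exact ⟨by omega, hpp⟩
  have h1 : ∏ p ∈ h.primeFactors \ (primorial w).primeFactors, ((1 - (p : ℝ)⁻¹)⁻¹) ^ s ≤
      ∏ p ∈ h.primeFactors \ (primorial w).primeFactors, (1 + (c : ℝ) / p) := by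
    apply Finset.prod_le_prod
    · intro p hp
      have := fac_ge p (Nat.prime_of_mem_primeFactors (mem_sdiff.1 hp).1)
      positivity
    · intro p hp
      have hpp := Nat.prime_of_mem_primeFactors (mem_sdiff.1 hp).1
      have hp2 : (2 : ℝ) ≤ p := by exact_mod_cast hpp.two_le
      have hp0 : (0 : ℝ) < p := by linarith
      calc ((1 - (p : ℝ)⁻¹)⁻¹) ^ s ≤ (1 + 2 / (p : ℝ)) ^ s := by
            apply pow_le_pow_left₀ _ (fac_le p hpp)
            linarith [fac_ge p hpp]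
        _ = (1 + 2 * (1 / (p : ℝ))) ^ s := by rw [mul_one_div]
        _ ≤ 1 + ((3 : ℝ) ^ s - 1) * (1 / p) := by
            apply pow_lin
            · positivity
            · rw [div_le_one hp0]
              linarith
        _ ≤ 1 + (c : ℝ) / p := by
            rw [mul_one_div]
            have h3 : (3 : ℝ) ^ s - 1 ≤ c := by
              have : (3 : ℝ) ^ s ≤ c := by exact_mod_cast hc
              linarith
            linarith [div_le_div_of_nonneg_right h3 hp0.le]
  refine h1.trans ?_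
  apply Finset.prod_le_prod_of_subset_of_one_le hsub
  · intro p _
    positivity
  · intro p _ _
    have : (0 : ℝ) ≤ c / p := by positivity
    linarith

lemma one_add_sum_le {ι : Type*} [DecidableEq ι] (s : Finset ι) (y : ι → ℝ) (hy : ∀ i, 0 ≤ y i) :
    1 + ∑ i ∈ s, y i ≤ ∏ i ∈ s, (1 + y i) := by
  induction s using Finset.induction_on with
  | empty => simp
  | insert i s hi ih =>
    rw [sum_insert hi, prod_insert hi]
    have h1 : 0 ≤ ∑ i ∈ s, y i := sum_nonneg fun j _ => hy j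
    have h2 := hy i
    nlinarith

lemma sg_one (M : ℕ) : sg M 1 = 0 := by
  unfold sg
  rw [Nat.primeFactors_one, empty_sdiff, sum_empty]

lemma sg_mul (M a b : ℕ) (ha : a ≠ 0) (hb : b ≠ 0) : sg M (a * b) ≤ sg M a + sg M b := by
  unfold sg
  rw [Nat.primeFactors_mul ha hb, union_sdiff_distrib, ← Finset.sum_union_inter]
  have : 0 ≤ ∑ p ∈ a.primeFactors \ M.primeFactors ∩ (b.primeFactors \ M.primeFactors), 1 / (p : ℝ) :=
    sum_nonneg fun p _ => by positivity
  linarith

lemma sg_prod {ι : Type*} [DecidableEq ι] (M : ℕ) (s : Finset ι) (a : ι → ℕ) (ha : ∀ i ∈ s, a i ≠ 0) :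
    sg M (∏ i ∈ s, a i) ≤ ∑ i ∈ s, sg M (a i) := by
  induction s using Finset.induction_on with
  | empty => rw [prod_empty, sum_empty, sg_one]
  | insert i s hi ih =>
    rw [prod_insert hi, sum_insert hi]
    have h1 : ∀ j ∈ s, a j ≠ 0 := fun j hj => ha j (mem_insert_of_mem hj)
    refine (sg_mul M (a i) _ (ha i (mem_insert_self i s)) (Finset.prod_ne_zero_iff.2 h1)).trans ?_
    linarith [ih h1]

lemma dl_le (M : ℕ) (S : Finset ℕ) : dl M S ≤ ∑ x ∈ prs S, sg M (x.2 - x.1) := by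
  have h1 : ∀ k ∈ S, sg M (Dk S k) ≤ ∑ s ∈ S.filter (fun s => s < k), sg M (k - s) := by
    intro k _
    unfold Dk
    apply sg_prod
    intro s hs
    rw [mem_filter] at hs
    omega
  have h2 : dl M S ≤ ∑ k ∈ S, ∑ s ∈ S.filter (fun s => s < k), sg M (k - s) := by
    unfold dl
    exact Finset.sum_le_sum h1
  refine h2.trans (le_of_eq ?_)
  unfold prs
  rw [Finset.sum_filter, Finset.sum_product_right]
  apply Finset.sum_congr rfl
  intro k _
  rw [Finset.sum_filter]

lemma Ax_pow_le (w h n r c : ℕ) (hc : 3 ^ (3 * n * r) ≤ c) :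
    (Hh (primorial w) h ^ n * (1 + 4 * n * sg (primorial w) h)) ^ r ≤ Eh c w h := by
  obtain ⟨P, hP⟩ : ∃ P, P = h.primeFactors \ (primorial w).primeFactors := ⟨_, rfl⟩
  have hPp : ∀ p ∈ P, p.Prime := by
    intro p hp
    rw [hP, Finset.mem_sdiff] at hp
    exact Nat.prime_of_mem_primeFactors hp.1
  have hsub : P ⊆ h.primeFactors.filter (fun p => w < p) := by
    intro p hp
    rw [hP, Finset.mem_sdiff] at hp
    rw [mem_filter]
    refine ⟨hp.1, ?_⟩
    by_contra hcon
    push Not at hcon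
    apply hp.2
    have hpp := Nat.prime_of_mem_primeFactors hp.1
    rw [Nat.mem_primeFactors]
    refine ⟨hpp, ?_, primorial_ne_zero w⟩
    unfold primorial
    apply Finset.dvd_prod_of_mem
    rw [mem_filter, mem_range]
    exact ⟨by omega, hpp⟩
  have hp2 : ∀ p ∈ P, (2 : ℝ) ≤ p := fun p hp => by exact_mod_cast (hPp p hp).two_le
  have h1 : 1 + 4 * n * sg (primorial w) h ≤ ∏ p ∈ P, (1 + 2 / (p : ℝ)) ^ (2 * n) := by
    have e1 : 4 * (n : ℝ) * sg (primorial w) h = ∑ p ∈ P, 4 * n * (1 / (p : ℝ)) := by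
      unfold sg
      rw [← hP, Finset.mul_sum]
    rw [e1]
    refine (one_add_sum_le P (fun p => 4 * n * (1 / (p : ℝ))) (fun p => by positivity)).trans ?_
    apply Finset.prod_le_prod
    · intro p _
      positivity
    · intro p hp
      have h2 := one_add_mul_le_pow (show (-2 : ℝ) ≤ 2 / (p : ℝ) by
        have : (0 : ℝ) ≤ 2 / (p : ℝ) := by positivity
        linarith) (2 * n)
      refine le_trans (le_of_eq ?_) h2
      push_cast
      ring
  have h2 : Hh (primorial w) h ^ n ≤ ∏ p ∈ P, (1 + 2 / (p : ℝ)) ^ n := by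
    unfold Hh
    rw [← hP, ← Finset.prod_pow]
    apply Finset.prod_le_prod
    · intro p hp
      have := fac_ge p (hPp p hp)
      positivity
    · intro p hp
      apply pow_le_pow_left₀ _ (fac_le p (hPp p hp))
      linarith [fac_ge p (hPp p hp)]
  have hH := Hh_ge (primorial w) h
  have hs := sg_nonneg (primorial w) h
  have h3 : Hh (primorial w) h ^ n * (1 + 4 * n * sg (primorial w) h) ≤ ∏ p ∈ P, (1 + 2 / (p : ℝ)) ^ (3 * n) := by
    have h4 : ∏ p ∈ P, (1 + 2 / (p : ℝ)) ^ (3 * n) =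
        (∏ p ∈ P, (1 + 2 / (p : ℝ)) ^ n) * ∏ p ∈ P, (1 + 2 / (p : ℝ)) ^ (2 * n) := by
      rw [← Finset.prod_mul_distrib]
      apply Finset.prod_congr rfl
      intro p _
      rw [← pow_add]
      congr 1
      ring
    rw [h4]
    exact mul_le_mul h2 h1 (by positivity) (Finset.prod_nonneg fun p _ => by positivity)
  calc (Hh (primorial w) h ^ n * (1 + 4 * n * sg (primorial w) h)) ^ r ≤
      (∏ p ∈ P, (1 + 2 / (p : ℝ)) ^ (3 * n)) ^ r := pow_le_pow_left₀ (by positivity) h3 r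
    _ = ∏ p ∈ P, (1 + 2 / (p : ℝ)) ^ (3 * n * r) := by
        rw [← Finset.prod_pow]
        apply Finset.prod_congr rfl
        intro p _
        rw [← pow_mul]
    _ ≤ ∏ p ∈ P, (1 + (c : ℝ) / p) := by
        apply Finset.prod_le_prod
        · intro p _
          positivity
        · intro p hp
          have hp2' := hp2 p hp
          have hp0 : (0 : ℝ) < p := by linarith
          calc (1 + 2 / (p : ℝ)) ^ (3 * n * r) = (1 + 2 * (1 / (p : ℝ))) ^ (3 * n * r) := by rw [mul_one_div]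
            _ ≤ 1 + ((3 : ℝ) ^ (3 * n * r) - 1) * (1 / p) := by
                apply pow_lin
                · positivity
                · rw [div_le_one hp0]
                  linarith
            _ ≤ 1 + (c : ℝ) / p := by
                rw [mul_one_div]
                have h5 : (3 : ℝ) ^ (3 * n * r) - 1 ≤ c := by
                  have : (3 : ℝ) ^ (3 * n * r) ≤ c := by exact_mod_cast hc
                  linarith
                linarith [div_le_div_of_nonneg_right h5 hp0.le]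
    _ ≤ Eh c w h := by
        unfold Eh
        apply Finset.prod_le_prod_of_subset_of_one_le hsub
        · intro p _
          positivity
        · intro p _ _
          have : (0 : ℝ) ≤ c / p := by positivity
          linarith

/-- the weight and the loss of a set of points against a sum over pairs -/
lemma WD_le (w n m c : ℕ) (hc : 3 ^ (3 * n * m ^ 2) ≤ c) (S : Finset ℕ) (hS : S.card ≤ m) :
    Wv (primorial w) S ^ n * (1 + 4 * n * dl (primorial w) S) ≤ 1 + ∑ x ∈ prs S, (Eh c w (x.2 - x.1) - 1) := by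
  have h1 : Wv (primorial w) S ^ n ≤ ∏ x ∈ prs S, Hh (primorial w) (x.2 - x.1) ^ n := by
    rw [Finset.prod_pow]
    apply pow_le_pow_left₀ _ (Wv_le _ _)
    linarith [Wv_ge (primorial w) S]
  have h2 : 1 + 4 * n * dl (primorial w) S ≤ ∏ x ∈ prs S, (1 + 4 * n * sg (primorial w) (x.2 - x.1)) := by
    refine le_trans ?_ (one_add_sum_le (prs S) (fun x => 4 * n * sg (primorial w) (x.2 - x.1))
      (fun x => mul_nonneg (by positivity) (sg_nonneg _ _)))
    rw [← Finset.mul_sum]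
    have := mul_le_mul_of_nonneg_left (dl_le (primorial w) S) (show (0 : ℝ) ≤ 4 * n by positivity)
    linarith
  have hcard : (prs S).card ≤ m ^ 2 := by
    unfold prs
    refine (card_filter_le _ _).trans ?_
    rw [card_product, sq]
    exact Nat.mul_le_mul hS hS
  have hA1 : ∀ x : ℕ × ℕ, 1 ≤ Hh (primorial w) (x.2 - x.1) ^ n * (1 + 4 * n * sg (primorial w) (x.2 - x.1)) := by
    intro x
    have h3 : 1 ≤ Hh (primorial w) (x.2 - x.1) ^ n := one_le_pow₀ (Hh_ge _ _)
    have h4 : 0 ≤ 4 * n * sg (primorial w) (x.2 - x.1) := mul_nonneg (by positivity) (sg_nonneg _ _)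
    nlinarith
  have h3 := prod_le_sum (prs S) (fun x => Hh (primorial w) (x.2 - x.1) ^ n * (1 + 4 * n * sg (primorial w) (x.2 - x.1)))
    (fun x _ => hA1 x) (m ^ 2) hcard
  rw [Finset.prod_mul_distrib] at h3
  have h4 : 0 ≤ dl (primorial w) S := dl_nonneg _ _
  have h5 : Wv (primorial w) S ^ n * (1 + 4 * n * dl (primorial w) S) ≤
      (∏ x ∈ prs S, Hh (primorial w) (x.2 - x.1) ^ n) * ∏ x ∈ prs S, (1 + 4 * n * sg (primorial w) (x.2 - x.1)) :=
    mul_le_mul h1 h2 (by positivity) (Finset.prod_nonneg fun x _ => by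
      have := Hh_ge (primorial w) (x.2 - x.1)
      positivity)
  refine h5.trans (h3.trans ?_)
  apply add_le_add le_rfl
  apply sum_le_sum
  intro x _
  linarith [Ax_pow_le w (x.2 - x.1) n (m ^ 2) c hc]

/-- the average of the majorant -/
lemma Eh_avg (c w K : ℕ) (hw : 1 ≤ w) : ∑ h ∈ Icc 1 K, (Eh c w h - 1) ≤ K * (Real.exp (c / w) - 1) := by
  obtain ⟨PS, hPS⟩ : ∃ PS, PS = (pz K).filter (fun p => w < p) := ⟨_, rfl⟩
  have hPp : ∀ p ∈ PS, p.Prime := by
    intro p hp
    rw [hPS, mem_filter, mem_pz] at hp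
    exact hp.1.2
  have h1 : ∀ h ∈ Icc 1 K, Eh c w h = ∑ S ∈ PS.powerset, if (∀ p ∈ S, p ∣ h) then ∏ p ∈ S, ((c : ℝ) / p) else 0 := by
    intro h hh
    rw [mem_Icc] at hh
    unfold Eh
    have e0 : h.primeFactors.filter (fun p => w < p) = PS.filter (fun p => p ∣ h) := by
      ext p
      rw [mem_filter, Nat.mem_primeFactors, hPS, mem_filter, mem_filter, mem_pz]
      constructor
      · rintro ⟨⟨a1, a2, a3⟩, a4⟩
        exact ⟨⟨⟨(Nat.le_of_dvd (by omega) a2).trans hh.2, a1⟩, a4⟩, a2⟩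
      · rintro ⟨⟨⟨a1, a2⟩, a3⟩, a4⟩
        exact ⟨⟨a2, a4, by omega⟩, a3⟩
    have e1 : ∏ p ∈ PS.filter (fun p => p ∣ h), (1 + (c : ℝ) / p) =
        ∏ p ∈ PS, ((if p ∣ h then (c : ℝ) / (p : ℝ) else 0) + 1) := by
      rw [Finset.prod_filter]
      apply Finset.prod_congr rfl
      intro p _
      split_ifs
      · ring
      · ring
    rw [e0, e1, Finset.prod_add_one]
    apply Finset.sum_congr rfl
    intro S _
    by_cases hS : ∀ p ∈ S, p ∣ h
    · rw [if_pos hS]
      apply Finset.prod_congr rfl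
      intro p hp
      rw [if_pos (hS p hp)]
    · rw [if_neg hS]
      push Not at hS
      obtain ⟨p, hp, hpn⟩ := hS
      exact Finset.prod_eq_zero hp (if_neg hpn)
  have h2 : ∀ S ∈ PS.powerset, (((Icc 1 K).filter (fun h => ∀ p ∈ S, p ∣ h)).card : ℝ) ≤ K * ∏ p ∈ S, (1 / (p : ℝ)) := by
    intro S hS
    rw [mem_powerset] at hS
    have hcop : ∀ h, (∀ p ∈ S, p ∣ h) ↔ (∏ p ∈ S, p) ∣ h := by
      intro h
      constructor
      · intro hd
        exact Finset.prod_primes_dvd h (fun p hp => (hPp p (hS hp)).prime) hd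
      · intro hd p hp
        exact (Finset.dvd_prod_of_mem _ hp).trans hd
    have e : (Icc 1 K).filter (fun h => ∀ p ∈ S, p ∣ h) = (Ioc 0 K).filter (fun h => (∏ p ∈ S, p) ∣ h) := by
      ext h
      rw [mem_filter, mem_filter, mem_Icc, mem_Ioc, hcop h]
      constructor
      · rintro ⟨a, b⟩
        exact ⟨⟨by omega, a.2⟩, b⟩
      · rintro ⟨a, b⟩
        exact ⟨⟨by omega, a.2⟩, b⟩
    rw [e, Nat.Ioc_filter_dvd_card_eq_div]
    refine Nat.cast_div_le.trans (le_of_eq ?_)
    rw [Finset.prod_div_distrib, Finset.prod_const_one]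
    push_cast
    rw [mul_one_div]
  have h3 : ∑ h ∈ Icc 1 K, Eh c w h ≤ K * ∏ p ∈ PS, (1 + (c : ℝ) / (p : ℝ) ^ 2) := by
    rw [Finset.sum_congr rfl h1, Finset.sum_comm]
    have e : ∏ p ∈ PS, (1 + (c : ℝ) / (p : ℝ) ^ 2) = ∑ S ∈ PS.powerset, ∏ p ∈ S, ((c : ℝ) / (p : ℝ) ^ 2) := by
      rw [← Finset.prod_add_one]
      apply Finset.prod_congr rfl
      intro p _
      ring
    rw [e, Finset.mul_sum]
    apply Finset.sum_le_sum
    intro S hS
    rw [← Finset.sum_filter, Finset.sum_const, nsmul_eq_mul]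
    have hnn : 0 ≤ ∏ p ∈ S, ((c : ℝ) / p) := prod_nonneg fun p _ => by positivity
    refine (mul_le_mul_of_nonneg_right (h2 S hS) hnn).trans (le_of_eq ?_)
    rw [mul_assoc, ← Finset.prod_mul_distrib]
    congr 1
    apply Finset.prod_congr rfl
    intro p _
    rw [sq, one_div, ← div_div]
    ring
  have h4 := prod_sq_tail c w K hw
  rw [← hPS] at h4
  rw [Finset.sum_sub_distrib, Finset.sum_const, Nat.card_Icc, nsmul_eq_mul, mul_one, Nat.add_sub_cancel]
  have h5 := mul_le_mul_of_nonneg_left h4 (Nat.cast_nonneg K : (0 : ℝ) ≤ K)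
  linarith

/-- sums over pairs of a set in an interval -/
lemma prs_sum_le (K0 K : ℕ) (B : Finset ℕ) (hB : B ⊆ Ioc K0 (K0 + K)) (g : ℕ → ℝ) (hg : ∀ h, 0 ≤ g h) :
    ∑ x ∈ prs B, g (x.2 - x.1) ≤ K * ∑ h ∈ Icc 1 K, g h := by
  have h1 : ∑ x ∈ prs B, g (x.2 - x.1) ≤ ∑ x ∈ B ×ˢ Icc 1 K, g x.2 := by
    rw [← Finset.sum_image (s := prs B) (g := fun x : ℕ × ℕ => (x.1, x.2 - x.1)) (f := fun x : ℕ × ℕ => g x.2)]
    · apply Finset.sum_le_sum_of_subset_of_nonneg
      · intro x hx
        rw [mem_image] at hx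
        obtain ⟨y, hy, rfl⟩ := hx
        unfold prs at hy
        rw [mem_filter, mem_product] at hy
        have h2 := mem_Ioc.1 (hB hy.1.1)
        have h3 := mem_Ioc.1 (hB hy.1.2)
        rw [mem_product, mem_Icc]
        exact ⟨hy.1.1, by omega, by omega⟩
      · intro x _ _
        exact hg _
    · intro x hx y hy hxy
      rw [mem_coe] at hx hy
      unfold prs at hx hy
      rw [mem_filter] at hx hy
      simp only [Prod.mk.injEq] at hxy
      ext
      · exact hxy.1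
      · omega
  refine h1.trans ?_
  rw [Finset.sum_product]
  simp only
  rw [Finset.sum_const, nsmul_eq_mul]
  apply mul_le_mul_of_nonneg_right _ (sum_nonneg fun h _ => hg h)
  have := card_le_card hB
  rw [Nat.card_Ioc, Nat.add_sub_cancel_left] at this
  exact_mod_cast this

end Pool.Agent.Q236.RP
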