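import Pool.Agent.Q236.RP.Short
import Pool.Agent.Q236.RP.Box

set_option autoImplicit false

/-!
# Correlations of the prime values of a random polynomial
-/

namespace Pool.Agent.Q236.RP

open Finset Filter Polynomial

variable {d : ℕ}

/-- the values at the points of `S` are primes -/
def Pr (f : ℕ → ℤ) (S : Finset ℕ) (c : Fin d → ℤ) : Prop := ∀ k ∈ S, (ev f c k).toNat.Prime

/-- the residue class -/
def Cl (M : ℕ) (a c : Fin d → ℤ) : Prop := ∀ i, (M : ℤ) ∣ c i - a i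

open Classical in
/-- the indicator function -/
noncomputable def Fu (f : ℕ → ℤ) (M : ℕ) (a : Fin d → ℤ) (S : Finset ℕ) (c : Fin d → ℤ) : ℝ :=
  if Cl M a c ∧ Pr f S c then 1 else 0

lemma Fu_nonneg (f : ℕ → ℤ) (M : ℕ) (a : Fin d → ℤ) (S : Finset ℕ) (c : Fin d → ℤ) : 0 ≤ Fu f M a S c := by
  unfold Fu
  split_ifs <;> norm_num

lemma Fu_le_one (f : ℕ → ℤ) (M : ℕ) (a : Fin d → ℤ) (S : Finset ℕ) (c : Fin d → ℤ) : Fu f M a S c ≤ 1 := by
  unfold Fu
  split_ifs <;> norm_num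

/-- the product of the differences of `k` and the smaller elements of `S` -/
def Dk (S : Finset ℕ) (k : ℕ) : ℕ := ∏ s ∈ S.filter (fun s => s < k), (k - s)

lemma Dk_pos (S : Finset ℕ) (k : ℕ) : 0 < Dk S k := by
  unfold Dk
  apply Finset.prod_pos
  intro s hs
  rw [mem_filter] at hs
  omega

/-- `q / φ(q)` for `q = M D` -/
noncomputable def gk (M : ℕ) (S : Finset ℕ) (k : ℕ) : ℝ :=
  ((M * Dk S k : ℕ) : ℝ) / (Nat.totient (M * Dk S k) : ℝ)

lemma gk_ge (M : ℕ) (hM : 1 ≤ M) (S : Finset ℕ) (k : ℕ) : 1 ≤ gk M S k := by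
  unfold gk
  have h : 0 < M * Dk S k := Nat.mul_pos hM (Dk_pos S k)
  rw [one_le_div (by exact_mod_cast Nat.totient_pos.2 h)]
  exact_mod_cast Nat.totient_le _

/-- the weight of a set of points -/
noncomputable def wt (M : ℕ) (S : Finset ℕ) : ℝ := ∏ k ∈ S, gk M S k

lemma wt_ge (M : ℕ) (hM : 1 ≤ M) (S : Finset ℕ) : 1 ≤ wt M S := by
  unfold wt
  have h : ∀ T : Finset ℕ, 1 ≤ ∏ k ∈ T, gk M S k := by
    intro T
    induction T using Finset.induction_on with
    | empty => simp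
    | insert k T hk ih =>
      rw [prod_insert hk]
      nlinarith [gk_ge M hM S k]
  exact h S

lemma Dk_insert_lt (S : Finset ℕ) (m k : ℕ) (h : ∀ s ∈ S, s < m) (hk : k ∈ S) : Dk (insert m S) k = Dk S k := by
  unfold Dk
  congr 1
  ext s
  rw [mem_filter, mem_filter, mem_insert]
  constructor
  · rintro ⟨h1 | h1, h2⟩
    · have := h k hk
      omega
    · exact ⟨h1, h2⟩
  · rintro ⟨h1, h2⟩
    exact ⟨Or.inr h1, h2⟩

lemma Dk_insert_self (S : Finset ℕ) (m : ℕ) (h : ∀ s ∈ S, s < m) : Dk (insert m S) m = ∏ s ∈ S, (m - s) := by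
  unfold Dk
  congr 1
  ext s
  rw [mem_filter, mem_insert]
  constructor
  · rintro ⟨h1 | h1, h2⟩
    · omega
    · exact h1
  · intro h1
    exact ⟨Or.inr h1, h s h1⟩

lemma wt_insert (M : ℕ) (S : Finset ℕ) (m : ℕ) (h : ∀ s ∈ S, s < m) :
    wt M (insert m S) = gk M (insert m S) m * wt M S := by
  unfold wt
  rw [prod_insert (fun hm => absurd (h m hm) (lt_irrefl m))]
  congr 1
  apply Finset.prod_congr rfl
  intro k hk
  unfold gk
  rw [Dk_insert_lt S m k h hk]

/-- one coordinate: many elements of a residue class -/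
lemma class_one (Z a : ℤ) (Y M : ℕ) (hM : 1 ≤ M) :
    Y / M ≤ ((Ioc Z (Z + Y)).filter (fun x => (M : ℤ) ∣ x - a)).card := by
  have hM0 : (0 : ℤ) < M := by exact_mod_cast hM
  have h : ((range (Y / M)).map ⟨fun j : ℕ => Z + 1 + (a - Z - 1) % (M : ℤ) + j * M, by
      intro i j hij
      simp only at hij
      have : (i : ℤ) * M = j * M := by linarith
      have h2 := mul_right_cancel₀ hM0.ne' this
      exact_mod_cast h2⟩) ⊆ (Ioc Z (Z + Y)).filter (fun x => (M : ℤ) ∣ x - a) := by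
    intro x hx
    rw [Finset.mem_map] at hx
    obtain ⟨j, hj, rfl⟩ := hx
    rw [mem_range] at hj
    simp only [Function.Embedding.coeFn_mk]
    rw [mem_filter, mem_Ioc]
    have h1 := Int.emod_nonneg (a - Z - 1) hM0.ne'
    have h2 := Int.emod_lt_of_pos (a - Z - 1) hM0
    have h3 : (j + 1) * M ≤ Y := (Nat.mul_le_mul_right M (by omega : j + 1 ≤ Y / M)).trans (Nat.div_mul_le_self Y M)
    have h4 : ((j : ℤ) + 1) * M ≤ Y := by exact_mod_cast h3
    have h5 : (0 : ℤ) ≤ (j : ℤ) * M := by positivity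
    refine ⟨⟨by linarith, by linarith⟩, ?_⟩
    have h6 := Int.mul_ediv_add_emod (a - Z - 1) M
    refine ⟨j - (a - Z - 1) / M, ?_⟩
    linarith
  have h2 := card_le_card h
  rw [card_map, card_range] at h2
  exact h2

open Classical in
lemma sum_class_eq (Z : Fin d → ℤ) (Y : Fin d → ℕ) (f : ℕ → ℤ) (M : ℕ) (a : Fin d → ℤ) :
    ∑ c ∈ Box Z Y, Fu f M a ∅ c = ∏ i, (((Ioc (Z i) (Z i + Y i)).filter (fun x => (M : ℤ) ∣ x - a i)).card : ℝ) := by
  unfold Fu
  rw [← Finset.sum_filter, Finset.sum_const, nsmul_eq_mul, mul_one]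
  have e : (Box Z Y).filter (fun c => Cl M a c ∧ Pr f ∅ c) =
      Fintype.piFinset (fun i => (Ioc (Z i) (Z i + Y i)).filter (fun x => (M : ℤ) ∣ x - a i)) := by
    ext c
    rw [mem_filter, mem_Box, Fintype.mem_piFinset]
    unfold Cl Pr
    constructor
    · rintro ⟨h1, h2, _⟩ i
      rw [mem_filter, mem_Ioc]
      exact ⟨h1 i, h2 i⟩
    · intro h
      refine ⟨fun i => ?_, fun i => ?_, fun k hk => absurd hk (notMem_empty k)⟩
      · have := h i
        rw [mem_filter, mem_Ioc] at this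
        exact this.1
      · have := h i
        rw [mem_filter, mem_Ioc] at this
        exact this.2
  rw [e, Fintype.card_piFinset]
  push_cast
  rfl

lemma class_lower (Z : Fin d → ℤ) (Y : Fin d → ℕ) (f : ℕ → ℤ) (M : ℕ) (hM : 1 ≤ M) (a : Fin d → ℤ)
    (hY : ∀ i, 2 * M ≤ Y i) :
    ((Box Z Y).card : ℝ) ≤ (2 * M : ℝ) ^ d * ∑ c ∈ Box Z Y, Fu f M a ∅ c := by
  rw [sum_class_eq, card_Box]
  have hMr : (1 : ℝ) ≤ M := by exact_mod_cast hM
  have h1 : ∀ i, (Y i : ℝ) ≤ 2 * M * (((Ioc (Z i) (Z i + Y i)).filter (fun x => (M : ℤ) ∣ x - a i)).card : ℝ) := by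
    intro i
    have h2 := class_one (Z i) (a i) (Y i) M hM
    have h3 : Y i ≤ 2 * M * (Y i / M) := by
      have h4 := Nat.div_add_mod (Y i) M
      have h5 := Nat.mod_lt (Y i) hM
      have h6 := hY i
      have h7 : 2 * M * (Y i / M) = 2 * (M * (Y i / M)) := by ring
      omega
    calc (Y i : ℝ) ≤ ((2 * M * (Y i / M) : ℕ) : ℝ) := by exact_mod_cast h3
      _ = 2 * M * ((Y i / M : ℕ) : ℝ) := by push_cast; ring
      _ ≤ _ := by
        apply mul_le_mul_of_nonneg_left _ (by positivity)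
        exact_mod_cast h2
  have h2 : (∏ i, (Y i : ℝ)) ≤ ∏ i : Fin d, (2 * M * (((Ioc (Z i) (Z i + Y i)).filter (fun x => (M : ℤ) ∣ x - a i)).card : ℝ)) :=
    Finset.prod_le_prod (fun i _ => Nat.cast_nonneg _) (fun i _ => h1 i)
  rw [Finset.prod_mul_distrib, Finset.prod_const, Finset.card_univ, Fintype.card_fin] at h2
  push_cast
  exact h2

end Pool.Agent.Q236.RP
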