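import Pool.Agent.Q236.RP.Corr

set_option autoImplicit false

/-!
# Correlations of the prime values of a random polynomial: one more point
-/

namespace Pool.Agent.Q236.RP

open Finset Filter Polynomial

variable {d : ℕ}

lemma Cl_shift (M : ℕ) (a c : Fin d → ℤ) (S : Finset ℕ) (t : ℤ) : Cl M a (c + sv d M S t) ↔ Cl M a c := by
  unfold Cl
  apply forall_congr'
  intro i
  have e : (c + sv d (M : ℤ) S t) i - a i = (c i - a i) + M * (t * (vp S).coeff i) := by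
    rw [Pi.add_apply]
    unfold sv
    ring
  rw [e]
  exact dvd_add_left (Dvd.intro _ rfl)

lemma ev_shift_old (f : ℕ → ℤ) (M : ℕ) (c : Fin d → ℤ) (S : Finset ℕ) (hS : S.card < d) (t : ℤ) (k : ℕ) (hk : k ∈ S) :
    ev f (c + sv d M S t) k = ev f c k := by
  rw [ev_add, sv_sum (M : ℤ) S hS, Finset.prod_eq_zero hk (sub_self _), mul_zero, add_zero]

lemma ev_shift_new (f : ℕ → ℤ) (M : ℕ) (c : Fin d → ℤ) (S : Finset ℕ) (hS : S.card < d) (t k : ℕ)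
    (hk : ∀ s ∈ S, s < k) (h0 : 0 ≤ ev f c k) :
    ev f (c + sv d M S t) k = (((ev f c k).toNat + M * Dk (insert k S) k * t : ℕ) : ℤ) := by
  rw [ev_add, sv_sum (M : ℤ) S hS, Dk_insert_self S k hk]
  have e : ∏ s ∈ S, ((k : ℤ) - s) = ((∏ s ∈ S, (k - s) : ℕ) : ℤ) := by
    rw [Nat.cast_prod]
    apply Finset.prod_congr rfl
    intro s hs
    rw [Nat.cast_sub (hk s hs).le]
  rw [e]
  obtain ⟨A, hA⟩ : ∃ A : ℕ, ev f c k = A := ⟨(ev f c k).toNat, (Int.toNat_of_nonneg h0).symm⟩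
  rw [hA, Int.toNat_natCast]
  push_cast
  ring

lemma Pr_shift (f : ℕ → ℤ) (M : ℕ) (S : Finset ℕ) (k : ℕ) (c : Fin d → ℤ) (t : ℕ)
    (hk : ∀ s ∈ S, s < k) (hS : S.card < d) (h0 : 0 ≤ ev f c k) :
    Pr f (insert k S) (c + sv d M S t) ↔ Pr f S c ∧ ((ev f c k).toNat + M * Dk (insert k S) k * t).Prime := by
  unfold Pr
  constructor
  · intro h
    refine ⟨fun s hs => ?_, ?_⟩
    · have := h s (mem_insert_of_mem hs)
      rwa [ev_shift_old f M c S hS t s hs] at this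
    · have := h k (mem_insert_self k S)
      rwa [ev_shift_new f M c S hS t k hk h0, Int.toNat_natCast] at this
  · rintro ⟨h3, h4⟩ s hs
    rw [mem_insert] at hs
    rcases hs with hs | hs
    · rw [hs, ev_shift_new f M c S hS t k hk h0, Int.toNat_natCast]
      exact h4
    · rw [ev_shift_old f M c S hS t s hs]
      exact h3 s hs

lemma Fu_shift (f : ℕ → ℤ) (M : ℕ) (a : Fin d → ℤ) (S : Finset ℕ) (k : ℕ) (c : Fin d → ℤ) (t : ℕ)
    (hk : ∀ s ∈ S, s < k) (hS : S.card < d) (h0 : 0 ≤ ev f c k) :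
    Fu f M a (insert k S) (c + sv d M S t) = Fu f M a S c *
      (if ((ev f c k).toNat + M * Dk (insert k S) k * t).Prime then (1 : ℝ) else 0) := by
  unfold Fu
  have h2 : (Cl M a (c + sv d M S t) ∧ Pr f (insert k S) (c + sv d M S t)) ↔
      ((Cl M a c ∧ Pr f S c) ∧ ((ev f c k).toNat + M * Dk (insert k S) k * t).Prime) := by
    rw [Cl_shift, and_assoc, Pr_shift f M S k c t hk hS h0]
  by_cases h3 : Cl M a c ∧ Pr f S c
  · by_cases h4 : ((ev f c k).toNat + M * Dk (insert k S) k * t).Prime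
    · rw [if_pos (h2.2 ⟨h3, h4⟩), if_pos h3, if_pos h4, mul_one]
    · rw [if_neg (fun h => h4 (h2.1 h).2), if_neg h4, mul_zero]
  · rw [if_neg (fun h => h3 (h2.1 h).1), if_neg h3, zero_mul]

lemma sum_t (f : ℕ → ℤ) (M : ℕ) (a : Fin d → ℤ) (S : Finset ℕ) (k : ℕ) (c : Fin d → ℤ) (y : ℕ)
    (hk : ∀ s ∈ S, s < k) (hS : S.card < d) (h0 : 0 ≤ ev f c k) :
    ∑ t ∈ Ioc 0 y, Fu f M a (insert k S) (c + sv d M S t) = Fu f M a S c *
      (((Ioc 0 y).filter (fun t => ((ev f c k).toNat + M * Dk (insert k S) k * t).Prime)).card : ℝ) := by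
  rw [Finset.sum_congr rfl (fun t _ => Fu_shift f M a S k c t hk hS h0), ← Finset.mul_sum]
  congr 1
  rw [← Finset.sum_filter, Finset.sum_const, nsmul_eq_mul, mul_one]

/-- the indicator function with a further congruence for one of the values -/
noncomputable def Fm (f : ℕ → ℤ) (M : ℕ) (a : Fin d → ℤ) (S : Finset ℕ) (s0 p : ℕ) (b : ℤ) (c : Fin d → ℤ) : ℝ :=
  open Classical in Fu f M a S c * (if (p : ℤ) ∣ ev f c s0 - b then 1 else 0)

lemma Fm_nonneg (f : ℕ → ℤ) (M : ℕ) (a : Fin d → ℤ) (S : Finset ℕ) (s0 p : ℕ) (b : ℤ) (c : Fin d → ℤ) :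
    0 ≤ Fm f M a S s0 p b c := by
  unfold Fm
  apply mul_nonneg (Fu_nonneg _ _ _ _ _)
  split_ifs <;> norm_num

lemma Fm_le_one (f : ℕ → ℤ) (M : ℕ) (a : Fin d → ℤ) (S : Finset ℕ) (s0 p : ℕ) (b : ℤ) (c : Fin d → ℤ) :
    Fm f M a S s0 p b c ≤ 1 := by
  unfold Fm
  apply mul_le_one₀ (Fu_le_one _ _ _ _ _)
  · split_ifs <;> norm_num
  · split_ifs <;> norm_num

lemma sum_t_old (f : ℕ → ℤ) (M : ℕ) (a : Fin d → ℤ) (S : Finset ℕ) (k : ℕ) (c : Fin d → ℤ) (y s0 p : ℕ) (b : ℤ)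
    (hs0 : s0 ∈ S) (hk : ∀ s ∈ S, s < k) (hS : S.card < d) (h0 : 0 ≤ ev f c k) :
    ∑ t ∈ Ioc 0 y, Fm f M a (insert k S) s0 p b (c + sv d M S t) = Fm f M a S s0 p b c *
      (((Ioc 0 y).filter (fun t => ((ev f c k).toNat + M * Dk (insert k S) k * t).Prime)).card : ℝ) := by
  unfold Fm
  have h1 : ∀ t ∈ Ioc 0 y, Fu f M a (insert k S) (c + sv d M S (t : ℕ)) *
      (open Classical in if (p : ℤ) ∣ ev f (c + sv d M S (t : ℕ)) s0 - b then (1 : ℝ) else 0) =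
      (open Classical in if (p : ℤ) ∣ ev f c s0 - b then (1 : ℝ) else 0) *
        Fu f M a (insert k S) (c + sv d M S (t : ℕ)) := by
    intro t _
    rw [ev_shift_old f M c S hS t s0 hs0, mul_comm]
  rw [Finset.sum_congr rfl h1, ← Finset.mul_sum, sum_t f M a S k c y hk hS h0]
  ring

lemma sum_t_new (f : ℕ → ℤ) (M : ℕ) (a : Fin d → ℤ) (S : Finset ℕ) (k : ℕ) (c : Fin d → ℤ) (y p : ℕ) (b : ℤ)
    (hk : ∀ s ∈ S, s < k) (hS : S.card < d) (h0 : 0 ≤ ev f c k) :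
    ∑ t ∈ Ioc 0 y, Fm f M a (insert k S) k p b (c + sv d M S t) = Fu f M a S c *
      (((Ioc 0 y).filter (fun t => ((ev f c k).toNat + M * Dk (insert k S) k * t).Prime ∧
        (p : ℤ) ∣ (((ev f c k).toNat + M * Dk (insert k S) k * t : ℕ) : ℤ) - b)).card : ℝ) := by
  classical
  unfold Fm
  have h1 : ∀ t ∈ Ioc 0 y, Fu f M a (insert k S) (c + sv d M S (t : ℕ)) *
      (if (p : ℤ) ∣ ev f (c + sv d M S (t : ℕ)) k - b then (1 : ℝ) else 0) =
      Fu f M a S c * (if (((ev f c k).toNat + M * Dk (insert k S) k * t).Prime ∧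
        (p : ℤ) ∣ (((ev f c k).toNat + M * Dk (insert k S) k * t : ℕ) : ℤ) - b) then (1 : ℝ) else 0) := by
    intro t _
    rw [Fu_shift f M a S k c t hk hS h0, ev_shift_new f M c S hS t k hk h0, mul_assoc]
    congr 1
    by_cases h3 : ((ev f c k).toNat + M * Dk (insert k S) k * t).Prime
    · by_cases h4 : (p : ℤ) ∣ (((ev f c k).toNat + M * Dk (insert k S) k * t : ℕ) : ℤ) - b
      · rw [if_pos h3, if_pos h4, if_pos ⟨h3, h4⟩, mul_one]
      · have h5 : ¬(((ev f c k).toNat + M * Dk (insert k S) k * t).Prime ∧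
            (p : ℤ) ∣ (((ev f c k).toNat + M * Dk (insert k S) k * t : ℕ) : ℤ) - b) := fun h => h4 h.2
        rw [if_neg h4, if_neg h5, mul_zero]
    · have h5 : ¬(((ev f c k).toNat + M * Dk (insert k S) k * t).Prime ∧
          (p : ℤ) ∣ (((ev f c k).toNat + M * Dk (insert k S) k * t : ℕ) : ℤ) - b) := fun h => h3 h.1
      rw [if_neg h3, if_neg h5, zero_mul]
  rw [Finset.sum_congr rfl h1, ← Finset.mul_sum]
  congr 1
  rw [← Finset.sum_filter, Finset.sum_const, nsmul_eq_mul, mul_one]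

/-- averaging over shifts, upper bound -/
lemma up_step (Z : Fin d → ℤ) (Y : Fin d → ℕ) (hY : ∀ i, 1 ≤ Y i) (v : ℕ → Fin d → ℤ) (F G : (Fin d → ℤ) → ℝ)
    (hF0 : ∀ c, 0 ≤ F c) (hF1 : ∀ c, F c ≤ 1) (y : ℕ) (hy : 1 ≤ y) (B E : ℝ)
    (h : ∀ c ∈ Box Z Y, ∑ t ∈ Ioc 0 y, F (c + v t) ≤ G c * B)
    (hE : ∀ t ∈ Ioc 0 y, ∑ i : Fin d, |((v t i : ℤ) : ℝ)| / Y i ≤ E) :
    ∑ c ∈ Box Z Y, F c ≤ E * (Box Z Y).card + B / y * ∑ c ∈ Box Z Y, G c := by
  have hyr : (0 : ℝ) < y := by exact_mod_cast hy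
  have h1 : ∀ t ∈ Ioc 0 y, ∑ c ∈ Box Z Y, F c ≤ ∑ c ∈ Box Z Y, F (c + v t) + E * (Box Z Y).card := by
    intro t ht
    have h2 := abs_le.1 (shift_sum Z Y hY (v t) F hF0 hF1)
    have h3 := mul_le_mul_of_nonneg_right (hE t ht) (Nat.cast_nonneg (Box Z Y).card : (0 : ℝ) ≤ _)
    linarith [h2.1]
  have h2 := Finset.sum_le_sum h1
  rw [Finset.sum_const, Nat.card_Ioc, nsmul_eq_mul, Nat.sub_zero, Finset.sum_add_distrib, Finset.sum_const,
    Nat.card_Ioc, nsmul_eq_mul, Nat.sub_zero, Finset.sum_comm] at h2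
  have h3 := Finset.sum_le_sum h
  rw [← Finset.sum_mul] at h3
  have h4 : y * ∑ c ∈ Box Z Y, F c ≤ y * (E * (Box Z Y).card + B / y * ∑ c ∈ Box Z Y, G c) := by
    have e : y * (E * (Box Z Y).card + B / y * ∑ c ∈ Box Z Y, G c) =
        (∑ c ∈ Box Z Y, G c) * B + y * (E * (Box Z Y).card) := by
      field_simp
      ring
    rw [e]
    linarith
  exact le_of_mul_le_mul_left h4 hyr

/-- averaging over shifts, lower bound -/
lemma low_step (Z : Fin d → ℤ) (Y : Fin d → ℕ) (hY : ∀ i, 1 ≤ Y i) (v : ℕ → Fin d → ℤ) (F G : (Fin d → ℤ) → ℝ)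
    (hF0 : ∀ c, 0 ≤ F c) (hF1 : ∀ c, F c ≤ 1) (y : ℕ) (hy : 1 ≤ y) (B E : ℝ)
    (h : ∀ c ∈ Box Z Y, G c * B ≤ ∑ t ∈ Ioc 0 y, F (c + v t))
    (hE : ∀ t ∈ Ioc 0 y, ∑ i : Fin d, |((v t i : ℤ) : ℝ)| / Y i ≤ E) :
    B / y * ∑ c ∈ Box Z Y, G c - E * (Box Z Y).card ≤ ∑ c ∈ Box Z Y, F c := by
  have hyr : (0 : ℝ) < y := by exact_mod_cast hy
  have h1 : ∀ t ∈ Ioc 0 y, ∑ c ∈ Box Z Y, F (c + v t) ≤ ∑ c ∈ Box Z Y, F c + E * (Box Z Y).card := by
    intro t ht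
    have h2 := abs_le.1 (shift_sum Z Y hY (v t) F hF0 hF1)
    have h3 := mul_le_mul_of_nonneg_right (hE t ht) (Nat.cast_nonneg (Box Z Y).card : (0 : ℝ) ≤ _)
    linarith [h2.2]
  have h2 := Finset.sum_le_sum h1
  rw [Finset.sum_comm, Finset.sum_add_distrib, Finset.sum_const, Nat.card_Ioc, nsmul_eq_mul, Nat.sub_zero,
    Finset.sum_const, Nat.card_Ioc, nsmul_eq_mul, Nat.sub_zero] at h2
  have h3 := Finset.sum_le_sum h
  rw [← Finset.sum_mul] at h3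
  have h4 : y * (B / y * ∑ c ∈ Box Z Y, G c - E * (Box Z Y).card) ≤ y * ∑ c ∈ Box Z Y, F c := by
    have e : y * (B / y * ∑ c ∈ Box Z Y, G c - E * (Box Z Y).card) =
        (∑ c ∈ Box Z Y, G c) * B - y * (E * (Box Z Y).card) := by
      field_simp
    rw [e]
    linarith
  exact le_of_mul_le_mul_left h4 hyr

end Pool.Agent.Q236.RP
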