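import Pool.Agent.Q236.RP.Corr2

set_option autoImplicit false

/-!
# Correlations of the prime values of a random polynomial: upper bounds
-/

namespace Pool.Agent.Q236.RP

open Finset Filter Polynomial

variable {d : ℕ}

/-- the sizes of the coefficients, of the points and of the values -/
structure SZ (C X : ℕ) (f : ℕ → ℤ) (Z : Fin d → ℤ) (Y : Fin d → ℕ) (S : Finset ℕ) : Prop where
  side : ∀ i, (X : ℝ) / Real.log X ^ C ≤ Y i
  pts : ∀ k ∈ S, (k : ℝ) ≤ Real.log X ^ C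
  lo : ∀ k ∈ S, ∀ c ∈ Box Z Y, (X : ℝ) / Real.log X ^ C ≤ ev f c k
  up : ∀ k ∈ S, ∀ c ∈ Box Z Y, (ev f c k : ℝ) ≤ X * Real.log X ^ C

lemma SZ.mono {C X : ℕ} {f : ℕ → ℤ} {Z : Fin d → ℤ} {Y : Fin d → ℕ} {S T : Finset ℕ} (h : SZ C X f Z Y S)
    (hT : T ⊆ S) : SZ C X f Z Y T :=
  ⟨h.side, fun k hk => h.pts k (hT hk), fun k hk => h.lo k (hT hk), fun k hk => h.up k (hT hk)⟩

lemma shift_small (C m M X U : ℕ) (S : Finset ℕ) (Y : Fin d → ℕ) (hSm : S.card = m) (hX : (0 : ℝ) < X)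
    (hL1 : 1 ≤ Real.log X)
    (side : ∀ i, (X : ℝ) / Real.log X ^ C ≤ Y i) (pts : ∀ k ∈ S, (k : ℝ) ≤ Real.log X ^ C)
    (y : ℕ) (hy : (y : ℝ) ≤ 2 * (X / Real.log X ^ U)) (t : ℕ) (ht : t ≤ y) :
    ∑ i : Fin d, |((sv d M S (t : ℕ) i : ℤ) : ℝ)| / Y i ≤
      d * (2 * M * 2 ^ m * Real.log X ^ (C * (m + 1)) / Real.log X ^ U) := by
  obtain ⟨L, hL⟩ : ∃ L, L = Real.log (X : ℝ) := ⟨_, rfl⟩
  rw [← hL] at hL1 side pts hy ⊢
  have hL0 : 0 < L := by linarith
  obtain ⟨K, hK⟩ : ∃ K : ℕ, K = ⌊L ^ C⌋₊ := ⟨_, rfl⟩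
  have hKL : (K : ℝ) ≤ L ^ C := by rw [hK]; exact Nat.floor_le (by positivity)
  have hSK : ∀ s ∈ S, s ≤ K := by
    intro s hs
    rw [hK]
    exact Nat.le_floor (pts s hs)
  have hterm : ∀ i : Fin d, |((sv d M S (t : ℕ) i : ℤ) : ℝ)| / Y i ≤ 2 * M * 2 ^ m * L ^ (C * (m + 1)) / L ^ U := by
    intro i
    have h1 := vp_coeff_le K S hSK i
    rw [hSm] at h1
    have h2 : |(((vp S).coeff i : ℤ) : ℝ)| ≤ ((K : ℝ) + 1) ^ m := by exact_mod_cast h1
    have h3 : ((K : ℝ) + 1) ^ m ≤ (2 * L ^ C) ^ m := by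
      apply pow_le_pow_left₀ (by positivity)
      have : 1 ≤ L ^ C := one_le_pow₀ hL1
      linarith
    have h4 : |((sv d M S (t : ℕ) i : ℤ) : ℝ)| ≤ 2 * (X / L ^ U) * M * (2 * L ^ C) ^ m := by
      unfold sv
      push_cast
      rw [abs_mul, abs_mul, abs_of_nonneg (Nat.cast_nonneg t), abs_of_nonneg (Nat.cast_nonneg M)]
      apply mul_le_mul _ (h2.trans h3) (abs_nonneg _) (by positivity)
      apply mul_le_mul_of_nonneg_right _ (Nat.cast_nonneg M)
      exact le_trans (by exact_mod_cast ht) hy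
    have hYi : 0 < (X : ℝ) / L ^ C := by positivity
    calc |((sv d M S (t : ℕ) i : ℤ) : ℝ)| / Y i ≤ 2 * (X / L ^ U) * M * (2 * L ^ C) ^ m / (X / L ^ C) := by
          apply div_le_div₀ (by positivity) h4 hYi (side i)
      _ = 2 * M * 2 ^ m * (L ^ C) ^ (m + 1) / L ^ U := by
          rw [mul_pow, pow_succ (L ^ C) m]
          field_simp
      _ = _ := by rw [← pow_mul]
  refine (sum_le_sum fun i _ => hterm i).trans ?_
  rw [Finset.sum_const, Finset.card_univ, Fintype.card_fin, nsmul_eq_mul]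

/-- the choice of the range of the shifts, and all the size conditions -/
theorem step_data (C M : ℕ) (hM : 1 ≤ M) (m : ℕ) (e : ℝ) (he0 : 0 < e) : ∀ᶠ X : ℕ in atTop,
    ∀ (f : ℕ → ℤ) (Z : Fin d → ℤ) (Y : Fin d → ℕ) (S : Finset ℕ) (k : ℕ) (a : Fin d → ℤ), (∀ s ∈ S, s < k) →
    S.card = m → SZ C X f Z Y (insert k S) → ∃ (y : ℕ) (E : ℝ), 1 ≤ y ∧
      X / Real.log X ^ (C * (m + 2) + m + 2) ≤ y ∧ y ≤ X ∧ (∀ i, 1 ≤ Y i) ∧
      (∀ t ∈ Ioc 0 y, ∑ i : Fin d, |((sv d M S (t : ℕ) i : ℤ) : ℝ)| / Y i ≤ E) ∧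
      E * (Box Z Y).card ≤ e / Real.log X ^ C * (1 / Real.log X * (1 / Real.log X ^ m *
        ∑ c ∈ Box Z Y, Fu f M a ∅ c)) ∧
      (∀ c ∈ Box Z Y, ∀ s ∈ insert k S, (k : ℤ) < ev f c s) ∧
      ((M * Dk (insert k S) k : ℕ) : ℝ) ≤ Real.log X ^ (C * m + C + 1) ∧
      (∀ c ∈ Box Z Y, X / Real.log X ^ (C * (m + 2) + m + 2) ≤ (((ev f c k).toNat : ℕ) : ℝ)) ∧
      (∀ c ∈ Box Z Y, (((ev f c k).toNat : ℕ) : ℝ) ≤ X * Real.log X ^ C) := by
  obtain ⟨U, hU⟩ : ∃ U : ℕ, U = C * (m + 2) + m + 2 := ⟨_, rfl⟩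
  have hCU : C ≤ U := by rw [hU]; nlinarith
  rw [← hU]
  filter_upwards [ev_log_ge (2 * M), ev_log_ge 2, ev_log_ge (2 * d * M * 2 ^ m * (2 * M) ^ d / e), ev_pow_log U,
    ev_pow_log (C + 1), ev_pow_log (2 * C + 1)] with X hX3 hX4 hX5 hX6 hX7 hX8 f Z Y S k a hlt hSm hsz
  obtain ⟨L, hL⟩ : ∃ L, L = Real.log (X : ℝ) := ⟨_, rfl⟩
  have hL1 : 1 ≤ L := by rw [hL]; linarith
  have hL0 : 0 < L := by linarith
  have hXp : (0 : ℝ) < X := by
    have : (0 : ℝ) < L ^ U := by positivity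
    rw [← hL] at hX6
    linarith
  rw [← hL] at hX3 hX4 hX5 hX6 hX7 hX8 ⊢
  have hside : ∀ i, (X : ℝ) / L ^ C ≤ Y i := by rw [hL]; exact hsz.side
  have hXLC : L ≤ (X : ℝ) / L ^ C := by
    rw [le_div_iff₀ (by positivity)]
    calc L * L ^ C = L ^ (C + 1) := by ring
      _ ≤ X := hX7
  have hY2M : ∀ i, 2 * M ≤ Y i := by
    intro i
    have : (2 * M : ℝ) ≤ Y i := hX3.trans (hXLC.trans (hside i))
    exact_mod_cast this
  have hY1 : ∀ i, 1 ≤ Y i := fun i => le_trans (by omega) (hY2M i)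
  obtain ⟨y, hy⟩ : ∃ y : ℕ, y = ⌈(X : ℝ) / L ^ U⌉₊ := ⟨_, rfl⟩
  have hXU : 1 ≤ (X : ℝ) / L ^ U := by
    rw [le_div_iff₀ (by positivity), one_mul]
    exact hX6
  have hyl : (X : ℝ) / L ^ U ≤ y := by rw [hy]; exact Nat.le_ceil _
  have hyu : (y : ℝ) ≤ 2 * (X / L ^ U) := by
    have : (y : ℝ) < X / L ^ U + 1 := by rw [hy]; exact Nat.ceil_lt_add_one (by positivity)
    linarith
  have hy1 : 1 ≤ y := by
    have : (1 : ℝ) ≤ y := hXU.trans hyl
    exact_mod_cast this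
  have hyX : y ≤ X := by
    have : (y : ℝ) ≤ X := by
      refine hyu.trans ?_
      rw [← mul_div_assoc, div_le_iff₀ (by positivity), mul_comm]
      apply mul_le_mul_of_nonneg_left _ hXp.le
      calc (2 : ℝ) ≤ L := hX4
        _ = L ^ 1 := (pow_one L).symm
        _ ≤ L ^ U := pow_le_pow_right₀ hL1 (by rw [hU]; omega)
    exact_mod_cast this
  have hkS : k ∈ insert k S := mem_insert_self k S
  have hvalpos : ∀ c ∈ Box Z Y, ∀ s ∈ insert k S, (k : ℤ) < ev f c s := by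
    intro c hc s hs
    have h1 := hsz.lo s hs c hc
    have h2 := hsz.pts k hkS
    rw [← hL] at h1 h2
    have h3 : (k : ℝ) < (ev f c s : ℝ) := by
      refine lt_of_le_of_lt h2 (lt_of_lt_of_le ?_ h1)
      rw [lt_div_iff₀ (by positivity)]
      calc L ^ C * L ^ C = L ^ (2 * C) := by ring
        _ < L ^ (2 * C + 1) := pow_lt_pow_right₀ (by linarith) (by omega)
        _ ≤ X := hX8
    exact_mod_cast h3
  have h0 : ∀ c ∈ Box Z Y, 0 ≤ ev f c k := by
    intro c hc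
    have h1 := hvalpos c hc k hkS
    have h2 : (0 : ℤ) ≤ k := Int.natCast_nonneg k
    linarith
  have hnat : ∀ c ∈ Box Z Y, (((ev f c k).toNat : ℕ) : ℝ) = (ev f c k : ℝ) := by
    intro c hc
    have := Int.toNat_of_nonneg (h0 c hc)
    exact_mod_cast this
  refine ⟨y, d * (2 * M * 2 ^ m * L ^ (C * (m + 1)) / L ^ U), hy1, hyl, hyX, hY1, ?_, ?_, hvalpos, ?_, ?_, ?_⟩
  · intro t ht
    rw [mem_Ioc] at ht
    have hsz' := hsz.mono (subset_insert k S)
    have h1 := shift_small C m M X U S Y hSm hXp (by rw [← hL]; exact hL1) hsz'.side hsz'.pts y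
      (by rw [← hL]; exact hyu) t ht.2
    rw [← hL] at h1
    exact h1
  · obtain ⟨N, hN⟩ : ∃ N, N = ∑ c ∈ Box Z Y, Fu f M a ∅ c := ⟨_, rfl⟩
    have hN0 : 0 ≤ N := by rw [hN]; exact sum_nonneg fun c _ => Fu_nonneg _ _ _ _ _
    have hlow := class_lower Z Y f M hM a hY2M
    rw [← hN] at hlow ⊢
    have h1 : (d : ℝ) * (2 * M * 2 ^ m * L ^ (C * (m + 1)) / L ^ U) = 2 * d * M * 2 ^ m / (L ^ C * L ^ (m + 2)) := by
      rw [hU, show C * (m + 2) + m + 2 = C * (m + 1) + (C + (m + 2)) by ring, pow_add, pow_add L C]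
      field_simp
    rw [h1]
    have h2 : 2 * d * M * 2 ^ m * (2 * M) ^ d ≤ e * L := by
      have := hX5
      rw [div_le_iff₀ he0] at this
      linarith
    calc 2 * d * M * 2 ^ m / (L ^ C * L ^ (m + 2)) * ((Box Z Y).card : ℝ) ≤
        2 * d * M * 2 ^ m / (L ^ C * L ^ (m + 2)) * ((2 * M : ℝ) ^ d * N) :=
          mul_le_mul_of_nonneg_left hlow (by positivity)
      _ = 2 * d * M * 2 ^ m * (2 * M) ^ d * (1 / (L ^ C * L ^ (m + 2)) * N) := by ring
      _ ≤ e * L * (1 / (L ^ C * L ^ (m + 2)) * N) := mul_le_mul_of_nonneg_right h2 (by positivity)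
      _ = e / L ^ C * (1 / L * (1 / L ^ m * N)) := by
          rw [pow_add]
          field_simp
  · rw [Dk_insert_self S k hlt]
    push_cast
    have h1 : (∏ s ∈ S, ((k - s : ℕ) : ℝ)) ≤ (L ^ C) ^ m := by
      rw [← hSm, ← Finset.prod_const]
      apply Finset.prod_le_prod
      · intro s _
        exact Nat.cast_nonneg _
      · intro s _
        have h2 := hsz.pts k hkS
        rw [← hL] at h2
        refine le_trans ?_ h2
        exact_mod_cast Nat.sub_le k s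
    calc (M : ℝ) * ∏ s ∈ S, ((k - s : ℕ) : ℝ) ≤ L * (L ^ C) ^ m := by
          apply mul_le_mul _ h1 (Finset.prod_nonneg fun _ _ => Nat.cast_nonneg _) hL0.le
          have : (0 : ℝ) ≤ M := Nat.cast_nonneg M
          linarith
      _ = L ^ (C * m + 1) := by rw [← pow_mul]; ring
      _ ≤ L ^ (C * m + C + 1) := pow_le_pow_right₀ hL1 (by omega)
  · intro c hc
    have h2 := hsz.lo k hkS c hc
    rw [← hL] at h2
    rw [hnat c hc]
    refine le_trans ?_ h2
    exact div_le_div_of_nonneg_left hXp.le (by positivity) (pow_le_pow_right₀ hL1 hCU)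
  · intro c hc
    have h2 := hsz.up k hkS c hc
    rw [← hL] at h2
    rw [hnat c hc]
    exact h2

/-- split off the largest point -/
lemma split_max (S : Finset ℕ) (m : ℕ) (hS : S.card = m + 1) : ∃ (k : ℕ) (S' : Finset ℕ), S = insert k S' ∧
    (∀ s ∈ S', s < k) ∧ S'.card = m := by
  have hne : S.Nonempty := by
    rw [← card_pos, hS]
    omega
  have hkS : S.max' hne ∈ S := S.max'_mem hne
  refine ⟨S.max' hne, S.erase (S.max' hne), (insert_erase hkS).symm, ?_, ?_⟩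
  · intro s hs
    rw [mem_erase] at hs
    exact lt_of_le_of_ne (S.le_max' s hs.2) hs.1
  · rw [card_erase_of_mem hkS, hS]
    omega

/-- **Upper bounds for the correlations** -/
theorem corrU (C M : ℕ) (hM : 1 ≤ M) (m : ℕ) : m ≤ d → ∀ η : ℝ, 0 < η → ∀ᶠ X : ℕ in atTop,
    ∀ (f : ℕ → ℤ) (Z : Fin d → ℤ) (Y : Fin d → ℕ) (S : Finset ℕ) (a : Fin d → ℤ), SZ C X f Z Y S → S.card = m →
    ∑ c ∈ Box Z Y, Fu f M a S c ≤ (1 + η) * (wt M S / Real.log X ^ m * ∑ c ∈ Box Z Y, Fu f M a ∅ c) := by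
  induction m with
  | zero =>
    intro _ η hη
    filter_upwards with X f Z Y S a _ hS
    rw [card_eq_zero] at hS
    rw [hS, pow_zero]
    unfold wt
    rw [prod_empty, div_one, one_mul]
    have : 0 ≤ ∑ c ∈ Box Z Y, Fu f M a ∅ c := sum_nonneg fun c _ => Fu_nonneg _ _ _ _ _
    nlinarith
  | succ m ih =>
    intro hmd η hη
    obtain ⟨e, he⟩ : ∃ e : ℝ, e = min η 1 / 4 := ⟨_, rfl⟩
    have he0 : 0 < e := by rw [he]; positivity
    have heη : 4 * e ≤ η := by rw [he]; linarith [min_le_left η 1]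
    have he1 : e ≤ 1 := by rw [he]; linarith [min_le_right η 1]
    filter_upwards [ih (by omega) e he0, ap_upper (C * m + C + 1) (C * (m + 2) + m + 2) C e he0,
      step_data (d := d) C M hM m e he0, ev_log_ge 1] with X hX1 hX2 hX3 hL1 f Z Y S a hsz hcard
    obtain ⟨k, S', rfl, hlt, hS'card⟩ := split_max S m hcard
    obtain ⟨y, E, hy1, hyl, hyX, hY1, hE, hEb, hval, hq, hlo, hup⟩ := hX3 f Z Y S' k a hlt hS'card hsz
    have hIH := hX1 f Z Y S' a (hsz.mono (subset_insert k S')) hS'card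
    have hL0 : 0 < Real.log (X : ℝ) := by linarith
    have h0 : ∀ c ∈ Box Z Y, 0 ≤ ev f c k := by
      intro c hc
      have h1 := hval c hc k (mem_insert_self k S')
      have h2 : (0 : ℤ) ≤ k := Int.natCast_nonneg k
      linarith
    obtain ⟨L, hL⟩ : ∃ L, L = Real.log (X : ℝ) := ⟨_, rfl⟩
    obtain ⟨g, hg⟩ : ∃ g, g = gk M (insert k S') k := ⟨_, rfl⟩
    have hg1 : 1 ≤ g := by rw [hg]; exact gk_ge M hM _ k
    have hstep := up_step Z Y hY1 (fun t => sv d M S' (t : ℕ)) (Fu f M a (insert k S')) (Fu f M a S')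
      (Fu_nonneg _ _ _ _) (Fu_le_one _ _ _ _) y hy1 ((1 + e) * (g * (y / L))) E (by
        intro c hc
        rw [sum_t f M a S' k c y hlt (by omega) (h0 c hc)]
        apply mul_le_mul_of_nonneg_left _ (Fu_nonneg _ _ _ _ _)
        have h1 := hX2 (M * Dk (insert k S') k) (ev f c k).toNat (Nat.mul_pos hM (Dk_pos _ _)) hq y (hlo c hc)
          (hup c hc) hyl hyX
        rw [hg, hL]
        exact h1) hE
    rw [← hL] at hEb hIH hL0 hL1 ⊢
    obtain ⟨N, hN⟩ : ∃ N, N = ∑ c ∈ Box Z Y, Fu f M a ∅ c := ⟨_, rfl⟩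
    have hN0 : 0 ≤ N := by rw [hN]; exact sum_nonneg fun c _ => Fu_nonneg _ _ _ _ _
    rw [← hN] at hEb hIH ⊢
    rw [wt_insert M S' k hlt, ← hg]
    obtain ⟨W, hW⟩ : ∃ W, W = wt M S' / L ^ m := ⟨_, rfl⟩
    have hWl : 1 / L ^ m ≤ W := by
      rw [hW]
      exact div_le_div_of_nonneg_right (wt_ge M hM S') (by positivity)
    have hW0 : 0 < W := lt_of_lt_of_le (by positivity) hWl
    rw [← hW] at hIH
    have e1 : g * wt M S' / L ^ (m + 1) * N = g / L * (W * N) := by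
      rw [hW, pow_succ]
      field_simp
    rw [e1]
    have hy0 : (0 : ℝ) < y := by exact_mod_cast hy1
    have e2 : (1 + e) * (g * (y / L)) / y = (1 + e) * (g / L) := by field_simp
    rw [e2] at hstep
    have hEb2 : E * (Box Z Y).card ≤ e * (g / L * (W * N)) := by
      refine hEb.trans ?_
      have h1 : e / L ^ C ≤ e := div_le_self he0.le (one_le_pow₀ hL1)
      apply mul_le_mul h1 _ (by positivity) he0.le
      apply mul_le_mul
      · exact div_le_div_of_nonneg_right hg1 hL0.le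
      · exact mul_le_mul_of_nonneg_right hWl hN0
      · positivity
      · positivity
    obtain ⟨P, hP⟩ : ∃ P, P = g / L * (W * N) := ⟨_, rfl⟩
    have hP0 : 0 ≤ P := by rw [hP]; positivity
    rw [← hP] at hEb2 ⊢
    have h2 : (1 + e) * (g / L) * ∑ c ∈ Box Z Y, Fu f M a S' c ≤ (1 + e) * (1 + e) * P := by
      calc (1 + e) * (g / L) * ∑ c ∈ Box Z Y, Fu f M a S' c ≤ (1 + e) * (g / L) * ((1 + e) * (W * N)) :=
            mul_le_mul_of_nonneg_left hIH (by positivity)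
        _ = _ := by rw [hP]; ring
    refine hstep.trans ?_
    have h3 : e + (1 + e) * (1 + e) ≤ 1 + η := by nlinarith
    have h4 := mul_le_mul_of_nonneg_right h3 hP0
    linarith

/-- **Upper bounds for the correlations with a further congruence** -/
theorem corrM (C M : ℕ) (hM : 1 ≤ M) (m : ℕ) : m ≤ d → ∀ η : ℝ, 0 < η → ∀ᶠ X : ℕ in atTop,
    ∀ (f : ℕ → ℤ) (Z : Fin d → ℤ) (Y : Fin d → ℕ) (S : Finset ℕ) (a : Fin d → ℤ), SZ C X f Z Y S → S.card = m →
    ∀ (s0 p : ℕ) (b : ℤ), s0 ∈ S → p.Prime → ¬p ∣ M → (p : ℝ) ≤ Real.log X ^ C →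
    (∀ s ∈ S, s < s0 → ¬p ∣ s0 - s) →
    ∑ c ∈ Box Z Y, Fm f M a S s0 p b c ≤
      (1 + η) * (2 / p) * (wt M S / Real.log X ^ m * ∑ c ∈ Box Z Y, Fu f M a ∅ c) := by
  induction m with
  | zero =>
    intro _ η hη
    filter_upwards with X f Z Y S a _ hS s0 p b hs0
    rw [card_eq_zero] at hS
    rw [hS] at hs0
    exact absurd hs0 (notMem_empty _)
  | succ m ih =>
    intro hmd η hη
    obtain ⟨e, he⟩ : ∃ e : ℝ, e = min η 1 / 4 := ⟨_, rfl⟩
    have he0 : 0 < e := by rw [he]; positivity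
    have heη : 4 * e ≤ η := by rw [he]; linarith [min_le_left η 1]
    have he1 : e ≤ 1 := by rw [he]; linarith [min_le_right η 1]
    filter_upwards [ih (by omega) e he0, corrU (d := d) C M hM m (by omega) e he0,
      ap_upper (C * m + C + 1) (C * (m + 2) + m + 2) C e he0,
      ap_upper_marked (C * m + C + 1) (C * (m + 2) + m + 2) C e he0,
      step_data (d := d) C M hM m e he0, ev_log_ge 1] with X hX1 hXU hX2 hX2' hX3 hL1 f Z Y S a hsz hcard s0 p b hs0 hp
        hpM hpL hcond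
    obtain ⟨k, S', rfl, hlt, hS'card⟩ := split_max S m hcard
    obtain ⟨y, E, hy1, hyl, hyX, hY1, hE, hEb, hval, hq, hlo, hup⟩ := hX3 f Z Y S' k a hlt hS'card hsz
    have hL0 : 0 < Real.log (X : ℝ) := by linarith
    have h0 : ∀ c ∈ Box Z Y, 0 ≤ ev f c k := by
      intro c hc
      have h1 := hval c hc k (mem_insert_self k S')
      have h2 : (0 : ℤ) ≤ k := Int.natCast_nonneg k
      linarith
    have hp2 : (2 : ℝ) ≤ p := by exact_mod_cast hp.two_le
    have hp0 : (0 : ℝ) < p := by linarith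
    obtain ⟨L, hL⟩ : ∃ L, L = Real.log (X : ℝ) := ⟨_, rfl⟩
    obtain ⟨g, hg⟩ : ∃ g, g = gk M (insert k S') k := ⟨_, rfl⟩
    have hg1 : 1 ≤ g := by rw [hg]; exact gk_ge M hM _ k
    obtain ⟨N, hN⟩ : ∃ N, N = ∑ c ∈ Box Z Y, Fu f M a ∅ c := ⟨_, rfl⟩
    have hN0 : 0 ≤ N := by rw [hN]; exact sum_nonneg fun c _ => Fu_nonneg _ _ _ _ _
    have hy0 : (0 : ℝ) < y := by exact_mod_cast hy1
    obtain ⟨W, hW⟩ : ∃ W, W = wt M S' / L ^ m := ⟨_, rfl⟩
    have hL0' : 0 < L := by rw [hL]; exact hL0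
    have hWl : 1 / L ^ m ≤ W := by
      rw [hW]
      exact div_le_div_of_nonneg_right (wt_ge M hM S') (by positivity)
    have hW0 : 0 < W := lt_of_lt_of_le (by positivity) hWl
    have e1 : g * wt M S' / L ^ (m + 1) * N = g / L * (W * N) := by
      rw [hW, pow_succ]
      field_simp
    obtain ⟨P, hP⟩ : ∃ P, P = g / L * (W * N) := ⟨_, rfl⟩
    have hP0 : 0 ≤ P := by rw [hP]; positivity
    have hEb2 : E * (Box Z Y).card ≤ e * (2 / p) * P := by
      rw [← hL, ← hN] at hEb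
      rw [← hL] at hpL
      refine hEb.trans ?_
      have h1 : e / L ^ C ≤ e * (2 / p) := by
        rw [div_eq_mul_one_div]
        apply mul_le_mul_of_nonneg_left _ he0.le
        calc 1 / L ^ C ≤ 1 / (p : ℝ) := one_div_le_one_div_of_le hp0 hpL
          _ ≤ 2 / p := div_le_div_of_nonneg_right (by norm_num) hp0.le
      apply mul_le_mul h1 _ (by positivity) (by positivity)
      rw [hP]
      apply mul_le_mul
      · exact div_le_div_of_nonneg_right hg1 hL0'.le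
      · exact mul_le_mul_of_nonneg_right hWl hN0
      · positivity
      · positivity
    have h3 : e + (1 + e) * (1 + e) ≤ 1 + η := by nlinarith
    have hpP : 0 ≤ (2 / (p : ℝ)) * P := by positivity
    have h4 := mul_le_mul_of_nonneg_right h3 hpP
    rw [wt_insert M S' k hlt, ← hg, ← hL, ← hN, e1, ← hP]
    by_cases hk : s0 = k
    · rw [hk]
      have hIH := hXU f Z Y S' a (hsz.mono (subset_insert k S')) hS'card
      rw [← hL, ← hN, ← hW] at hIH
      have hpq : ¬p ∣ M * Dk (insert k S') k := by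
        intro h
        rcases (hp.dvd_mul).1 h with h1 | h1
        · exact hpM h1
        · rw [Dk_insert_self S' k hlt] at h1
          obtain ⟨s, hs, h2⟩ := (hp.prime.dvd_finset_prod_iff _).1 h1
          rw [hk] at hcond
          exact hcond s (mem_insert_of_mem hs) (hlt s hs) h2
      have hstep := up_step Z Y hY1 (fun t => sv d M S' (t : ℕ)) (Fm f M a (insert k S') k p b) (Fu f M a S')
        (Fm_nonneg _ _ _ _ _ _ _) (Fm_le_one _ _ _ _ _ _ _) y hy1 ((1 + e) * (g * (2 / p) * (y / L))) E (by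
          intro c hc
          rw [sum_t_new f M a S' k c y p b hlt (by omega) (h0 c hc)]
          apply mul_le_mul_of_nonneg_left _ (Fu_nonneg _ _ _ _ _)
          have h1 := hX2' (M * Dk (insert k S') k) (ev f c k).toNat p (Nat.mul_pos hM (Dk_pos _ _)) hq hp
            (hpL.trans (pow_le_pow_right₀ hL1 (by omega))) hpq b y (hlo c hc) (hup c hc) hyl hyX
          rw [hg, hL]
          exact h1) hE
      have e2 : (1 + e) * (g * (2 / p) * (y / L)) / y = (1 + e) * (g * (2 / p) / L) := by field_simp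
      rw [e2] at hstep
      have h2 : (1 + e) * (g * (2 / p) / L) * ∑ c ∈ Box Z Y, Fu f M a S' c ≤ (1 + e) * (1 + e) * ((2 / p) * P) := by
        calc (1 + e) * (g * (2 / p) / L) * ∑ c ∈ Box Z Y, Fu f M a S' c ≤
            (1 + e) * (g * (2 / p) / L) * ((1 + e) * (W * N)) := mul_le_mul_of_nonneg_left hIH (by positivity)
          _ = _ := by rw [hP]; ring
      refine hstep.trans ?_
      linarith
    · have hs0S : s0 ∈ S' := by
        rw [mem_insert] at hs0
        rcases hs0 with h | h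
        · exact absurd h hk
        · exact h
      have hIH := hX1 f Z Y S' a (hsz.mono (subset_insert k S')) hS'card s0 p b hs0S hp hpM hpL
        (fun s hs h => hcond s (mem_insert_of_mem hs) h)
      rw [← hL, ← hN, ← hW] at hIH
      have hstep := up_step Z Y hY1 (fun t => sv d M S' (t : ℕ)) (Fm f M a (insert k S') s0 p b) (Fm f M a S' s0 p b)
        (Fm_nonneg _ _ _ _ _ _ _) (Fm_le_one _ _ _ _ _ _ _) y hy1 ((1 + e) * (g * (y / L))) E (by
          intro c hc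
          rw [sum_t_old f M a S' k c y s0 p b hs0S hlt (by omega) (h0 c hc)]
          apply mul_le_mul_of_nonneg_left _ (Fm_nonneg _ _ _ _ _ _ _ _)
          have h1 := hX2 (M * Dk (insert k S') k) (ev f c k).toNat (Nat.mul_pos hM (Dk_pos _ _)) hq y (hlo c hc)
            (hup c hc) hyl hyX
          rw [hg, hL]
          exact h1) hE
      have e2 : (1 + e) * (g * (y / L)) / y = (1 + e) * (g / L) := by field_simp
      rw [e2] at hstep
      have h2 : (1 + e) * (g / L) * ∑ c ∈ Box Z Y, Fm f M a S' s0 p b c ≤ (1 + e) * (1 + e) * ((2 / p) * P) := by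
        calc (1 + e) * (g / L) * ∑ c ∈ Box Z Y, Fm f M a S' s0 p b c ≤
            (1 + e) * (g / L) * ((1 + e) * (2 / p) * (W * N)) := mul_le_mul_of_nonneg_left hIH (by positivity)
          _ = _ := by rw [hP]; ring
      refine hstep.trans ?_
      linarith

end Pool.Agent.Q236.RP
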