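import Pool.Agent.Q236.RP.Corr3

set_option autoImplicit false

/-!
# Correlations of the prime values of a random polynomial plus an arbitrary function: lower bounds
-/

namespace Pool.Agent.Q236.RP

open Finset Filter Polynomial

variable {d : ℕ}

/-- the sum of `1 / p` over the primes `p` dividing `D` and not `M` -/
noncomputable def sg (M D : ℕ) : ℝ := ∑ p ∈ D.primeFactors \ M.primeFactors, 1 / (p : ℝ)

lemma sg_nonneg (M D : ℕ) : 0 ≤ sg M D := sum_nonneg fun p _ => by positivity

/-- the loss in the lower bound -/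
noncomputable def dl (M : ℕ) (S : Finset ℕ) : ℝ := ∑ k ∈ S, sg M (Dk S k)

lemma dl_nonneg (M : ℕ) (S : Finset ℕ) : 0 ≤ dl M S := sum_nonneg fun k _ => sg_nonneg _ _

lemma dl_insert (M : ℕ) (S : Finset ℕ) (m : ℕ) (h : ∀ s ∈ S, s < m) :
    dl M (insert m S) = sg M (Dk (insert m S) m) + dl M S := by
  unfold dl
  rw [sum_insert (fun hm => absurd (h m hm) (lt_irrefl m))]
  congr 1
  apply Finset.sum_congr rfl
  intro k hk
  rw [Dk_insert_lt S m k h hk]

open Classical in
/-- the smallest point congruent to `k` modulo `p` -/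
noncomputable def sp (S : Finset ℕ) (k p : ℕ) : ℕ :=
  if h : (S.filter (fun s => p ∣ k - s)).Nonempty then (S.filter (fun s => p ∣ k - s)).min' h else 0

lemma sp_spec (S : Finset ℕ) (k p : ℕ) (hk : ∀ s ∈ S, s < k) (hex : ∃ s ∈ S, p ∣ k - s) :
    sp S k p ∈ S ∧ p ∣ k - sp S k p ∧ ∀ s ∈ S, s < sp S k p → ¬p ∣ sp S k p - s := by
  classical
  have hne : (S.filter (fun s => p ∣ k - s)).Nonempty := by
    obtain ⟨s, hs, h⟩ := hex
    exact ⟨s, mem_filter.2 ⟨hs, h⟩⟩
  have e : sp S k p = (S.filter (fun s => p ∣ k - s)).min' hne := by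
    unfold sp
    rw [dif_pos hne]
  have hmem := (S.filter (fun s => p ∣ k - s)).min'_mem hne
  rw [← e, mem_filter] at hmem
  refine ⟨hmem.1, hmem.2, ?_⟩
  intro s hs hlt hdvd
  have h1 : p ∣ k - s := by
    have h2 := hk (sp S k p) hmem.1
    have e2 : k - s = (k - sp S k p) + (sp S k p - s) := by omega
    rw [e2]
    exact dvd_add hmem.2 hdvd
  have h3 := (S.filter (fun s => p ∣ k - s)).min'_le s (mem_filter.2 ⟨hs, h1⟩)
  rw [← e] at h3
  omega

open Classical in
/-- if the new value is not prime to the modulus then one of the old values is in a prescribed class -/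
lemma bad_le (f : ℕ → ℤ) (M : ℕ) (a : Fin d → ℤ) (S : Finset ℕ) (k : ℕ) (c : Fin d → ℤ)
    (hk : ∀ s ∈ S, s < k) (hM : IsCoprime (ev f a k) (M : ℤ)) :
    Fu f M a S c ≤ Fu f M a S c * (if IsCoprime (ev f c k) ((M * Dk (insert k S) k : ℕ) : ℤ) then 1 else 0) +
      ∑ p ∈ (Dk (insert k S) k).primeFactors \ M.primeFactors,
        Fm f M a S (sp S k p) p (f (sp S k p) - f k) c := by
  have hnn : 0 ≤ ∑ p ∈ (Dk (insert k S) k).primeFactors \ M.primeFactors,
        Fm f M a S (sp S k p) p (f (sp S k p) - f k) c := sum_nonneg fun p _ => Fm_nonneg _ _ _ _ _ _ _ _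
  by_cases hχ : IsCoprime (ev f c k) ((M * Dk (insert k S) k : ℕ) : ℤ)
  · rw [if_pos hχ, mul_one]
    linarith
  · rw [if_neg hχ, mul_zero, zero_add]
    by_cases hF : Cl M a c ∧ Pr f S c
    · -- a common prime factor
      have hcopM : IsCoprime (ev f c k) (M : ℤ) := by
        obtain ⟨z, hz⟩ := ev_cl f M c a hF.1 k
        have e : ev f c k = ev f a k + M * z := by linarith
        rw [e]
        exact IsCoprime.add_mul_left_left hM z
      have hD : ¬IsCoprime (ev f c k) ((Dk (insert k S) k : ℕ) : ℤ) := by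
        intro h
        apply hχ
        push_cast
        exact IsCoprime.mul_right hcopM h
      rw [Int.isCoprime_iff_gcd_eq_one] at hD
      obtain ⟨p, hp, hpg⟩ := Nat.exists_prime_and_dvd hD
      have hp1 : (p : ℤ) ∣ ev f c k := (Int.natCast_dvd_natCast.2 hpg).trans (Int.gcd_dvd_left _ _)
      have hp2 : p ∣ Dk (insert k S) k :=
        Int.natCast_dvd_natCast.1 ((Int.natCast_dvd_natCast.2 hpg).trans (Int.gcd_dvd_right _ _))
      have hpM : ¬p ∣ M := by
        intro h
        have h1 : IsCoprime (p : ℤ) (p : ℤ) :=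
          (hcopM.of_isCoprime_of_dvd_left hp1).of_isCoprime_of_dvd_right (Int.natCast_dvd_natCast.2 h)
        rw [isCoprime_self, Int.isUnit_iff] at h1
        have := hp.two_le
        omega
      have hpmem : p ∈ (Dk (insert k S) k).primeFactors \ M.primeFactors := by
        rw [Finset.mem_sdiff, Nat.mem_primeFactors, Nat.mem_primeFactors]
        exact ⟨⟨hp, hp2, (Dk_pos _ _).ne'⟩, fun h => hpM h.2.1⟩
      have hex : ∃ s ∈ S, p ∣ k - s := by
        rw [Dk_insert_self S k hk] at hp2
        exact (hp.prime.dvd_finset_prod_iff _).1 hp2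
      obtain ⟨h1, h2, h3⟩ := sp_spec S k p hk hex
      have hval : (p : ℤ) ∣ ev f c (sp S k p) - (f (sp S k p) - f k) := by
        have h4 := ev_dvd f c k (sp S k p)
        have h5 : (p : ℤ) ∣ (k : ℤ) - sp S k p := by
          rw [← Nat.cast_sub (hk _ h1).le]
          exact Int.natCast_dvd_natCast.2 h2
        have h6 := h5.trans h4
        have e : ev f c (sp S k p) - (f (sp S k p) - f k) = ev f c k -
          ((ev f c k - f k) - (ev f c (sp S k p) - f (sp S k p))) := by ring
        rw [e]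
        exact dvd_sub hp1 h6
      refine le_trans ?_ (single_le_sum (f := fun p => Fm f M a S (sp S k p) p (f (sp S k p) - f k) c)
        (fun p _ => Fm_nonneg _ _ _ _ _ _ _ _) hpmem)
      unfold Fm
      rw [if_pos hval, mul_one]
    · have : Fu f M a S c = 0 := by
        unfold Fu
        rw [if_neg hF]
      rw [this]
      exact hnn

/-- **Lower bounds for the correlations** -/
theorem corrL (C M : ℕ) (hM : 1 ≤ M) (m : ℕ) : m ≤ d → ∀ η : ℝ, 0 < η → ∀ᶠ X : ℕ in atTop,
    ∀ (f : ℕ → ℤ) (Z : Fin d → ℤ) (Y : Fin d → ℕ) (S : Finset ℕ) (a : Fin d → ℤ), SZ C X f Z Y S → S.card = m →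
    (∀ k ∈ S, IsCoprime (ev f a k) (M : ℤ)) →
    (1 - η - 4 * dl M S) * (wt M S / Real.log X ^ m * ∑ c ∈ Box Z Y, Fu f M a ∅ c) ≤
      ∑ c ∈ Box Z Y, Fu f M a S c := by
  classical
  induction m with
  | zero =>
    intro _ η hη
    filter_upwards with X f Z Y S a _ hS _
    rw [card_eq_zero] at hS
    rw [hS, pow_zero]
    unfold wt dl
    rw [prod_empty, div_one, one_mul, sum_empty, mul_zero, sub_zero]
    have : 0 ≤ ∑ c ∈ Box Z Y, Fu f M a ∅ c := sum_nonneg fun c _ => Fu_nonneg _ _ _ _ _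
    nlinarith
  | succ m ih =>
    intro hmd η hη
    obtain ⟨e, he⟩ : ∃ e : ℝ, e = min η 1 / 4 := ⟨_, rfl⟩
    have he0 : 0 < e := by rw [he]; positivity
    have heη : 4 * e ≤ η := by rw [he]; linarith [min_le_left η 1]
    have he1 : e ≤ 1 := by rw [he]; linarith [min_le_right η 1]
    filter_upwards [ih (by omega) e he0, corrM (d := d) C M hM m (by omega) e he0,
      ap_count (C * m + C + 1) (C * (m + 2) + m + 2) C e he0,
      step_data (d := d) C M hM m e he0, ev_log_ge 1] with X hX1 hXM hX2 hX3 hL1 f Z Y S a hsz hcard hcop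
    obtain ⟨k, S', rfl, hlt, hS'card⟩ := split_max S m hcard
    obtain ⟨y, E, hy1, hyl, hyX, hY1, hE, hEb, hval, hq, hlo, hup⟩ := hX3 f Z Y S' k a hlt hS'card hsz
    have hIH := hX1 f Z Y S' a (hsz.mono (subset_insert k S')) hS'card (fun s hs => hcop s (mem_insert_of_mem hs))
    have hL0 : 0 < Real.log (X : ℝ) := by linarith
    have h0 : ∀ c ∈ Box Z Y, 0 ≤ ev f c k := by
      intro c hc
      have h1 := hval c hc k (mem_insert_self k S')
      have h2 : (0 : ℤ) ≤ k := Int.natCast_nonneg k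
      linarith
    obtain ⟨L, hL⟩ : ∃ L, L = Real.log (X : ℝ) := ⟨_, rfl⟩
    obtain ⟨g, hg⟩ : ∃ g, g = gk M (insert k S') k := ⟨_, rfl⟩
    have hg1 : 1 ≤ g := by rw [hg]; exact gk_ge M hM _ k
    obtain ⟨N, hN⟩ : ∃ N, N = ∑ c ∈ Box Z Y, Fu f M a ∅ c := ⟨_, rfl⟩
    have hN0 : 0 ≤ N := by rw [hN]; exact sum_nonneg fun c _ => Fu_nonneg _ _ _ _ _
    have hy0 : (0 : ℝ) < y := by exact_mod_cast hy1
    obtain ⟨W, hW⟩ : ∃ W, W = wt M S' / L ^ m := ⟨_, rfl⟩
    have hL0' : 0 < L := by rw [hL]; exact hL0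
    have hWl : 1 / L ^ m ≤ W := by
      rw [hW]
      exact div_le_div_of_nonneg_right (wt_ge M hM S') (by positivity)
    have hW0 : 0 < W := lt_of_lt_of_le (by positivity) hWl
    have e1 : g * wt M S' / L ^ (m + 1) * N = g / L * (W * N) := by
      rw [hW, pow_succ]
      field_simp
    obtain ⟨P, hP⟩ : ∃ P, P = g / L * (W * N) := ⟨_, rfl⟩
    have hP0 : 0 ≤ P := by rw [hP]; positivity
    have hEb2 : E * (Box Z Y).card ≤ e * P := by
      rw [← hL, ← hN] at hEb
      refine hEb.trans ?_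
      rw [← hL] at hL1
      have h1 : e / L ^ C ≤ e := div_le_self he0.le (one_le_pow₀ hL1)
      apply mul_le_mul h1 _ (by positivity) he0.le
      rw [hP]
      apply mul_le_mul
      · exact div_le_div_of_nonneg_right hg1 hL0'.le
      · exact mul_le_mul_of_nonneg_right hWl hN0
      · positivity
      · positivity
    rw [wt_insert M S' k hlt, ← hg, ← hL, ← hN, e1, ← hP]
    rw [← hL, ← hN, ← hW] at hIH
    -- the good part
    obtain ⟨χ, hχ⟩ : ∃ χ : (Fin d → ℤ) → ℝ, χ = fun c =>
      if IsCoprime (ev f c k) ((M * Dk (insert k S') k : ℕ) : ℤ) then 1 else 0 := ⟨_, rfl⟩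
    have hstep := low_step Z Y hY1 (fun t => sv d M S' (t : ℕ)) (Fu f M a (insert k S'))
      (fun c => Fu f M a S' c * χ c)
      (Fu_nonneg _ _ _ _) (Fu_le_one _ _ _ _) y hy1 ((1 - e) * (g * (y / L))) E (by
        intro c hc
        rw [sum_t f M a S' k c y hlt (by omega) (h0 c hc), mul_assoc]
        apply mul_le_mul_of_nonneg_left _ (Fu_nonneg _ _ _ _ _)
        rw [hχ]
        simp only
        by_cases hc1 : IsCoprime (ev f c k) ((M * Dk (insert k S') k : ℕ) : ℤ)
        · rw [if_pos hc1, one_mul]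
          have hc2 : ((ev f c k).toNat).Coprime (M * Dk (insert k S') k) := by
            rw [← Nat.isCoprime_iff_coprime, Int.toNat_of_nonneg (h0 c hc)]
            exact hc1
          have h1 := abs_le.1 (hX2 (M * Dk (insert k S') k) (ev f c k).toNat (Nat.mul_pos hM (Dk_pos _ _)) hq hc2 y
            (hlo c hc) (hup c hc) hyl hyX)
          have h2 : g * (y / L) = ((M * Dk (insert k S') k : ℕ) : ℝ) / (Nat.totient (M * Dk (insert k S') k) : ℝ) *
            (y / Real.log X) := by
            rw [hg, hL]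
            rfl
          rw [h2]
          linarith [h1.1]
        · rw [if_neg hc1, zero_mul]
          exact Nat.cast_nonneg _) hE
    have e2 : (1 - e) * (g * (y / L)) / y = (1 - e) * (g / L) := by field_simp
    rw [e2] at hstep
    -- the bad part
    have hbad : ∑ c ∈ Box Z Y, Fu f M a S' c ≤ ∑ c ∈ Box Z Y, Fu f M a S' c * χ c +
        4 * sg M (Dk (insert k S') k) * (W * N) := by
      have h1 : ∑ c ∈ Box Z Y, Fu f M a S' c ≤ ∑ c ∈ Box Z Y, (Fu f M a S' c * χ c +
          ∑ p ∈ (Dk (insert k S') k).primeFactors \ M.primeFactors,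
            Fm f M a S' (sp S' k p) p (f (sp S' k p) - f k) c) := by
        apply Finset.sum_le_sum
        intro c _
        rw [hχ]
        exact bad_le f M a S' k c hlt (hcop k (mem_insert_self k S'))
      rw [Finset.sum_add_distrib] at h1
      refine h1.trans ?_
      apply add_le_add le_rfl
      rw [Finset.sum_comm]
      unfold sg
      rw [Finset.mul_sum, Finset.sum_mul]
      apply Finset.sum_le_sum
      intro p hp
      rw [Finset.mem_sdiff, Nat.mem_primeFactors, Nat.mem_primeFactors] at hp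
      obtain ⟨⟨hpp, hpD, _⟩, hpM⟩ := hp
      have hpM' : ¬p ∣ M := fun h => hpM ⟨hpp, h, by omega⟩
      have hex : ∃ s ∈ S', p ∣ k - s := by
        rw [Dk_insert_self S' k hlt] at hpD
        exact (hpp.prime.dvd_finset_prod_iff _).1 hpD
      obtain ⟨h2, h3, h4⟩ := sp_spec S' k p hlt hex
      have hpk : (p : ℝ) ≤ Real.log X ^ C := by
        refine le_trans ?_ (hsz.pts k (mem_insert_self k S'))
        have h5 := Nat.le_of_dvd (by have := hlt _ h2; omega) h3
        exact_mod_cast h5.trans (Nat.sub_le _ _)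
      have h5 := hXM f Z Y S' a (hsz.mono (subset_insert k S')) hS'card (sp S' k p) p
        (f (sp S' k p) - f k) h2 hpp hpM' hpk h4
      rw [← hL, ← hN, ← hW] at h5
      refine h5.trans ?_
      have hp0 : (0 : ℝ) < p := by exact_mod_cast hpp.pos
      have hWN : 0 ≤ W * N := by positivity
      calc (1 + e) * (2 / (p : ℝ)) * (W * N) ≤ (1 + 1) * (2 / (p : ℝ)) * (W * N) := by
            apply mul_le_mul_of_nonneg_right _ hWN
            apply mul_le_mul_of_nonneg_right _ (by positivity)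
            linarith
        _ = _ := by ring
    rw [dl_insert M S' k hlt]
    obtain ⟨T, hT⟩ : ∃ T, T = ∑ c ∈ Box Z Y, Fu f M a S' c * χ c := ⟨_, rfl⟩
    rw [← hT] at hstep hbad
    obtain ⟨u, hu⟩ : ∃ u, u = sg M (Dk (insert k S') k) := ⟨_, rfl⟩
    obtain ⟨v, hv⟩ : ∃ v, v = dl M S' := ⟨_, rfl⟩
    have hu0 : 0 ≤ u := by rw [hu]; exact sg_nonneg _ _
    have hv0 : 0 ≤ v := by rw [hv]; exact dl_nonneg _ _
    rw [← hv] at hIH
    rw [← hu] at hbad
    rw [← hu, ← hv]
    have h1 : (1 - e - 4 * v - 4 * u) * (W * N) ≤ T := by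
      have : (1 - e - 4 * v) * (W * N) ≤ T + 4 * u * (W * N) := hIH.trans hbad
      linarith
    have h2 : (1 - e) * (g / L) * ((1 - e - 4 * v - 4 * u) * (W * N)) ≤ (1 - e) * (g / L) * T := by
      apply mul_le_mul_of_nonneg_left h1
      have : 0 ≤ 1 - e := by linarith
      positivity
    have h3 : (1 - e) * (g / L) * ((1 - e - 4 * v - 4 * u) * (W * N)) =
        (1 - e) * (1 - e - 4 * v - 4 * u) * P := by rw [hP]; ring
    rw [h3] at h2
    have h4 : (1 - 2 * e - 4 * v - 4 * u) * P ≤ (1 - e) * (1 - e - 4 * v - 4 * u) * P := by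
      apply mul_le_mul_of_nonneg_right _ hP0
      nlinarith
    have h5 : (1 - η - 4 * (u + v)) * P ≤ (1 - 2 * e - 4 * v - 4 * u) * P - e * P := by
      have : (1 - 2 * e - 4 * v - 4 * u) * P - e * P = (1 - 3 * e - 4 * v - 4 * u) * P := by ring
      rw [this]
      apply mul_le_mul_of_nonneg_right _ hP0
      linarith
    linarith

end Pool.Agent.Q236.RP
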