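import Pool.Agent.Q236.RP.Surv
import Pool.Agent.Q236.RP.Crt
import Pool.Agent.Q236.FL.PoD

set_option autoImplicit false

/-!
# Sets of points in intervals; the truncated singular series
-/

namespace Pool.Agent.Q236.RP

open Finset Filter Polynomial
open Pool.Agent.TH464.PO (prs)
open Pool.Agent.Q236.UL (Ty Al PoJ PoJ_nonneg PoJ_le_one sub_Al)

/-- subsets of intervals -/
lemma few_int (n : ℕ) (lam : ℝ) : Few n lam
    (fun X B => ∃ K0 K : ℕ, B ⊆ Ioc K0 (K0 + K) ∧ (K : ℝ) ≤ lam * Real.log X ^ n) := by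
  intro c
  refine ⟨2 * c + 1 + c * Real.exp c, 1, by positivity, one_pos, ?_⟩
  intro w hw
  filter_upwards with X B hB
  obtain ⟨K0, K, hBK, hK⟩ := hB
  have hcard := card_le_card hBK
  rw [Nat.card_Ioc, Nat.add_sub_cancel_left] at hcard
  have hK0 : (0 : ℝ) ≤ K := Nat.cast_nonneg K
  refine ⟨le_trans (by exact_mod_cast hcard) hK, ?_⟩
  have h1 := prs_sum_le K0 K B hBK (fun h => Eh c w h - 1) (fun h => by linarith [Eh_ge c w h])
  have h2 := Eh_avg c w K hw
  have hw0 : (0 : ℝ) < w := by exact_mod_cast hw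
  rw [Real.rpow_one]
  have h3 : Real.exp ((c : ℝ) / w) - 1 ≤ (2 * c + 1 + c * Real.exp c) / w := by
    rcases le_or_gt (c : ℝ) w with h | h
    · have hx : (c : ℝ) / w ≤ 1 := by
        rw [div_le_one hw0]
        exact h
      have h9 := Real.abs_exp_sub_one_le (x := (c : ℝ) / w) (by rw [abs_of_nonneg (by positivity)]; exact hx)
      rw [abs_of_nonneg (by positivity : (0 : ℝ) ≤ (c : ℝ) / w)] at h9
      have h10 := (le_abs_self _).trans h9
      refine h10.trans ?_
      rw [mul_div_assoc']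
      apply div_le_div_of_nonneg_right _ hw0.le
      have : 0 ≤ (c : ℝ) * Real.exp c := by positivity
      linarith
    · rw [le_div_iff₀ hw0]
      have hw1 : (1 : ℝ) ≤ w := by exact_mod_cast hw
      have h4 : (c : ℝ) / w ≤ c := div_le_self (Nat.cast_nonneg c) hw1
      have h5 := Real.exp_le_exp.2 h4
      have h6 : 0 ≤ Real.exp ((c : ℝ) / w) - 1 := by
        have : (0 : ℝ) ≤ (c : ℝ) / w := by positivity
        linarith [Real.one_le_exp this]
      calc (Real.exp ((c : ℝ) / w) - 1) * w ≤ Real.exp c * c := by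
            apply mul_le_mul (by linarith) h.le hw0.le (Real.exp_pos _).le
        _ ≤ 2 * c + 1 + c * Real.exp c := by
            have : (0 : ℝ) ≤ c := Nat.cast_nonneg c
            linarith
  have h4 : (0 : ℝ) ≤ (2 * c + 1 + c * Real.exp c) / w := by positivity
  calc ∑ x ∈ prs B, (Eh c w (x.2 - x.1) - 1) ≤ K * ∑ h ∈ Icc 1 K, (Eh c w h - 1) := h1
    _ ≤ K * (K * (Real.exp (c / w) - 1)) := mul_le_mul_of_nonneg_left h2 hK0
    _ ≤ K * (K * ((2 * c + 1 + c * Real.exp c) / w)) := by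
        apply mul_le_mul_of_nonneg_left _ hK0
        exact mul_le_mul_of_nonneg_left h3 hK0
    _ = (K : ℝ) ^ 2 * ((2 * c + 1 + c * Real.exp c) / w) := by ring
    _ ≤ (lam * Real.log X ^ n) ^ 2 * ((2 * c + 1 + c * Real.exp c) / w) := by
        apply mul_le_mul_of_nonneg_right _ h4
        exact pow_le_pow_left₀ hK0 hK 2

lemma gP_eq (w : ℕ) : gP w = ∏ p ∈ (range (w + 1)).filter Nat.Prime, (1 - (p : ℝ)⁻¹)⁻¹ := by
  unfold gP
  rw [ratio_eq _ (primorial_ne_zero w), primeFactors_primorial]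
  rfl

lemma coprime_primorial (w : ℕ) (z : ℤ) : IsCoprime z ((primorial w : ℕ) : ℤ) ↔ ∀ p : ℕ, p.Prime → p ≤ w → ¬(p : ℤ) ∣ z := by
  constructor
  · intro h p hp hpw hdvd
    have h1 : (p : ℤ) ∣ ((primorial w : ℕ) : ℤ) := by
      apply Int.natCast_dvd_natCast.2
      unfold primorial
      apply Finset.dvd_prod_of_mem
      rw [mem_filter, mem_range]
      exact ⟨by omega, hp⟩
    have h2 : IsCoprime (p : ℤ) (p : ℤ) := (h.of_isCoprime_of_dvd_left hdvd).of_isCoprime_of_dvd_right h1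
    rw [isCoprime_self, Int.isUnit_iff] at h2
    have := hp.two_le
    omega
  · intro h
    unfold primorial
    rw [Nat.cast_prod]
    apply IsCoprime.prod_right
    intro p hp
    rw [mem_filter, mem_range] at hp
    rw [isCoprime_comm]
    exact (Nat.prime_iff_prime_int.1 hp.2).coprime_iff_not_dvd.2 (h p hp.2 (by omega))

variable {n d : ℕ}

/-- the product of the polynomials -/
noncomputable def GG (F : Fin n → ℤ[X]) (c : Fin n → Fin d → ℤ) : ℤ[X] :=
  ∏ i, (F i + ∑ j, C (c i j) * X ^ (j : ℕ))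

lemma GG_eval (F : Fin n → ℤ[X]) (c : Fin n → Fin d → ℤ) (k : ℕ) :
    (GG F c).eval (k : ℤ) = ∏ i, ev (fun k => (F i).eval (k : ℤ)) (c i) k := by
  unfold GG ev
  rw [eval_prod]
  apply Finset.prod_congr rfl
  intro i _
  rw [eval_add, eval_finsetSum]
  congr 1
  apply Finset.sum_congr rfl
  intro j _
  simp

/-- the truncated singular series -/
noncomputable def ssw (F : Fin n → ℤ[X]) (w : ℕ) (c : Fin n → Fin d → ℤ) : ℝ :=
  gP w ^ n * ∏ p ∈ (range (w + 1)).filter Nat.Prime, (1 - (om (GG F c) p : ℝ) / p)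

/-- the parameter of an interval -/
lemma xp_interval (F : Fin n → ℤ[X]) (w X K0 K : ℕ) (c : Fin n → Fin d → ℤ) (hL : 0 < Real.log X) :
    |xp (fun i k => (F i).eval (k : ℤ)) w X (Ioc K0 (K0 + K)) c - ssw F w c * (K / Real.log X ^ n)| ≤
      2 * (primorial w : ℝ) * (gP w / Real.log X) ^ n := by
  classical
  have h1 := count_interval (GG F c) (primorial w) (primorial_pos w) K0 K
  have h2 : Sv (fun i k => (F i).eval (k : ℤ)) (primorial w) c (Ioc K0 (K0 + K)) =
      (Ioc K0 (K0 + K)).filter (fun k : ℕ => IsCoprime ((GG F c).eval (k : ℤ)) ((primorial w : ℕ) : ℤ)) := by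
    unfold Sv
    apply filter_congr
    intro k _
    rw [GG_eval, IsCoprime.prod_left_iff]
    simp
  rw [← h2, gd_primorial] at h1
  have hP : (0 : ℝ) < (primorial w : ℝ) := by exact_mod_cast primorial_pos w
  rw [mul_div_cancel_left₀ _ hP.ne'] at h1
  have hg : 0 ≤ (gP w / Real.log X) ^ n := by
    have := gP_ge w
    positivity
  have h3 := mul_le_mul_of_nonneg_left h1 hg
  rw [← abs_of_nonneg hg, ← abs_mul, abs_of_nonneg hg] at h3
  have e : (gP w / Real.log X) ^ n * ((((Sv (fun i k => (F i).eval (k : ℤ)) (primorial w) c (Ioc K0 (K0 + K))).card : ℕ) : ℝ) -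
      K * ∏ p ∈ (range (w + 1)).filter Nat.Prime, (1 - (om (GG F c) p : ℝ) / p)) =
      xp (fun i k => (F i).eval (k : ℤ)) w X (Ioc K0 (K0 + K)) c - ssw F w c * (K / Real.log X ^ n) := by
    unfold xp ssw
    rw [div_pow]
    ring
  rw [e] at h3
  refine h3.trans (le_of_eq ?_)
  ring

end Pool.Agent.Q236.RP
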