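import Pool.Agent.Q236.RP.Mom

set_option autoImplicit false

/-!
# The law on a residue class and the global law
-/

namespace Pool.Agent.Q236.RP

open Finset Filter Polynomial
open Pool.Agent.Q236.UL (Ty Al PoJ PoJ_nonneg PoJ_le_one law_joint Mom)

variable {n : ℕ} {τ : Type*} [Fintype τ] [DecidableEq τ]

lemma sum_transport {β : Type*} (Om : Finset β) (e : Om ≃ Fin Om.card) (F : β → ℝ) (F' : ℕ → ℝ)
    (h : ∀ i : Fin Om.card, F' i = F (e.symm i)) : ∑ i ∈ range Om.card, F' i = ∑ c ∈ Om, F c := by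
  rw [Finset.sum_range, Finset.sum_congr rfl (fun i _ => h i), ← Finset.sum_coe_sort Om F]
  exact Equiv.sum_comp e.symm (fun x : Om => F x)

open Classical in
/-- the moment method on an arbitrary finite set -/
theorem law_gen (Λ ε : ℝ) (hΛ : 0 ≤ Λ) (hε : 0 < ε) : ∃ (R : ℕ) (η : ℝ), 0 < η ∧
    ∀ (β : Type) (Om : Finset β) (N : τ → β → ℕ) (x : τ → ℝ), (∀ t, 0 ≤ x t) → (∀ t, x t ≤ Λ) →
    (∀ κ : τ → ℕ, (∀ t, κ t ≤ R) → |∑ c ∈ Om, ∏ t, ((N t c).choose (κ t) : ℝ) -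
      Om.card * ∏ t, (x t ^ κ t / (κ t).factorial)| ≤ η * Om.card) →
    ∀ A : Finset (τ → ℕ), |((Om.filter (fun c => (fun t => N t c) ∈ A)).card : ℝ) -
      Om.card * PoJ x A| ≤ ε * Om.card := by
  obtain ⟨R, η, hη, hlaw⟩ := law_joint (τ := τ) Λ ε hΛ hε
  refine ⟨R, η, hη, ?_⟩
  intro β Om N x hx hxΛ hmom A
  obtain ⟨N', hN'⟩ : ∃ N' : τ → ℕ → ℕ, N' = fun t i =>
    if h : i < Om.card then N t ((Om.equivFin.symm ⟨i, h⟩ : Om) : β) else 0 := ⟨_, rfl⟩
  have hNe : ∀ (t : τ) (i : Fin Om.card), N' t i = N t ((Om.equivFin.symm i : Om) : β) := by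
    intro t i
    rw [hN']
    simp only
    rw [dif_pos i.2]
  have h1 := hlaw (range Om.card) N' x hx hxΛ (by
    intro κ hκ
    rw [card_range, sum_transport Om Om.equivFin (fun c => ∏ t, ((N t c).choose (κ t) : ℝ))
      (fun i => ∏ t, ((N' t i).choose (κ t) : ℝ)) (fun i => by simp only [hNe])]
    exact hmom κ hκ) A
  rw [card_range] at h1
  have h2 : (((range Om.card).filter (fun i => (fun t => N' t i) ∈ A)).card : ℝ) =
      ((Om.filter (fun c => (fun t => N t c) ∈ A)).card : ℝ) := by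
    have e1 : (((range Om.card).filter (fun i => (fun t => N' t i) ∈ A)).card : ℝ) =
        ∑ i ∈ range Om.card, if (fun t => N' t i) ∈ A then (1 : ℝ) else 0 := by
      rw [← Finset.sum_filter, Finset.sum_const, nsmul_eq_mul, mul_one]
    have e2 : ((Om.filter (fun c => (fun t => N t c) ∈ A)).card : ℝ) =
        ∑ c ∈ Om, if (fun t => N t c) ∈ A then (1 : ℝ) else 0 := by
      rw [← Finset.sum_filter, Finset.sum_const, nsmul_eq_mul, mul_one]
    rw [e1, e2]
    exact sum_transport Om Om.equivFin (fun c => if (fun t => N t c) ∈ A then (1 : ℝ) else 0) _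
      (fun i => by simp only [hNe])
  rw [h2] at h1
  exact h1

lemma xp_nonneg {d : ℕ} (f : Fin n → ℕ → ℤ) (w X : ℕ) (T : Finset ℕ) (c : Fin n → Fin d → ℤ)
    (hX : 0 ≤ Real.log X) : 0 ≤ xp f w X T c := by
  unfold xp
  have := gP_ge w
  positivity

open Classical in
/-- **The law on a residue class** -/
theorem law_class (hn : 1 ≤ n) (lam Λ ε : ℝ) (hlam : 0 ≤ lam) (hΛ : 0 ≤ Λ) (hε : 0 < ε)
    (SS : ℕ → Finset ℕ → Prop) (hSS : Few n lam SS) :
    ∃ d0 w0 : ℕ, 2 ≤ w0 ∧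
    ∀ w : ℕ, w0 ≤ w → ∀ C d : ℕ, d0 ≤ d → ∀ᶠ X : ℕ in atTop,
    ∀ (f : Fin n → ℕ → ℤ) (Z : Fin n → Fin d → ℤ) (Y : Fin n → Fin d → ℕ) (T : τ → Finset ℕ),
    (∀ t u, t ≠ u → Disjoint (T t) (T u)) → SS X (Al T) →
    (∀ i, SZ C X (f i) (Z i) (Y i) (Al T)) → ∀ a : Fin n → Fin d → ℤ, (∀ t, xp f w X (T t) a ≤ Λ) →
    ∀ A : Finset (τ → ℕ), |(((OmN w Z Y a).filter (fun c => (fun t => Np f (T t) c) ∈ A)).card : ℝ) -
      (OmN w Z Y a).card * PoJ (fun t => xp f w X (T t) a) A| ≤ ε * (OmN w Z Y a).card := by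
  obtain ⟨R, η, hη, hlaw⟩ := law_gen (τ := τ) Λ ε hΛ hε
  obtain ⟨w0, hw02, h⟩ := mom_class (τ := τ) hn (Fintype.card τ * R) lam η hlam hη SS hSS
  refine ⟨Fintype.card τ * R, w0, hw02, ?_⟩
  intro w hw C d hd
  filter_upwards [h w hw C d hd, ev_log_ge 0] with X hX hX0 f Z Y T hT hST hsz a ha A
  exact hlaw (Fin n → Fin d → ℤ) (OmN w Z Y a) (fun t c => Np f (T t) c) (fun t => xp f w X (T t) a)
    (fun t => xp_nonneg f w X (T t) a hX0) ha (fun κ hκ => hX f Z Y T hT hST hsz a κ (by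
      calc ∑ t, κ t ≤ ∑ _t : τ, R := Finset.sum_le_sum fun t _ => hκ t
        _ = Fintype.card τ * R := by rw [Finset.sum_const, Finset.card_univ, smul_eq_mul])) A

/-- the residues -/
noncomputable def rs {d : ℕ} (w : ℕ) (c : Fin n → Fin d → ℤ) : Fin n → Fin d → ℤ :=
  fun i j => c i j % (primorial w : ℤ)

lemma rs_iff {d : ℕ} (w : ℕ) (a c : Fin n → Fin d → ℤ) : (∀ i, Cl (primorial w) (a i) (c i)) ↔ rs w c = rs w a := by
  unfold Cl rs
  constructor
  · intro h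
    funext i j
    exact Int.emod_eq_emod_iff_emod_sub_eq_zero.2 (Int.emod_eq_zero_of_dvd (h i j))
  · intro h i j
    have h1 := congrFun (congrFun h i) j
    exact Int.dvd_of_emod_eq_zero (Int.emod_eq_emod_iff_emod_sub_eq_zero.1 h1)

lemma xp_rs {d : ℕ} (f : Fin n → ℕ → ℤ) (w X : ℕ) (T : Finset ℕ) (a c : Fin n → Fin d → ℤ) (h : rs w c = rs w a) :
    xp f w X T c = xp f w X T a := by
  unfold xp
  rw [Sv_cl f (primorial w) a c ((rs_iff w a c).2 h) T]

open Classical in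
/-- from the classes to the whole box -/
lemma glob {d : ℕ} (f : Fin n → ℕ → ℤ) (w X : ℕ) (Z : Fin n → Fin d → ℤ) (Y : Fin n → Fin d → ℕ)
    (T : τ → Finset ℕ) (Λ ε : ℝ) (hε : 0 ≤ ε) (A : Finset (τ → ℕ)) (hX : 0 ≤ Real.log X)
    (h : ∀ a : Fin n → Fin d → ℤ, (∀ t, xp f w X (T t) a ≤ Λ) →
      |(((OmN w Z Y a).filter (fun c => (fun t => Np f (T t) c) ∈ A)).card : ℝ) -
      (OmN w Z Y a).card * PoJ (fun t => xp f w X (T t) a) A| ≤ ε * (OmN w Z Y a).card) :
    |(((BoxN Z Y).filter (fun c => (fun t => Np f (T t) c) ∈ A)).card : ℝ) -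
      ∑ c ∈ BoxN Z Y, PoJ (fun t => xp f w X (T t) c) A| ≤
      ε * (BoxN Z Y).card + ((BoxN Z Y).filter (fun c => ¬∀ t, xp f w X (T t) c ≤ Λ)).card := by
  obtain ⟨D, hD⟩ : ∃ D : (Fin n → Fin d → ℤ) → ℝ, D = fun c => (if (fun t => Np f (T t) c) ∈ A then (1 : ℝ) else 0) -
    PoJ (fun t => xp f w X (T t) c) A := ⟨_, rfl⟩
  have e1 : (((BoxN Z Y).filter (fun c => (fun t => Np f (T t) c) ∈ A)).card : ℝ) -
      ∑ c ∈ BoxN Z Y, PoJ (fun t => xp f w X (T t) c) A = ∑ c ∈ BoxN Z Y, D c := by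
    rw [hD, Finset.sum_sub_distrib, ← Finset.sum_filter, Finset.sum_const, nsmul_eq_mul, mul_one]
  have e2 : ∑ c ∈ BoxN Z Y, D c = ∑ b ∈ (BoxN Z Y).image (rs w), ∑ c ∈ (BoxN Z Y).filter (fun c => rs w c = b), D c :=
    (Finset.sum_fiberwise_of_maps_to (fun c hc => mem_image_of_mem _ hc) _).symm
  have e3 : ((BoxN Z Y).card : ℝ) =
      ∑ b ∈ (BoxN Z Y).image (rs w), (((BoxN Z Y).filter (fun c => rs w c = b)).card : ℝ) := by
    have := Finset.card_eq_sum_card_fiberwise (f := rs w) (s := BoxN Z Y) (t := (BoxN Z Y).image (rs w))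
      (fun c hc => mem_image_of_mem _ hc)
    exact_mod_cast this
  have e4 : (((BoxN Z Y).filter (fun c => ¬∀ t, xp f w X (T t) c ≤ Λ)).card : ℝ) =
      ∑ b ∈ (BoxN Z Y).image (rs w), (((BoxN Z Y).filter (fun c => rs w c = b ∧ ¬∀ t, xp f w X (T t) c ≤ Λ)).card : ℝ) := by
    have := Finset.card_eq_sum_card_fiberwise (f := rs w)
      (s := (BoxN Z Y).filter (fun c => ¬∀ t, xp f w X (T t) c ≤ Λ)) (t := (BoxN Z Y).image (rs w))
      (fun c hc => mem_image_of_mem _ (mem_filter.1 hc).1)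
    have e5 : ∀ b, ((BoxN Z Y).filter (fun c => ¬∀ t, xp f w X (T t) c ≤ Λ)).filter (fun c => rs w c = b) =
        (BoxN Z Y).filter (fun c => rs w c = b ∧ ¬∀ t, xp f w X (T t) c ≤ Λ) := by
      intro b
      rw [filter_filter]
      apply filter_congr
      intro c _
      exact and_comm
    simp only [e5] at this
    exact_mod_cast this
  rw [e1, e2, e3, e4, Finset.mul_sum, ← Finset.sum_add_distrib]
  refine (Finset.abs_sum_le_sum_abs _ _).trans ?_
  apply Finset.sum_le_sum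
  intro b hb
  rw [mem_image] at hb
  obtain ⟨a, _, rfl⟩ := hb
  have hfib : (BoxN Z Y).filter (fun c => rs w c = rs w a) = OmN w Z Y a := by
    unfold OmN
    apply filter_congr
    intro c _
    exact (rs_iff w a c).symm
  have hxa : ∀ c ∈ (BoxN Z Y).filter (fun c => rs w c = rs w a), (fun t => xp f w X (T t) c) = fun t => xp f w X (T t) a := by
    intro c hc
    rw [mem_filter] at hc
    funext t
    exact xp_rs f w X (T t) a c hc.2
  by_cases hgood : ∀ t, xp f w X (T t) a ≤ Λ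
  · have h1 := h a hgood
    have e5 : ∑ c ∈ (BoxN Z Y).filter (fun c => rs w c = rs w a), D c =
        (((OmN w Z Y a).filter (fun c => (fun t => Np f (T t) c) ∈ A)).card : ℝ) -
        (OmN w Z Y a).card * PoJ (fun t => xp f w X (T t) a) A := by
      have e6 : ∀ c ∈ (BoxN Z Y).filter (fun c => rs w c = rs w a), D c =
          (if (fun t => Np f (T t) c) ∈ A then (1 : ℝ) else 0) - PoJ (fun t => xp f w X (T t) a) A := by
        intro c hc
        rw [hD]
        simp only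
        rw [hxa c hc]
      rw [Finset.sum_congr rfl e6, Finset.sum_sub_distrib, ← Finset.sum_filter, Finset.sum_const, Finset.sum_const,
        nsmul_eq_mul, nsmul_eq_mul, mul_one, hfib]
    rw [e5]
    have h2 : (0 : ℝ) ≤ (((BoxN Z Y).filter (fun c => rs w c = rs w a ∧ ¬∀ t, xp f w X (T t) c ≤ Λ)).card : ℝ) :=
      Nat.cast_nonneg _
    rw [hfib]
    linarith
  · have e5 : (BoxN Z Y).filter (fun c => rs w c = rs w a ∧ ¬∀ t, xp f w X (T t) c ≤ Λ) =
        (BoxN Z Y).filter (fun c => rs w c = rs w a) := by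
      apply filter_congr
      intro c hc
      constructor
      · exact fun h => h.1
      · intro h1
        refine ⟨h1, ?_⟩
        intro h2
        apply hgood
        intro t
        rw [← xp_rs f w X (T t) a c h1]
        exact h2 t
    rw [e5]
    have h1 : ∀ c, |D c| ≤ 1 := by
      intro c
      rw [hD]
      simp only
      have h2 := PoJ_nonneg (fun t => xp f w X (T t) c) (fun t => xp_nonneg f w X (T t) c hX) A
      have h3 := PoJ_le_one (fun t => xp f w X (T t) c) (fun t => xp_nonneg f w X (T t) c hX) A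
      rw [abs_le]
      split_ifs
      · constructor <;> linarith
      · constructor <;> linarith
    refine (Finset.abs_sum_le_sum_abs _ _).trans ((sum_le_sum fun c _ => h1 c).trans ?_)
    rw [Finset.sum_const, nsmul_eq_mul, mul_one]
    have : 0 ≤ ε * (((BoxN Z Y).filter (fun c => rs w c = rs w a)).card : ℝ) := by positivity
    linarith


open Classical in
/-- **The joint moments over the whole box** -/
theorem mom_all (hn : 1 ≤ n) (d : ℕ) (lam η0 : ℝ) (hlam : 0 ≤ lam) (hη0 : 0 < η0) (SS : ℕ → Finset ℕ → Prop)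
    (hSS : Few n lam SS) : ∃ w0 : ℕ, 2 ≤ w0 ∧ ∀ w : ℕ, w0 ≤ w → ∀ C : ℕ, ∀ᶠ X : ℕ in atTop,
    ∀ (f : Fin n → ℕ → ℤ) (Z : Fin n → Fin d → ℤ) (Y : Fin n → Fin d → ℕ) (T : τ → Finset ℕ),
    (∀ t u, t ≠ u → Disjoint (T t) (T u)) → SS X (Al T) →
    (∀ i, SZ C X (f i) (Z i) (Y i) (Al T)) → ∀ κ : τ → ℕ, (∑ t, κ t ≤ d) →
    |∑ c ∈ BoxN Z Y, ∏ t, ((Np f (T t) c).choose (κ t) : ℝ) -
      ∑ c ∈ BoxN Z Y, ∏ t, (xp f w X (T t) c ^ κ t / (κ t).factorial)| ≤ η0 * (BoxN Z Y).card := by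
  obtain ⟨w0, hw02, h⟩ := mom_class (τ := τ) hn d lam η0 hlam hη0 SS hSS
  refine ⟨w0, hw02, ?_⟩
  intro w hw C
  filter_upwards [h w hw C d le_rfl] with X hX f Z Y T hT hST hsz κ hκ
  have h1 := fun a => hX f Z Y T hT hST hsz a κ hκ
  obtain ⟨D, hD⟩ : ∃ D : (Fin n → Fin d → ℤ) → ℝ, D = fun c => ∏ t, ((Np f (T t) c).choose (κ t) : ℝ) -
    ∏ t, (xp f w X (T t) c ^ κ t / (κ t).factorial) := ⟨_, rfl⟩
  have e1 : ∑ c ∈ BoxN Z Y, ∏ t, ((Np f (T t) c).choose (κ t) : ℝ) -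
      ∑ c ∈ BoxN Z Y, ∏ t, (xp f w X (T t) c ^ κ t / (κ t).factorial) = ∑ c ∈ BoxN Z Y, D c := by
    rw [hD, Finset.sum_sub_distrib]
  have e2 : ∑ c ∈ BoxN Z Y, D c = ∑ b ∈ (BoxN Z Y).image (rs w), ∑ c ∈ (BoxN Z Y).filter (fun c => rs w c = b), D c :=
    (Finset.sum_fiberwise_of_maps_to (fun c hc => mem_image_of_mem _ hc) _).symm
  have e3 : ((BoxN Z Y).card : ℝ) =
      ∑ b ∈ (BoxN Z Y).image (rs w), (((BoxN Z Y).filter (fun c => rs w c = b)).card : ℝ) := by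
    have := Finset.card_eq_sum_card_fiberwise (f := rs w) (s := BoxN Z Y) (t := (BoxN Z Y).image (rs w))
      (fun c hc => mem_image_of_mem _ hc)
    exact_mod_cast this
  rw [e1, e2, e3, Finset.mul_sum]
  refine (Finset.abs_sum_le_sum_abs _ _).trans ?_
  apply Finset.sum_le_sum
  intro b hb
  rw [mem_image] at hb
  obtain ⟨a, _, rfl⟩ := hb
  have hfib : (BoxN Z Y).filter (fun c => rs w c = rs w a) = OmN w Z Y a := by
    unfold OmN
    apply filter_congr
    intro c _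
    exact (rs_iff w a c).symm
  have e5 : ∑ c ∈ (BoxN Z Y).filter (fun c => rs w c = rs w a), D c =
      ∑ c ∈ OmN w Z Y a, ∏ t, ((Np f (T t) c).choose (κ t) : ℝ) -
      (OmN w Z Y a).card * ∏ t, (xp f w X (T t) a ^ κ t / (κ t).factorial) := by
    have e6 : ∀ c ∈ (BoxN Z Y).filter (fun c => rs w c = rs w a), D c =
        ∏ t, ((Np f (T t) c).choose (κ t) : ℝ) - ∏ t, (xp f w X (T t) a ^ κ t / (κ t).factorial) := by
      intro c hc
      rw [mem_filter] at hc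
      rw [hD]
      simp only
      congr 1
      apply Finset.prod_congr rfl
      intro t _
      rw [xp_rs f w X (T t) a c hc.2]
    rw [Finset.sum_congr rfl e6, Finset.sum_sub_distrib, Finset.sum_const, nsmul_eq_mul, hfib]
  rw [e5, hfib]
  exact h1 a

end Pool.Agent.Q236.RP
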