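import Pool.Agent.Q236.RP.Avg
import Pool.Agent.Q236.UL.Esym
import Pool.Agent.Q236.UL.Multi

set_option autoImplicit false

/-!
# The joint moments on a residue class
-/

namespace Pool.Agent.Q236.RP

open Finset Filter Polynomial
open Pool.Agent.H373R2.T7 (pz mem_pz)
open Pool.Agent.TH464.PO (prs)
open Pool.Agent.Q236.UL (Ty Al typed_sum sub_Al union_inter)

variable {τ : Type*} [Fintype τ] [DecidableEq τ]

lemma Ty_card_eq (T : τ → Finset ℕ) (hT : ∀ t u, t ≠ u → Disjoint (T t) (T u)) (κ : τ → ℕ) (J : Finset ℕ)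
    (hJ : J ∈ Ty T κ) : J.card = ∑ t, κ t := by
  unfold Ty at hJ
  rw [mem_filter, mem_powerset] at hJ
  rw [← union_inter T J hJ.1, card_biUnion]
  · exact Finset.sum_congr rfl fun t _ => hJ.2 t
  · intro t _ u _ htu
    exact (hT t u htu).mono inter_subset_right inter_subset_right

lemma Ty_num (T : τ → Finset ℕ) (hT : ∀ t u, t ≠ u → Disjoint (T t) (T u)) (κ : τ → ℕ) :
    ((Ty T κ).card : ℝ) = ∏ t, ((T t).card.choose (κ t) : ℝ) := by
  have h := typed_sum T hT κ (fun _ => (1 : ℝ))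
  simp only [prod_const_one, sum_const, nsmul_eq_mul, mul_one, card_powersetCard] at h
  exact h

lemma prs_mono (A B : Finset ℕ) (h : A ⊆ B) : prs A ⊆ prs B := by
  intro x hx
  unfold prs at hx ⊢
  rw [mem_filter, mem_product] at hx ⊢
  exact ⟨⟨h hx.1.1, h hx.1.2⟩, hx.2⟩

lemma Wv_sum (w n m0 c : ℕ) (K E1 : ℝ) (hE1 : 0 ≤ E1) (hc : 3 ^ (3 * n * m0 ^ 2) ≤ c) (T : τ → Finset ℕ)
    (hT : ∀ t u, t ≠ u → Disjoint (T t) (T u)) (κ : τ → ℕ) (hκ : ∑ t, κ t ≤ m0) (hK0 : 0 ≤ K)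
    (hcard : ((Al T).card : ℝ) ≤ K) (hpair : ∑ x ∈ prs (Al T), (Eh c w (x.2 - x.1) - 1) ≤ K ^ 2 * E1) :
    ∑ J ∈ Ty T κ, Wv (primorial w) J ^ n * (1 + 4 * n * dl (primorial w) J) ≤
      (Ty T κ).card + K ^ (∑ t, κ t) * E1 := by
  obtain ⟨m, hm⟩ : ∃ m, m = ∑ t, κ t := ⟨_, rfl⟩
  rw [← hm] at hκ ⊢
  have h1 : ∀ J ∈ Ty T κ, Wv (primorial w) J ^ n * (1 + 4 * n * dl (primorial w) J) ≤
      1 + ∑ x ∈ prs J, (Eh c w (x.2 - x.1) - 1) := by
    intro J hJ
    exact WD_le w n m0 c hc J (by rw [Ty_card_eq T hT κ J hJ, ← hm]; exact hκ)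
  refine (sum_le_sum h1).trans ?_
  rw [Finset.sum_add_distrib, Finset.sum_const, nsmul_eq_mul, mul_one]
  apply add_le_add le_rfl
  have hg0 : ∀ h, 0 ≤ Eh c w h - 1 := fun h => by linarith [Eh_ge c w h]
  rcases Nat.lt_or_ge m 2 with hm2 | hm2
  · have : ∀ J ∈ Ty T κ, ∑ x ∈ prs J, (Eh c w (x.2 - x.1) - 1) = 0 := by
      intro J hJ
      have hJc : J.card < 2 := by rw [Ty_card_eq T hT κ J hJ, ← hm]; exact hm2
      have : prs J = ∅ := by
        unfold prs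
        rw [filter_eq_empty_iff]
        rintro ⟨a, b⟩ hx
        rw [mem_product] at hx
        intro hlt
        have h2 : ({a, b} : Finset ℕ) ⊆ J := by
          intro z hz
          rw [mem_insert, mem_singleton] at hz
          rcases hz with rfl | rfl
          · exact hx.1
          · exact hx.2
        have h3 := card_le_card h2
        rw [card_pair (ne_of_lt hlt)] at h3
        omega
      rw [this, sum_empty]
    rw [Finset.sum_congr rfl this, Finset.sum_const_zero]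
    positivity
  · have hsub : Ty T κ ⊆ powersetCard m (Al T) := by
      intro J hJ
      rw [mem_powersetCard]
      refine ⟨?_, by rw [Ty_card_eq T hT κ J hJ, hm]⟩
      unfold Ty at hJ
      rw [mem_filter, mem_powerset] at hJ
      exact hJ.1
    have h2 : ∑ J ∈ Ty T κ, ∑ x ∈ prs J, (Eh c w (x.2 - x.1) - 1) ≤
        ∑ J ∈ powersetCard m (Al T), ∑ x ∈ prs J, (Eh c w (x.2 - x.1) - 1) :=
      Finset.sum_le_sum_of_subset_of_nonneg hsub (fun J _ _ => sum_nonneg fun x _ => hg0 _)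
    have h3 := Pool.Agent.Q236.ML.sum_prs_le m (Al T) (fun x => Eh c w (x.2 - x.1) - 1) (fun x => hg0 _)
    refine h2.trans (h3.trans ?_)
    calc ((Al T).card : ℝ) ^ (m - 2) * ∑ x ∈ prs (Al T), (Eh c w (x.2 - x.1) - 1) ≤
        K ^ (m - 2) * (K ^ 2 * E1) := by
          apply mul_le_mul
          · exact pow_le_pow_left₀ (Nat.cast_nonneg _) hcard _
          · exact hpair
          · exact sum_nonneg fun x _ => hg0 _
          · positivity
      _ = K ^ (m - 2 + 2) * E1 := by rw [pow_add]; ring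
      _ = _ := by rw [Nat.sub_add_cancel hm2]

/-- `M / φ(M)` for the primorial -/
noncomputable def gP (w : ℕ) : ℝ := (primorial w : ℝ) / (Nat.totient (primorial w) : ℝ)

lemma gP_ge (w : ℕ) : 1 ≤ gP w := by
  unfold gP
  rw [one_le_div (by exact_mod_cast Nat.totient_pos.2 (primorial_pos w))]
  exact_mod_cast Nat.totient_le _

lemma gP_le : ∃ C : ℝ, 0 < C ∧ ∃ B w0 : ℕ, 2 ≤ w0 ∧ ∀ w, w0 ≤ w → gP w ≤ C * Real.log w ^ B := by
  obtain ⟨C, hC, B, T0, hT0, h⟩ := Pool.Agent.W123.RP.prod_one_add_le 2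
  refine ⟨C, hC, B, T0, hT0, fun w hw => ?_⟩
  refine le_trans ?_ (h w hw)
  unfold gP
  rw [ratio_eq _ (primorial_ne_zero w)]
  have e : (primorial w).primeFactors ⊆ pz w := by
    intro p hp
    rw [mem_pz]
    have hpp := Nat.prime_of_mem_primeFactors hp
    refine ⟨?_, hpp⟩
    have h1 := Nat.dvd_of_mem_primeFactors hp
    unfold primorial at h1
    obtain ⟨q, hq, hpq⟩ := (hpp.prime.dvd_finset_prod_iff _).1 h1
    rw [mem_filter, mem_range] at hq
    rw [(Nat.prime_dvd_prime_iff_eq hpp hq.2).1 hpq]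
    omega
  calc ∏ p ∈ (primorial w).primeFactors, (1 - (p : ℝ)⁻¹)⁻¹ ≤ ∏ p ∈ (primorial w).primeFactors, (1 + 2 / (p : ℝ)) := by
        apply Finset.prod_le_prod
        · intro p hp
          linarith [fac_ge p (Nat.prime_of_mem_primeFactors hp)]
        · intro p hp
          exact fac_le p (Nat.prime_of_mem_primeFactors hp)
    _ ≤ ∏ p ∈ pz w, (1 + 2 / (p : ℝ)) := by
        apply Finset.prod_le_prod_of_subset_of_one_le e
        · intro p _
          positivity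
        · intro p _ _
          have : (0 : ℝ) ≤ 2 / p := by positivity
          linarith
    _ = _ := by norm_num

lemma gP_small (n m0 : ℕ) (lam C1 θ δ : ℝ) (hlam : 0 ≤ lam) (hC1 : 0 ≤ C1) (hθ : 0 < θ) (hδ : 0 < δ) :
    ∃ w0 : ℕ, 2 ≤ w0 ∧ ∀ w : ℕ, w0 ≤ w → (1 + lam * gP w ^ n) ^ m0 * (C1 / (w : ℝ) ^ θ) ≤ δ := by
  obtain ⟨C, hC, B, w1, hw1, hg⟩ := gP_le
  obtain ⟨A, hA⟩ : ∃ A : ℝ, A = (1 + lam * C ^ n) ^ m0 * (C1 + 1) := ⟨_, rfl⟩
  have hA0 : 0 < A := by rw [hA]; positivity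
  have h1 := (isLittleO_log_rpow_rpow_atTop ((B * n * m0 : ℕ) : ℝ) hθ).def (show (0 : ℝ) < δ / A by positivity)
  have h2 := (tendsto_natCast_atTop_atTop (R := ℝ)).eventually h1
  have h3 := ev_log_ge 1
  obtain ⟨w2, hw2⟩ := eventually_atTop.1 (h2.and h3)
  refine ⟨max (max w1 w2) 2, by omega, fun w hw => ?_⟩
  have hww1 : w1 ≤ w := by omega
  have hww2 : w2 ≤ w := by omega
  obtain ⟨h4, h5⟩ := hw2 w hww2
  have hw0 : (0 : ℝ) < w := by exact_mod_cast (by omega : 0 < w)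
  have hwθ : (0 : ℝ) < (w : ℝ) ^ θ := Real.rpow_pos_of_pos hw0 θ
  obtain ⟨l, hl⟩ : ∃ l, l = Real.log (w : ℝ) := ⟨_, rfl⟩
  rw [← hl] at h4 h5
  rw [Real.rpow_natCast, Real.norm_eq_abs, Real.norm_eq_abs, abs_of_nonneg (by positivity), abs_of_pos hwθ] at h4
  have h6 := hg w hww1
  rw [← hl] at h6
  have hgp := gP_ge w
  have h7 : (1 + lam * gP w ^ n) ^ m0 ≤ (1 + lam * C ^ n) ^ m0 * l ^ (B * n * m0) := by
    have h8 : 1 + lam * gP w ^ n ≤ (1 + lam * C ^ n) * l ^ (B * n) := by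
      have h9 : gP w ^ n ≤ C ^ n * l ^ (B * n) := by
        calc gP w ^ n ≤ (C * l ^ B) ^ n := pow_le_pow_left₀ (by linarith) h6 n
          _ = _ := by rw [mul_pow, ← pow_mul]
      have h10 : 1 ≤ l ^ (B * n) := one_le_pow₀ h5
      have h11 := mul_le_mul_of_nonneg_left h9 hlam
      nlinarith
    calc (1 + lam * gP w ^ n) ^ m0 ≤ ((1 + lam * C ^ n) * l ^ (B * n)) ^ m0 := by
          apply pow_le_pow_left₀ (by positivity) h8
      _ = _ := by rw [mul_pow, ← pow_mul]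
  have h8 : C1 / (w : ℝ) ^ θ ≤ (C1 + 1) / (w : ℝ) ^ θ := div_le_div_of_nonneg_right (by linarith) hwθ.le
  calc (1 + lam * gP w ^ n) ^ m0 * (C1 / (w : ℝ) ^ θ) ≤
      (1 + lam * C ^ n) ^ m0 * l ^ (B * n * m0) * ((C1 + 1) / (w : ℝ) ^ θ) :=
        mul_le_mul h7 h8 (by positivity) (by positivity)
    _ = A * (l ^ (B * n * m0)) / (w : ℝ) ^ θ := by rw [hA]; ring
    _ ≤ A * (δ / A * (w : ℝ) ^ θ) / (w : ℝ) ^ θ := by
        apply div_le_div_of_nonneg_right _ hwθ.le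
        exact mul_le_mul_of_nonneg_left h4 hA0.le
    _ = δ := by field_simp

end Pool.Agent.Q236.RP
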