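import Pool.Agent.Q236.RP.Corr4
import Pool.Agent.Q236.UL.Typed

set_option autoImplicit false

/-!
# Several polynomials; sums over sets of points
-/

namespace Pool.Agent.Q236.RP

open Finset Filter Polynomial
open Pool.Agent.Q236.UL (Ty Al typed_sum sub_Al)

/-- products of nearby numbers -/
lemma prod_between {n : ℕ} (e u : ℝ) (he : 0 ≤ e) (hu : 0 ≤ u) (x b : Fin n → ℝ) (hx : ∀ i, 0 ≤ x i) (hb : ∀ i, 0 ≤ b i)
    (h1 : ∀ i, (1 - u) * b i ≤ x i) (h2 : ∀ i, x i ≤ (1 + e) * b i) (hn : 1 ≤ n) :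
    |∏ i, x i - ∏ i, b i| ≤ (((1 + e) ^ n - 1) + n * u) * ∏ i, b i := by
  have hB : 0 ≤ ∏ i, b i := prod_nonneg fun j _ => hb j
  have hup : ∏ i, x i ≤ (1 + e) ^ n * ∏ i, b i := by
    have := Finset.prod_le_prod (s := univ) (fun i _ => hx i) (fun i _ => h2 i)
    rwa [Finset.prod_mul_distrib, Finset.prod_const, Finset.card_univ, Fintype.card_fin] at this
  have hlow : (1 - n * u) * ∏ i, b i ≤ ∏ i, x i := by
    rcases le_or_gt u 1 with h | h
    · have h3 := Finset.prod_le_prod (s := univ) (fun i _ => mul_nonneg (by linarith : 0 ≤ 1 - u) (hb i)) (fun i _ => h1 i)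
      rw [Finset.prod_mul_distrib, Finset.prod_const, Finset.card_univ, Fintype.card_fin] at h3
      refine le_trans ?_ h3
      apply mul_le_mul_of_nonneg_right _ hB
      have h4 := one_add_mul_le_pow (show (-2 : ℝ) ≤ -u by linarith) n
      have e1 : (1 : ℝ) + n * -u = 1 - n * u := by ring
      have e2 : (1 : ℝ) + -u = 1 - u := by ring
      rw [e1, e2] at h4
      exact h4
    · have hnr : (1 : ℝ) ≤ n := by exact_mod_cast hn
      have : (1 - n * u) * ∏ i, b i ≤ 0 := by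
        apply mul_nonpos_of_nonpos_of_nonneg _ hB
        nlinarith
      exact this.trans (prod_nonneg fun i _ => hx i)
  have hpow : 1 ≤ (1 + e) ^ n := one_le_pow₀ (by linarith)
  have hnu : 0 ≤ (n : ℝ) * u := by positivity
  rw [abs_le]
  constructor
  · nlinarith
  · nlinarith

lemma exists_e (n : ℕ) (η : ℝ) (hη : 0 < η) : ∃ e : ℝ, 0 < e ∧ (1 + e) ^ n - 1 ≤ η := by
  refine ⟨Real.log (1 + η) / (n + 1), by have := Real.log_pos (show (1 : ℝ) < 1 + η by linarith); positivity, ?_⟩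
  obtain ⟨e, he⟩ : ∃ e : ℝ, e = Real.log (1 + η) / (n + 1) := ⟨_, rfl⟩
  have hlog := Real.log_pos (show (1 : ℝ) < 1 + η by linarith)
  have he0 : 0 < e := by rw [he]; positivity
  rw [← he]
  have h1 : (1 + e) ^ n ≤ Real.exp e ^ n := by
    apply pow_le_pow_left₀ (by linarith)
    have := Real.add_one_le_exp e
    linarith
  have h2 : Real.exp e ^ n ≤ 1 + η := by
    rw [← Real.exp_nat_mul]
    calc Real.exp (n * e) ≤ Real.exp (Real.log (1 + η)) := by
          apply Real.exp_le_exp.2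
          rw [he]
          have hn : (0 : ℝ) ≤ n := Nat.cast_nonneg n
          calc (n : ℝ) * (Real.log (1 + η) / (n + 1)) = (n / (n + 1)) * Real.log (1 + η) := by ring
            _ ≤ 1 * Real.log (1 + η) := by
              apply mul_le_mul_of_nonneg_right _ hlog.le
              rw [div_le_one (by positivity)]
              linarith
            _ = _ := one_mul _
      _ = 1 + η := Real.exp_log (by linarith)
  linarith

variable {n d : ℕ}

/-- the box of the `n`-tuples of coefficient vectors -/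
noncomputable def BoxN (Z : Fin n → Fin d → ℤ) (Y : Fin n → Fin d → ℕ) : Finset (Fin n → Fin d → ℤ) :=
  Fintype.piFinset fun i => Box (Z i) (Y i)

/-- the indicator function for `n` polynomials -/
noncomputable def FN (f : Fin n → ℕ → ℤ) (M : ℕ) (a : Fin n → Fin d → ℤ) (S : Finset ℕ)
    (c : Fin n → Fin d → ℤ) : ℝ := ∏ i, Fu (f i) M (a i) S (c i)

lemma FN_sum (f : Fin n → ℕ → ℤ) (M : ℕ) (a : Fin n → Fin d → ℤ) (S : Finset ℕ)
    (Z : Fin n → Fin d → ℤ) (Y : Fin n → Fin d → ℕ) :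
    ∑ c ∈ BoxN Z Y, FN f M a S c = ∏ i, ∑ c ∈ Box (Z i) (Y i), Fu (f i) M (a i) S c := by
  unfold BoxN FN
  rw [Finset.prod_univ_sum]

/-- **The correlations for `n` polynomials** -/
theorem corrN (hn : 1 ≤ n) (C M : ℕ) (hM : 1 ≤ M) (m : ℕ) (hm : m ≤ d) (η : ℝ) (hη : 0 < η) : ∀ᶠ X : ℕ in atTop,
    ∀ (f : Fin n → ℕ → ℤ) (Z : Fin n → Fin d → ℤ) (Y : Fin n → Fin d → ℕ) (S : Finset ℕ) (a : Fin n → Fin d → ℤ),
    (∀ i, SZ C X (f i) (Z i) (Y i) S) → S.card = m →
    (∀ i, ∀ k ∈ S, IsCoprime (ev (f i) (a i) k) (M : ℤ)) →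
    |∑ c ∈ BoxN Z Y, FN f M a S c - (wt M S / Real.log X ^ m) ^ n * ∑ c ∈ BoxN Z Y, FN f M a ∅ c| ≤
      (η + 4 * n * dl M S) * ((wt M S / Real.log X ^ m) ^ n * ∑ c ∈ BoxN Z Y, FN f M a ∅ c) := by
  obtain ⟨e, he, hen⟩ := exists_e n (η / 2) (by positivity)
  have hnr : (0 : ℝ) < n := by exact_mod_cast hn
  filter_upwards [corrU (d := d) C M hM m hm e he, corrL (d := d) C M hM m hm (η / (2 * n)) (by positivity), ev_log_ge 1]
    with X h1 h2 hL f Z Y S a hsz hS hcop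
  have hW : 0 ≤ wt M S / Real.log X ^ m := by
    have := wt_ge M hM S
    positivity
  have hdl := dl_nonneg M S
  have h3 := prod_between e (η / (2 * n) + 4 * dl M S) he.le (by positivity)
    (fun i => ∑ c ∈ Box (Z i) (Y i), Fu (f i) M (a i) S c)
    (fun i => wt M S / Real.log X ^ m * ∑ c ∈ Box (Z i) (Y i), Fu (f i) M (a i) ∅ c)
    (fun i => sum_nonneg fun c _ => Fu_nonneg _ _ _ _ _)
    (fun i => mul_nonneg hW (sum_nonneg fun c _ => Fu_nonneg _ _ _ _ _))
    (fun i => by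
      have h4 := h2 (f i) (Z i) (Y i) S (a i) (hsz i) hS (hcop i)
      have e1 : 1 - (η / (2 * n) + 4 * dl M S) = 1 - η / (2 * n) - 4 * dl M S := by ring
      rw [e1]
      exact h4)
    (fun i => h1 (f i) (Z i) (Y i) S (a i) (hsz i) hS) hn
  rw [Finset.prod_mul_distrib, Finset.prod_const, Finset.card_univ, Fintype.card_fin] at h3
  rw [FN_sum, FN_sum]
  refine h3.trans ?_
  apply mul_le_mul_of_nonneg_right
  · have e1 : (n : ℝ) * (η / (2 * n) + 4 * dl M S) = η / 2 + 4 * n * dl M S := by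
      field_simp
    rw [e1]
    linarith
  · exact mul_nonneg (by positivity) (prod_nonneg fun i _ => sum_nonneg fun c _ => Fu_nonneg _ _ _ _ _)

open Classical in
lemma FN_eq (f : Fin n → ℕ → ℤ) (M : ℕ) (a : Fin n → Fin d → ℤ) (S : Finset ℕ) (c : Fin n → Fin d → ℤ) :
    FN f M a S c = if (∀ i, Cl M (a i) (c i)) ∧ (∀ i, Pr (f i) S (c i)) then 1 else 0 := by
  unfold FN Fu
  by_cases h : (∀ i, Cl M (a i) (c i)) ∧ (∀ i, Pr (f i) S (c i))
  · rw [if_pos h]
    exact prod_eq_one fun i _ => if_pos ⟨h.1 i, h.2 i⟩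
  · rw [if_neg h]
    have : ∃ i, ¬(Cl M (a i) (c i) ∧ Pr (f i) S (c i)) := by
      by_contra hcon
      push Not at hcon
      exact h ⟨fun i => (hcon i).1, fun i => (hcon i).2⟩
    obtain ⟨i, hi⟩ := this
    exact prod_eq_zero (mem_univ i) (if_neg hi)

lemma FN_nonneg (f : Fin n → ℕ → ℤ) (M : ℕ) (a : Fin n → Fin d → ℤ) (S : Finset ℕ) (c : Fin n → Fin d → ℤ) :
    0 ≤ FN f M a S c := prod_nonneg fun i _ => Fu_nonneg _ _ _ _ _

/-- all the values at `k` are primes -/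
def PrA (f : Fin n → ℕ → ℤ) (c : Fin n → Fin d → ℤ) (k : ℕ) : Prop := ∀ i, (ev (f i) (c i) k).toNat.Prime

open Classical in
/-- the number of the points of `T` at which all the values are primes -/
noncomputable def Np (f : Fin n → ℕ → ℤ) (T : Finset ℕ) (c : Fin n → Fin d → ℤ) : ℕ :=
  (T.filter (fun k => PrA f c k)).card

open Classical in
/-- the points of `T` at which all the values are prime to `M` -/
noncomputable def Sv (f : Fin n → ℕ → ℤ) (M : ℕ) (c : Fin n → Fin d → ℤ) (T : Finset ℕ) : Finset ℕ :=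
  T.filter (fun k => ∀ i, IsCoprime (ev (f i) (c i) k) (M : ℤ))

lemma Sv_cl (f : Fin n → ℕ → ℤ) (M : ℕ) (a c : Fin n → Fin d → ℤ) (h : ∀ i, Cl M (a i) (c i)) (T : Finset ℕ) :
    Sv f M c T = Sv f M a T := by
  unfold Sv
  ext k
  rw [mem_filter, mem_filter]
  apply and_congr_right
  intro _
  apply forall_congr'
  intro i
  obtain ⟨z, hz⟩ := ev_cl (f i) M (c i) (a i) (h i) k
  have e : ev (f i) (c i) k = ev (f i) (a i) k + M * z := by linarith
  rw [e, IsCoprime.add_mul_left_left_iff]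

open Classical in
lemma choose_prime (f : Fin n → ℕ → ℤ) (T : Finset ℕ) (c : Fin n → Fin d → ℤ) (k : ℕ) :
    ∑ J ∈ powersetCard k T, ∏ i ∈ J, (if PrA f c i then (1 : ℝ) else 0) = ((Np f T c).choose k : ℝ) := by
  have h1 : ∀ J ∈ powersetCard k T, ∏ i ∈ J, (if PrA f c i then (1 : ℝ) else 0) =
      if (∀ i ∈ J, PrA f c i) then 1 else 0 := by
    intro J _
    by_cases h : ∀ i ∈ J, PrA f c i
    · rw [if_pos h]
      exact prod_eq_one fun i hi => if_pos (h i hi)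
    · rw [if_neg h]
      push Not at h
      obtain ⟨i, hi, h2⟩ := h
      exact prod_eq_zero hi (if_neg h2)
  rw [Finset.sum_congr rfl h1, ← Finset.sum_filter, Finset.sum_const, nsmul_eq_mul, mul_one]
  unfold Np
  rw [← Finset.card_powersetCard]
  congr 2
  ext J
  rw [mem_filter, mem_powersetCard, mem_powersetCard]
  constructor
  · rintro ⟨⟨h1, h2⟩, h3⟩
    exact ⟨fun i hi => mem_filter.2 ⟨h1 hi, h3 i hi⟩, h2⟩
  · rintro ⟨h1, h2⟩
    exact ⟨⟨fun i hi => (mem_filter.1 (h1 hi)).1, h2⟩, fun i hi => (mem_filter.1 (h1 hi)).2⟩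

variable {τ : Type*} [Fintype τ] [DecidableEq τ]

open Classical in
/-- the joint binomial moments over a residue class -/
lemma moment_sum (f : Fin n → ℕ → ℤ) (M : ℕ) (a : Fin n → Fin d → ℤ) (T : τ → Finset ℕ)
    (hT : ∀ t u, t ≠ u → Disjoint (T t) (T u)) (κ : τ → ℕ) (Z : Fin n → Fin d → ℤ) (Y : Fin n → Fin d → ℕ) :
    ∑ c ∈ (BoxN Z Y).filter (fun c => ∀ i, Cl M (a i) (c i)), ∏ t, ((Np f (T t) c).choose (κ t) : ℝ) =
      ∑ J ∈ Ty T κ, ∑ c ∈ BoxN Z Y, FN f M a J c := by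
  have h1 : ∀ c ∈ (BoxN Z Y).filter (fun c => ∀ i, Cl M (a i) (c i)), ∏ t, ((Np f (T t) c).choose (κ t) : ℝ) =
      ∑ J ∈ Ty T κ, FN f M a J c := by
    intro c hc
    rw [mem_filter] at hc
    rw [Finset.prod_congr rfl (fun t _ => (choose_prime f (T t) c (κ t)).symm), ← typed_sum T hT κ]
    apply Finset.sum_congr rfl
    intro J _
    rw [FN_eq]
    by_cases h : ∀ i ∈ J, PrA f c i
    · rw [if_pos ⟨hc.2, fun i k hk => h k hk i⟩]
      exact prod_eq_one fun i hi => if_pos (h i hi)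
    · rw [if_neg (fun h2 => h (fun k hk i => h2.2 i k hk))]
      push Not at h
      obtain ⟨i, hi, h2⟩ := h
      exact prod_eq_zero hi (if_neg h2)
  rw [Finset.sum_congr rfl h1, Finset.sum_comm]
  apply Finset.sum_congr rfl
  intro J _
  apply Finset.sum_subset (filter_subset _ _)
  intro c hc hc2
  rw [FN_eq]
  apply if_neg
  intro h2
  exact hc2 (mem_filter.2 ⟨hc, h2.1⟩)

/-- the sets with a point at which some value is not prime to `M` do not contribute -/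
lemma FN_zero (f : Fin n → ℕ → ℤ) (M : ℕ) (hM : 1 ≤ M) (a : Fin n → Fin d → ℤ) (J : Finset ℕ)
    (Z : Fin n → Fin d → ℤ) (Y : Fin n → Fin d → ℕ) (k : ℕ) (hk : k ∈ J)
    (hbig : ∀ i, ∀ c ∈ Box (Z i) (Y i), (M : ℤ) < ev (f i) c k)
    (hns : ¬∀ i, IsCoprime (ev (f i) (a i) k) (M : ℤ)) : ∑ c ∈ BoxN Z Y, FN f M a J c = 0 := by
  push Not at hns
  obtain ⟨i, hi⟩ := hns
  rw [FN_sum]
  apply prod_eq_zero (mem_univ i)
  apply sum_eq_zero
  intro c hc
  unfold Fu
  rw [if_neg]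
  rintro ⟨h1, h2⟩
  apply hi
  have h3 := h2 k hk
  have h4 := hbig i c hc
  have h0 : 0 ≤ ev (f i) c k := by
    have : (0 : ℤ) ≤ M := Int.natCast_nonneg M
    linarith
  have hA : (((ev (f i) c k).toNat : ℕ) : ℤ) = ev (f i) c k := Int.toNat_of_nonneg h0
  obtain ⟨z, hz⟩ := ev_cl (f i) M c (a i) h1 k
  have e : ev (f i) (a i) k = ev (f i) c k + M * (-z) := by linarith
  rw [e, IsCoprime.add_mul_left_left_iff, ← hA, Nat.isCoprime_iff_coprime, h3.coprime_iff_not_dvd]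
  intro hdvd
  have h5 := Nat.le_of_dvd hM hdvd
  rw [← hA] at h4
  have h6 : M < (ev (f i) c k).toNat := by exact_mod_cast h4
  omega

lemma Ty_mono (T T' : τ → Finset ℕ) (hT : ∀ t, T' t ⊆ T t) (hd : ∀ t u, t ≠ u → Disjoint (T t) (T u)) (κ : τ → ℕ) :
    Ty T' κ = (Ty T κ).filter (fun J => J ⊆ Al T') := by
  ext J
  unfold Ty
  rw [mem_filter, mem_filter, mem_filter, mem_powerset, mem_powerset]
  have hAl : Al T' ⊆ Al T := by
    unfold Al
    exact biUnion_mono fun t _ => hT t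
  have key : J ⊆ Al T' → ∀ t, J ∩ T' t = J ∩ T t := by
    intro hJ t
    ext x
    rw [mem_inter, mem_inter]
    constructor
    · rintro ⟨h1, h2⟩
      exact ⟨h1, hT t h2⟩
    · rintro ⟨h1, h2⟩
      refine ⟨h1, ?_⟩
      have h3 := hJ h1
      unfold Al at h3
      rw [mem_biUnion] at h3
      obtain ⟨u, _, hu⟩ := h3
      by_cases htu : t = u
      · rw [htu]; exact hu
      · exact absurd (hT u hu) (Finset.disjoint_left.1 (hd t u htu) h2)
  constructor
  · rintro ⟨h1, h2⟩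
    refine ⟨⟨h1.trans hAl, fun t => ?_⟩, h1⟩
    rw [← key h1 t]
    exact h2 t
  · rintro ⟨⟨_, h2⟩, h3⟩
    refine ⟨h3, fun t => ?_⟩
    rw [key h3 t]
    exact h2 t

/-- the moments as sums over the sets of surviving points -/
lemma moment_sum2 (f : Fin n → ℕ → ℤ) (M : ℕ) (hM : 1 ≤ M) (a : Fin n → Fin d → ℤ) (T : τ → Finset ℕ)
    (hT : ∀ t u, t ≠ u → Disjoint (T t) (T u)) (κ : τ → ℕ) (Z : Fin n → Fin d → ℤ) (Y : Fin n → Fin d → ℕ)
    (hbig : ∀ k ∈ Al T, ∀ i, ∀ c ∈ Box (Z i) (Y i), (M : ℤ) < ev (f i) c k) :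
    ∑ J ∈ Ty T κ, ∑ c ∈ BoxN Z Y, FN f M a J c =
      ∑ J ∈ Ty (fun t => Sv f M a (T t)) κ, ∑ c ∈ BoxN Z Y, FN f M a J c := by
  rw [Ty_mono T (fun t => Sv f M a (T t)) (fun t => by unfold Sv; exact filter_subset _ _) hT κ, Finset.sum_filter]
  apply Finset.sum_congr rfl
  intro J hJ
  by_cases h : J ⊆ Al (fun t => Sv f M a (T t))
  · rw [if_pos h]
  · rw [if_neg h]
    rw [Finset.not_subset] at h
    obtain ⟨k, hk, hk2⟩ := h
    have hJ1 : J ⊆ Al T := by
      unfold Ty at hJ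
      rw [mem_filter, mem_powerset] at hJ
      exact hJ.1
    have hkT := hJ1 hk
    apply FN_zero f M hM a J Z Y k hk (hbig k hkT)
    intro hcop
    apply hk2
    unfold Al at hkT ⊢
    rw [mem_biUnion] at hkT ⊢
    obtain ⟨t, ht, hkt⟩ := hkT
    refine ⟨t, ht, ?_⟩
    unfold Sv
    rw [mem_filter]
    exact ⟨hkt, hcop⟩

end Pool.Agent.Q236.RP
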