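import Pool.Agent.Q236.RP.Law

set_option autoImplicit false

/-!
# The joint moments on a residue class
-/

namespace Pool.Agent.Q236.RP

open Finset Filter Polynomial
open Pool.Agent.TH464.PO (prs)
open Pool.Agent.Q236.UL (Ty Al typed_sum sub_Al union_inter prod_close)
open Pool.Agent.Q236.ML (choose_near)

variable {n : ℕ} {τ : Type*} [Fintype τ] [DecidableEq τ]

/-- the numerical part: from bounds for the sums over typed sets to the moments of a Poisson law -/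
lemma mom_num (R m0 : ℕ) (T : τ → Finset ℕ) (hT : ∀ t u, t ≠ u → Disjoint (T t) (T u)) (κ : τ → ℕ)
    (hκR : ∀ t, κ t ≤ R) (hm0 : ∑ t, κ t ≤ m0) (ρ K Lw E1 e N S SW SD : ℝ) (hρ : 0 < ρ) (hK : 0 ≤ K) (hE1 : 0 ≤ E1)
    (hSD : 0 ≤ SD)
    (he : 0 ≤ e) (he1 : e ≤ 1) (hN : 0 ≤ N) (hLw : 0 ≤ Lw) (hρK : ρ * K ≤ Lw) (hTK : ∀ t, ((T t).card : ℝ) ≤ K)
    (hSW : SW + SD ≤ (Ty T κ).card + K ^ (∑ t, κ t) * E1) (hSW2 : ((Ty T κ).card : ℝ) ≤ SW)
    (hS : |S - ρ ^ (∑ t, κ t) * SW * N| ≤ e * (ρ ^ (∑ t, κ t) * SW * N) + ρ ^ (∑ t, κ t) * SD * N) :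
    |S - N * ∏ t, ((ρ * ((T t).card : ℝ)) ^ κ t / (κ t).factorial)| ≤
      (2 * (e * (1 + Lw) ^ m0) + 3 * ((1 + Lw) ^ m0 * E1) + 2 * (e * ((1 + Lw) ^ m0 * E1)) +
        Fintype.card τ * ((1 + Lw) ^ R) ^ Fintype.card τ * ((R : ℝ) ^ 2 * ρ * (1 + Lw) ^ R)) * N := by
  obtain ⟨m, hm⟩ : ∃ m, m = ∑ t, κ t := ⟨_, rfl⟩
  rw [← hm] at hm0 hSW hS
  obtain ⟨B, hB⟩ : ∃ B, B = (1 + Lw) ^ m0 := ⟨_, rfl⟩
  have hB1 : 1 ≤ B := by rw [hB]; exact one_le_pow₀ (by linarith)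
  have hρK0 : 0 ≤ ρ * K := by positivity
  have hρKm : (ρ * K) ^ m ≤ B := by
    calc (ρ * K) ^ m ≤ (1 + Lw) ^ m := pow_le_pow_left₀ hρK0 (by linarith) m
      _ ≤ (1 + Lw) ^ m0 := pow_le_pow_right₀ (by linarith) hm0
      _ = B := hB.symm
  obtain ⟨Q, hQ⟩ : ∃ Q, Q = ρ ^ m * ((Ty T κ).card : ℝ) := ⟨_, rfl⟩
  have hQ0 : 0 ≤ Q := by rw [hQ]; positivity
  have hQe : Q = ∏ t, (ρ ^ κ t * ((T t).card.choose (κ t) : ℝ)) := by
    rw [hQ, Ty_num T hT κ, Finset.prod_mul_distrib, Finset.prod_pow_eq_pow_sum, ← hm]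
  have hchoose : ∀ t, ((T t).card.choose (κ t) : ℝ) ≤ ((T t).card : ℝ) ^ κ t := by
    intro t
    exact_mod_cast Nat.choose_le_pow (T t).card (κ t)
  have hQB : Q ≤ B := by
    rw [hQe]
    calc ∏ t, (ρ ^ κ t * ((T t).card.choose (κ t) : ℝ)) ≤ ∏ t, (ρ * K) ^ κ t := by
          apply Finset.prod_le_prod
          · intro t _
            positivity
          · intro t _
            rw [mul_pow]
            apply mul_le_mul_of_nonneg_left _ (by positivity)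
            exact (hchoose t).trans (pow_le_pow_left₀ (Nat.cast_nonneg _) (hTK t) _)
      _ = (ρ * K) ^ m := by rw [Finset.prod_pow_eq_pow_sum, ← hm]
      _ ≤ B := hρKm
  -- the main sum
  have h1 : ρ ^ m * SW ≤ Q + B * E1 := by
    have h2 := mul_le_mul_of_nonneg_left (show SW ≤ (Ty T κ).card + K ^ m * E1 by linarith)
      (show 0 ≤ ρ ^ m by positivity)
    have h3 : ρ ^ m * (K ^ m * E1) = (ρ * K) ^ m * E1 := by rw [mul_pow]; ring
    rw [mul_add, h3, ← hQ] at h2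
    have h4 := mul_le_mul_of_nonneg_right hρKm hE1
    linarith
  have h1' : ρ ^ m * SD ≤ B * E1 := by
    have h2 := mul_le_mul_of_nonneg_left (show SD ≤ K ^ m * E1 by linarith) (show 0 ≤ ρ ^ m by positivity)
    have h3 : ρ ^ m * (K ^ m * E1) = (ρ * K) ^ m * E1 := by rw [mul_pow]; ring
    rw [h3] at h2
    have h4 := mul_le_mul_of_nonneg_right hρKm hE1
    linarith
  have h2 : Q ≤ ρ ^ m * SW := by
    rw [hQ]
    exact mul_le_mul_of_nonneg_left hSW2 (by positivity)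
  have h3 : |S - Q * N| ≤ (2 * (e * B) + 3 * (B * E1) + 2 * (e * (B * E1))) * N := by
    have h4 := abs_le.1 hS
    have h12 : ρ ^ m * SD * N ≤ B * E1 * N := mul_le_mul_of_nonneg_right h1' hN
    have h5 : ρ ^ m * SW * N ≤ (Q + B * E1) * N := mul_le_mul_of_nonneg_right h1 hN
    have h6 : Q * N ≤ ρ ^ m * SW * N := mul_le_mul_of_nonneg_right h2 hN
    have h7 : e * (ρ ^ m * SW * N) ≤ e * ((Q + B * E1) * N) := mul_le_mul_of_nonneg_left h5 he
    have h8 : e * (Q * N) ≤ e * (B * N) := by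
      apply mul_le_mul_of_nonneg_left _ he
      exact mul_le_mul_of_nonneg_right hQB hN
    have h9 : 0 ≤ B * E1 * N := by positivity
    have h10 : 0 ≤ e * (B * E1 * N) := by positivity
    have h11 : 0 ≤ e * (B * N) := by positivity
    rw [abs_le]
    constructor
    · nlinarith [h4.1]
    · nlinarith [h4.2]
  -- the Poisson moments
  have h4 : |Q - ∏ t, ((ρ * ((T t).card : ℝ)) ^ κ t / (κ t).factorial)| ≤
      Fintype.card τ * ((1 + Lw) ^ R) ^ Fintype.card τ * ((R : ℝ) ^ 2 * ρ * (1 + Lw) ^ R) := by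
    rw [hQe]
    have hx : ∀ t, ρ * ((T t).card : ℝ) ≤ 1 + Lw := by
      intro t
      have := mul_le_mul_of_nonneg_left (hTK t) hρ.le
      linarith
    have hx0 : ∀ t, 0 ≤ ρ * ((T t).card : ℝ) := fun t => by positivity
    have hpow : ∀ t, ∀ j, j ≤ R → (ρ * ((T t).card : ℝ)) ^ j ≤ (1 + Lw) ^ R := by
      intro t j hj
      calc (ρ * ((T t).card : ℝ)) ^ j ≤ (1 + Lw) ^ j := pow_le_pow_left₀ (hx0 t) (hx t) j
        _ ≤ (1 + Lw) ^ R := pow_le_pow_right₀ (by linarith) hj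
    apply prod_close univ _ _ ((1 + Lw) ^ R) _ (one_le_pow₀ (by linarith))
    · intro t _
      rw [abs_of_nonneg (by positivity)]
      calc ρ ^ κ t * ((T t).card.choose (κ t) : ℝ) ≤ ρ ^ κ t * ((T t).card : ℝ) ^ κ t :=
            mul_le_mul_of_nonneg_left (hchoose t) (by positivity)
        _ = (ρ * ((T t).card : ℝ)) ^ κ t := (mul_pow _ _ _).symm
        _ ≤ _ := hpow t _ (hκR t)
    · intro t _
      rw [abs_of_nonneg (by positivity)]
      refine le_trans (div_le_self (by positivity) ?_) (hpow t _ (hκR t))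
      exact_mod_cast Nat.factorial_pos (κ t)
    · intro t _
      have h5 := choose_near (T t).card (κ t)
      have e1 : ρ ^ κ t * ((T t).card.choose (κ t) : ℝ) - (ρ * ((T t).card : ℝ)) ^ κ t / (κ t).factorial =
          ρ ^ κ t * (((T t).card.choose (κ t) : ℝ) - ((T t).card : ℝ) ^ κ t / (κ t).factorial) := by
        rw [mul_pow]
        ring
      rw [e1, abs_mul, abs_of_nonneg (by positivity : (0 : ℝ) ≤ ρ ^ κ t)]
      refine (mul_le_mul_of_nonneg_left h5 (by positivity)).trans ?_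
      rcases Nat.eq_zero_or_pos (κ t) with h0 | h0
      · rw [h0]
        simp only [Nat.cast_zero]
        have : (0 : ℝ) ≤ (R : ℝ) ^ 2 * ρ * (1 + Lw) ^ R := by positivity
        simpa using this
      · have e2 : ρ ^ κ t * ((κ t : ℝ) ^ 2 * ((T t).card : ℝ) ^ (κ t - 1)) =
            (κ t : ℝ) ^ 2 * ρ * (ρ * ((T t).card : ℝ)) ^ (κ t - 1) := by
          rw [mul_pow]
          have : ρ ^ κ t = ρ * ρ ^ (κ t - 1) := by
            rw [← pow_succ']
            congr 1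
            omega
          rw [this]
          ring
        rw [e2]
        have hk2 : (κ t : ℝ) ^ 2 ≤ (R : ℝ) ^ 2 := by
          apply pow_le_pow_left₀ (Nat.cast_nonneg _)
          exact_mod_cast hκR t
        apply mul_le_mul _ (hpow t _ (by have := hκR t; omega)) (by positivity) (by positivity)
        exact mul_le_mul_of_nonneg_right hk2 hρ.le
  have h5 : |Q * N - N * ∏ t, ((ρ * ((T t).card : ℝ)) ^ κ t / (κ t).factorial)| ≤
      Fintype.card τ * ((1 + Lw) ^ R) ^ Fintype.card τ * ((R : ℝ) ^ 2 * ρ * (1 + Lw) ^ R) * N := by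
    rw [mul_comm Q N, ← mul_sub, abs_mul, abs_of_nonneg hN, mul_comm]
    exact mul_le_mul_of_nonneg_right h4 hN
  calc |S - N * ∏ t, ((ρ * ((T t).card : ℝ)) ^ κ t / (κ t).factorial)| ≤
      |S - Q * N| + |Q * N - N * ∏ t, ((ρ * ((T t).card : ℝ)) ^ κ t / (κ t).factorial)| := abs_sub_le _ _ _
    _ ≤ (2 * (e * B) + 3 * (B * E1) + 2 * (e * (B * E1))) * N +
        Fintype.card τ * ((1 + Lw) ^ R) ^ Fintype.card τ * ((R : ℝ) ^ 2 * ρ * (1 + Lw) ^ R) * N := add_le_add h3 h5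
    _ = _ := by rw [hB]; ring

/-- the expected number: `#(surviving points) * (M / (φ(M) log X)) ^ n` -/
noncomputable def xp {d : ℕ} (f : Fin n → ℕ → ℤ) (w X : ℕ) (T : Finset ℕ) (c : Fin n → Fin d → ℤ) : ℝ :=
  (gP w / Real.log X) ^ n * ((Sv f (primorial w) c T).card : ℝ)

/-- the class of `a` -/
noncomputable def OmN {d : ℕ} (w : ℕ) (Z : Fin n → Fin d → ℤ) (Y : Fin n → Fin d → ℕ) (a : Fin n → Fin d → ℤ) :
    Finset (Fin n → Fin d → ℤ) :=
  open Classical in (BoxN Z Y).filter (fun c => ∀ i, Cl (primorial w) (a i) (c i))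

lemma OmN_card {d : ℕ} (f : Fin n → ℕ → ℤ) (w : ℕ) (Z : Fin n → Fin d → ℤ) (Y : Fin n → Fin d → ℕ)
    (a : Fin n → Fin d → ℤ) : ((OmN w Z Y a).card : ℝ) = ∑ c ∈ BoxN Z Y, FN f (primorial w) a ∅ c := by
  classical
  rw [Finset.sum_congr rfl (fun c _ => FN_eq f (primorial w) a ∅ c), ← Finset.sum_filter, Finset.sum_const,
    nsmul_eq_mul, mul_one]
  congr 2
  unfold OmN
  ext c
  rw [mem_filter, mem_filter]
  apply and_congr_right
  intro _
  constructor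
  · intro h
    exact ⟨h, fun i k hk => absurd hk (notMem_empty k)⟩
  · rintro ⟨h, _⟩
    exact h

/-- the families of sets of points: `SS X B` implies that `B` has at most `lam log^n X` elements, whose differences
have few large common prime factors with the integers -/
def Few (n : ℕ) (lam : ℝ) (SS : ℕ → Finset ℕ → Prop) : Prop :=
  ∀ c : ℕ, ∃ C1 θ : ℝ, 0 ≤ C1 ∧ 0 < θ ∧ ∀ w : ℕ, 1 ≤ w → ∀ᶠ X : ℕ in atTop, ∀ B : Finset ℕ, SS X B →
    (B.card : ℝ) ≤ lam * Real.log X ^ n ∧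
    ∑ x ∈ prs B, (Eh c w (x.2 - x.1) - 1) ≤ (lam * Real.log X ^ n) ^ 2 * (C1 / (w : ℝ) ^ θ)

/-- **The joint moments on a residue class** -/
theorem mom_class (hn : 1 ≤ n) (m0 : ℕ) (lam η0 : ℝ) (hlam : 0 ≤ lam) (hη0 : 0 < η0) (SS : ℕ → Finset ℕ → Prop)
    (hSS : Few n lam SS) : ∃ w0 : ℕ, 2 ≤ w0 ∧
    ∀ w : ℕ, w0 ≤ w → ∀ C d : ℕ, m0 ≤ d → ∀ᶠ X : ℕ in atTop,
    ∀ (f : Fin n → ℕ → ℤ) (Z : Fin n → Fin d → ℤ) (Y : Fin n → Fin d → ℕ) (T : τ → Finset ℕ),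
    (∀ t u, t ≠ u → Disjoint (T t) (T u)) → SS X (Al T) →
    (∀ i, SZ C X (f i) (Z i) (Y i) (Al T)) → ∀ a : Fin n → Fin d → ℤ, ∀ κ : τ → ℕ, (∑ t, κ t ≤ m0) →
    |∑ c ∈ OmN w Z Y a, ∏ t, ((Np f (T t) c).choose (κ t) : ℝ) -
      (OmN w Z Y a).card * ∏ t, (xp f w X (T t) a ^ κ t / (κ t).factorial)| ≤ η0 * (OmN w Z Y a).card := by
  obtain ⟨s, hs⟩ : ∃ s, s = Fintype.card τ := ⟨_, rfl⟩
  obtain ⟨R, hR⟩ : ∃ R : ℕ, R = m0 := ⟨_, rfl⟩
  obtain ⟨c, hc⟩ : ∃ c : ℕ, c = 3 ^ (3 * n * m0 ^ 2) := ⟨_, rfl⟩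
  obtain ⟨C1, θ, hC1, hθ, hSSc⟩ := hSS c
  obtain ⟨w0, hw02, hw0⟩ := gP_small n m0 lam C1 θ (η0 / 16) hlam hC1 hθ (by positivity)
  refine ⟨w0, hw02, ?_⟩
  intro w hw C d hd
  have hE1 := hw0 w hw
  obtain ⟨E1, hE1d⟩ : ∃ E1 : ℝ, E1 = C1 / (w : ℝ) ^ θ := ⟨_, rfl⟩
  have hE10 : 0 ≤ E1 := by
    rw [hE1d]
    positivity
  obtain ⟨Lw, hLw⟩ : ∃ Lw : ℝ, Lw = lam * gP w ^ n := ⟨_, rfl⟩
  have hgp := gP_ge w
  have hLw0 : 0 ≤ Lw := by rw [hLw]; positivity
  rw [← hLw, ← hE1d] at hE1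
  obtain ⟨B, hB⟩ : ∃ B, B = (1 + Lw) ^ m0 := ⟨_, rfl⟩
  have hB1 : 1 ≤ B := by rw [hB]; exact one_le_pow₀ (by linarith)
  rw [← hB] at hE1
  obtain ⟨e, he⟩ : ∃ e : ℝ, e = min 1 (η0 / (8 * B)) := ⟨_, rfl⟩
  have he0 : 0 < e := by rw [he]; positivity
  have he1 : e ≤ 1 := by rw [he]; exact min_le_left _ _
  have heB : e * B ≤ η0 / 8 := by
    have : e ≤ η0 / (8 * B) := by rw [he]; exact min_le_right _ _
    calc e * B ≤ η0 / (8 * B) * B := mul_le_mul_of_nonneg_right this (by linarith)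
      _ = η0 / 8 := by field_simp
  obtain ⟨G, hG⟩ : ∃ G : ℝ, G = (s : ℝ) * ((1 + Lw) ^ R) ^ s * ((R : ℝ) ^ 2 * (1 + Lw) ^ R) := ⟨_, rfl⟩
  have hG0 : 0 ≤ G := by rw [hG]; positivity
  have hcorr : ∀ᶠ X : ℕ in atTop, ∀ m ∈ range (m0 + 1),
      ∀ (f : Fin n → ℕ → ℤ) (Z : Fin n → Fin d → ℤ) (Y : Fin n → Fin d → ℕ) (S : Finset ℕ) (a : Fin n → Fin d → ℤ),
      (∀ i, SZ C X (f i) (Z i) (Y i) S) → S.card = m →
      (∀ i, ∀ k ∈ S, IsCoprime (ev (f i) (a i) k) ((primorial w : ℕ) : ℤ)) →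
      |∑ c ∈ BoxN Z Y, FN f (primorial w) a S c -
        (wt (primorial w) S / Real.log X ^ m) ^ n * ∑ c ∈ BoxN Z Y, FN f (primorial w) a ∅ c| ≤
      (e + 4 * n * dl (primorial w) S) *
        ((wt (primorial w) S / Real.log X ^ m) ^ n * ∑ c ∈ BoxN Z Y, FN f (primorial w) a ∅ c) := by
    rw [Filter.eventually_all_finset]
    intro m hm
    rw [mem_range] at hm
    exact corrN hn C (primorial w) (primorial_pos w) m (by omega) e he0
  filter_upwards [hcorr, ev_log_ge 1, ev_log_ge (gP w), ev_log_ge (gP w * (4 * G / η0 + 1)),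
    ev_log_ge ((primorial w : ℕ) + 1 : ℝ), ev_pow_log (C + 1), hSSc w (by omega)] with X hX1 hX2 hX3 hX4 hX5 hX6 hX7
    f Z Y T hT hST hsz a κ hκm
  obtain ⟨hTcard0, hpair⟩ := hX7 (Al T) hST
  obtain ⟨L, hL⟩ : ∃ L, L = Real.log (X : ℝ) := ⟨_, rfl⟩
  rw [← hL] at hX2 hX3 hX4 hX5 hX6 hTcard0 hpair
  have hL0 : 0 < L := by linarith
  obtain ⟨K, hK⟩ : ∃ K, K = lam * L ^ n := ⟨_, rfl⟩
  have hK0 : 0 ≤ K := by rw [hK]; positivity
  rw [← hK] at hTcard0 hpair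
  rw [← hE1d] at hpair
  obtain ⟨ρ, hρ⟩ : ∃ ρ, ρ = (gP w / L) ^ n := ⟨_, rfl⟩
  have hρ0 : 0 < ρ := by rw [hρ]; positivity
  have hκ : ∀ t, κ t ≤ R := by
    intro t
    rw [hR]
    exact (Finset.single_le_sum (f := κ) (fun t _ => Nat.zero_le _) (mem_univ t)).trans hκm
  -- the size of the values
  have hbig : ∀ k ∈ Al T, ∀ i, ∀ c ∈ Box (Z i) (Y i), ((primorial w : ℕ) : ℤ) < ev (f i) c k := by
    intro k hk i c hc
    have h1 := (hsz i).lo k hk c hc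
    rw [← hL] at h1
    have h2 : L ≤ (X : ℝ) / L ^ C := by
      rw [le_div_iff₀ (by positivity)]
      calc L * L ^ C = L ^ (C + 1) := by ring
        _ ≤ X := hX6
    have h3 : ((primorial w : ℕ) : ℝ) < (ev (f i) c k : ℝ) := by linarith
    exact_mod_cast h3
  obtain ⟨T', hT'⟩ : ∃ T' : τ → Finset ℕ, T' = fun t => Sv f (primorial w) a (T t) := ⟨_, rfl⟩
  have hT'T : ∀ t, T' t ⊆ T t := by
    intro t
    rw [hT']
    unfold Sv
    exact filter_subset _ _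
  have hT'd : ∀ t u, t ≠ u → Disjoint (T' t) (T' u) := fun t u htu => (hT t u htu).mono (hT'T t) (hT'T u)
  have hAl : Al T' ⊆ Al T := by
    unfold Al
    exact biUnion_mono fun t _ => hT'T t
  have hmom := moment_sum f (primorial w) a T hT κ Z Y
  rw [moment_sum2 f (primorial w) (primorial_pos w) a T hT κ Z Y hbig, ← hT'] at hmom
  have hOm : OmN w Z Y a = open Classical in (BoxN Z Y).filter (fun c => ∀ i, Cl (primorial w) (a i) (c i)) := rfl
  rw [hOm, hmom, ← hOm, OmN_card f]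
  obtain ⟨N, hN⟩ : ∃ N, N = ∑ c ∈ BoxN Z Y, FN f (primorial w) a ∅ c := ⟨_, rfl⟩
  have hN0 : 0 ≤ N := by rw [hN]; exact sum_nonneg fun c _ => FN_nonneg _ _ _ _ _
  rw [← hN]
  obtain ⟨SW, hSW⟩ : ∃ SW, SW = ∑ J ∈ Ty T' κ, Wv (primorial w) J ^ n := ⟨_, rfl⟩
  obtain ⟨SD, hSD⟩ : ∃ SD, SD = ∑ J ∈ Ty T' κ, Wv (primorial w) J ^ n * (4 * n * dl (primorial w) J) := ⟨_, rfl⟩
  have hSD0 : 0 ≤ SD := by
    rw [hSD]
    apply sum_nonneg
    intro J _
    have h1 := Wv_ge (primorial w) J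
    have h2 := dl_nonneg (primorial w) J
    positivity
  have hmain : |∑ J ∈ Ty T' κ, ∑ c ∈ BoxN Z Y, FN f (primorial w) a J c - ρ ^ (∑ t, κ t) * SW * N| ≤
      e * (ρ ^ (∑ t, κ t) * SW * N) + ρ ^ (∑ t, κ t) * SD * N := by
    have h1 : ∀ J ∈ Ty T' κ, |∑ c ∈ BoxN Z Y, FN f (primorial w) a J c -
        ρ ^ (∑ t, κ t) * Wv (primorial w) J ^ n * N| ≤ e * (ρ ^ (∑ t, κ t) * Wv (primorial w) J ^ n * N) +
          ρ ^ (∑ t, κ t) * (Wv (primorial w) J ^ n * (4 * n * dl (primorial w) J)) * N := by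
      intro J hJ
      have hJc := Ty_card_eq T' hT'd κ J hJ
      have hJsub : J ⊆ Al T' := by
        unfold Ty at hJ
        rw [mem_filter, mem_powerset] at hJ
        exact hJ.1
      have h2 := hX1 (∑ t, κ t) (mem_range.2 (by omega)) f Z Y J a
        (fun i => (hsz i).mono (hJsub.trans hAl)) hJc (by
          intro i k hk
          have h3 := hJsub hk
          unfold Al at h3
          rw [mem_biUnion] at h3
          obtain ⟨t, _, h4⟩ := h3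
          rw [hT'] at h4
          simp only at h4
          unfold Sv at h4
          rw [mem_filter] at h4
          exact h4.2 i)
      rw [← hL, ← hN] at h2
      have e1 : (wt (primorial w) J / L ^ (∑ t, κ t)) ^ n = ρ ^ (∑ t, κ t) * Wv (primorial w) J ^ n := by
        rw [wt_eq _ (primorial_ne_zero w), hJc, hρ]
        have e2 : ((primorial w : ℕ) : ℝ) / (Nat.totient (primorial w) : ℝ) = gP w := rfl
        have e3 : gP w ^ (∑ t, κ t) * Wv (primorial w) J / L ^ (∑ t, κ t) =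
            (gP w / L) ^ (∑ t, κ t) * Wv (primorial w) J := by rw [div_pow]; ring
        rw [e2, e3, mul_pow, ← pow_mul, ← pow_mul, mul_comm (∑ t, κ t) n]
      rw [e1] at h2
      refine h2.trans (le_of_eq ?_)
      ring
    rw [hSW, hSD, Finset.mul_sum, Finset.sum_mul, ← Finset.sum_sub_distrib, Finset.mul_sum, Finset.mul_sum,
      Finset.sum_mul, ← Finset.sum_add_distrib]
    exact (Finset.abs_sum_le_sum_abs _ _).trans (sum_le_sum h1)
  have hWup := Wv_sum w n m0 c K E1 hE10 (by rw [hc]) T' hT'd κ hκm hK0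
    (le_trans (by exact_mod_cast card_le_card hAl) hTcard0) (le_trans
      (Finset.sum_le_sum_of_subset_of_nonneg (prs_mono _ _ hAl) (fun x _ _ => by linarith [Eh_ge c w (x.2 - x.1)])) hpair)
  have hWup' : SW + SD ≤ (Ty T' κ).card + K ^ (∑ t, κ t) * E1 := by
    refine le_trans (le_of_eq ?_) hWup
    rw [hSW, hSD, ← Finset.sum_add_distrib]
    apply Finset.sum_congr rfl
    intro J _
    ring
  have hWlo : ((Ty T' κ).card : ℝ) ≤ SW := by
    rw [hSW]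
    have h1 := card_nsmul_le_sum (Ty T' κ) (fun J => Wv (primorial w) J ^ n) 1 (fun J _ => one_le_pow₀ (Wv_ge _ _))
    rw [nsmul_eq_mul, mul_one] at h1
    exact h1
  have hρK : ρ * K ≤ Lw := by
    rw [hρ, hLw, div_pow]
    rw [hK]
    apply le_of_eq
    field_simp
  have hTcard : ∀ t, ((T' t).card : ℝ) ≤ K := by
    intro t
    have h1 : T' t ⊆ Al T := (sub_Al T' t).trans hAl
    exact le_trans (by exact_mod_cast card_le_card h1) hTcard0
  have hfin := mom_num R m0 T' hT'd κ hκ hκm ρ K Lw E1 e N _ SW SD hρ0 hK0 hE10 hSD0 he0.le he1 hN0 hLw0 hρK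
    hTcard hWup' hWlo hmain
  have hxp : ∀ t, xp f w X (T t) a = ρ * ((T' t).card : ℝ) := by
    intro t
    rw [hρ, hT', hL]
    rfl
  simp only [hxp]
  refine hfin.trans ?_
  apply mul_le_mul_of_nonneg_right _ hN0
  rw [← hB, ← hs]
  have hρG : (s : ℝ) * ((1 + Lw) ^ R) ^ s * ((R : ℝ) ^ 2 * ρ * (1 + Lw) ^ R) ≤ η0 / 4 := by
    have e1 : (s : ℝ) * ((1 + Lw) ^ R) ^ s * ((R : ℝ) ^ 2 * ρ * (1 + Lw) ^ R) = G * ρ := by rw [hG]; ring
    rw [e1]
    have h1 : gP w / L ≤ 1 := by rw [div_le_one hL0]; exact hX3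
    have h2 : ρ ≤ gP w / L := by
      rw [hρ]
      calc (gP w / L) ^ n ≤ (gP w / L) ^ 1 := pow_le_pow_of_le_one (by positivity) h1 hn
        _ = _ := pow_one _
    have h3 : (4 * G / η0 + 1) * (gP w / L) ≤ 1 := by
      rw [mul_div_assoc', div_le_one hL0, mul_comm]
      exact hX4
    have h4 : G * (gP w / L) ≤ η0 / 4 := by
      have h5 : 4 * G / η0 * (gP w / L) ≤ 1 := by
        have : 0 ≤ gP w / L := by positivity
        linarith
      have h6 : 4 * G / η0 * (gP w / L) = 4 / η0 * (G * (gP w / L)) := by ring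
      rw [h6] at h5
      have h7 := mul_le_mul_of_nonneg_left h5 (show 0 ≤ η0 / 4 by positivity)
      have h8 : η0 / 4 * (4 / η0 * (G * (gP w / L))) = G * (gP w / L) := by field_simp
      linarith
    exact (mul_le_mul_of_nonneg_left h2 hG0).trans h4
  have h9 : e * (B * E1) ≤ B * E1 := by
    have : 0 ≤ B * E1 := by positivity
    nlinarith
  linarith

end Pool.Agent.Q236.RP
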