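import Pool.Agent.Q236.RP.Spread
import Pool.Agent.H692R2.USS.T1

set_option autoImplicit false

/-!
# Prime arguments
-/

namespace Pool.Agent.Q236.RP

open Finset Filter Polynomial
open Pool.Agent.H373R2.T7 Pool.Agent.TH464.PO
open H343E (piAP pi1)

/-- Brun-Titchmarsh for a residue class in an interval -/
lemma bt_int (K0 K q a : ℕ) (hq : 1 ≤ q) (hqK : q ^ 2 ≤ K) (hK : 4 ≤ K) :
    ((((Ioc K0 (K0 + K)).filter Nat.Prime).filter (fun k => k ≡ a [MOD q])).card : ℝ) * Nat.totient q ≤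
      88 * K / Real.log K := by
  obtain ⟨a0, ha0⟩ : ∃ a0, a0 = K0 + 1 + (a + (q - 1) * (K0 + 1)) % q := ⟨_, rfl⟩
  have hmod : a0 ≡ a [MOD q] := by
    rw [ha0]
    have h1 : (a + (q - 1) * (K0 + 1)) % q ≡ a + (q - 1) * (K0 + 1) [MOD q] := Nat.mod_modEq _ _
    have h2 := Nat.ModEq.add_left (K0 + 1) h1
    refine h2.trans ?_
    have e : K0 + 1 + (a + (q - 1) * (K0 + 1)) = a + q * (K0 + 1) := by
      obtain ⟨r, rfl⟩ : ∃ r, q = r + 1 := ⟨q - 1, by omega⟩
      rw [Nat.add_sub_cancel]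
      ring
    rw [e]
    exact (Nat.modEq_iff_dvd' (Nat.le_add_right _ _)).2 ⟨K0 + 1, by rw [Nat.add_sub_cancel_left]⟩ |>.symm
  have ha1 : a0 ≤ K0 + q := by
    rw [ha0]
    have := Nat.mod_lt (a + (q - 1) * (K0 + 1)) (show 0 < q by omega)
    omega
  have ha2 : K0 < a0 := by rw [ha0]; omega
  obtain ⟨N, hN⟩ : ∃ N, N = K / q + 1 := ⟨_, rfl⟩
  have hqK1 : q ≤ K := le_trans (by nlinarith) hqK
  have hN2 : 2 ≤ N := by
    rw [hN]
    have : 1 ≤ K / q := Nat.div_pos hqK1 (by omega)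
    omega
  have h1 : (((Ioc K0 (K0 + K)).filter Nat.Prime).filter (fun k => k ≡ a [MOD q])).card ≤
      ((range N).filter (fun k => (a0 + k * q).Prime)).card := by
    apply card_le_card_of_injOn (fun p => (p - a0) / q)
    · intro p hp
      rw [mem_coe, mem_filter, mem_filter, mem_Ioc] at hp
      obtain ⟨⟨⟨h3, h4⟩, h5⟩, h6⟩ := hp
      have h7 : p ≡ a0 [MOD q] := h6.trans hmod.symm
      have h8 : a0 ≤ p := by
        by_contra hcon
        push Not at hcon
        have h9 := (Nat.modEq_iff_dvd' hcon.le).1 h7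
        have h10 := Nat.le_of_dvd (by omega) h9
        omega
      obtain ⟨k, hk⟩ := (Nat.modEq_iff_dvd' h8).1 h7.symm
      have hk' : (p - a0) / q = k := by rw [hk]; exact Nat.mul_div_cancel_left k (by omega)
      rw [mem_coe, mem_filter, mem_range]
      simp only [hk']
      constructor
      · rw [hN]
        have : k ≤ K / q := by
          rw [Nat.le_div_iff_mul_le (by omega), mul_comm]
          omega
        omega
      · have : a0 + k * q = p := by
          rw [mul_comm k q, ← hk]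
          omega
        rw [this]
        exact h5
    · intro p hp r hr hpr
      rw [mem_coe, mem_filter, mem_filter, mem_Ioc] at hp hr
      have key : ∀ p : ℕ, ((K0 < p ∧ p ≤ K0 + K) ∧ p.Prime) ∧ p ≡ a [MOD q] → p = a0 + q * ((p - a0) / q) := by
        rintro p ⟨⟨⟨h3, h4⟩, h5⟩, h6⟩
        have h7 : p ≡ a0 [MOD q] := h6.trans hmod.symm
        have h8 : a0 ≤ p := by
          by_contra hcon
          push Not at hcon
          have h9 := (Nat.modEq_iff_dvd' hcon.le).1 h7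
          have h10 := Nat.le_of_dvd (by omega) h9
          omega
        have h9 := (Nat.modEq_iff_dvd' h8).1 h7.symm
        rw [Nat.mul_div_cancel' h9]
        omega
      rw [key p hp, key r hr]
      simp only at hpr
      rw [hpr]
  have h2 := Pool.Agent.H692R2.USS.t1_brun_titchmarsh a0 q N hN2 hq
  have hq0 : (0 : ℝ) < q := by exact_mod_cast hq
  have hφ0 : (0 : ℝ) < Nat.totient q := by exact_mod_cast Nat.totient_pos.2 hq
  have hKr : (4 : ℝ) ≤ K := by exact_mod_cast hK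
  have hlK : 0 < Real.log K := Real.log_pos (by linarith)
  have hNr : (N : ℝ) ≤ 2 * K / q := by
    rw [hN]
    push_cast
    have h3 : ((K / q : ℕ) : ℝ) ≤ K / q := Nat.cast_div_le
    have h4 : (1 : ℝ) ≤ K / q := by
      rw [one_le_div hq0]
      exact_mod_cast hqK1
    calc ((K / q : ℕ) : ℝ) + 1 ≤ K / q + K / q := add_le_add h3 h4
      _ = 2 * K / q := by ring
  have hNlog : Real.log K / 2 ≤ Real.log N := by
    have h3 : (K : ℝ) ≤ (N : ℝ) ^ 2 := by
      have h4 : K < q * N := by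
        rw [hN]
        have := Nat.lt_mul_div_succ K (show 0 < q by omega)
        exact this
      have h5 : K ^ 2 < K * N ^ 2 := by
        calc K ^ 2 < (q * N) ^ 2 := Nat.pow_lt_pow_left h4 (by norm_num)
          _ = q ^ 2 * N ^ 2 := by ring
          _ ≤ K * N ^ 2 := Nat.mul_le_mul_right _ hqK
      have h6 : K < N ^ 2 := by
        by_contra hcon
        push Not at hcon
        have := Nat.mul_le_mul_left K hcon
        nlinarith
      exact_mod_cast h6.le
    have h4 := Real.log_le_log (by linarith) h3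
    rw [Real.log_pow] at h4
    push_cast at h4
    linarith
  have h3 : ((((Ioc K0 (K0 + K)).filter Nat.Prime).filter (fun k => k ≡ a [MOD q])).card : ℝ) ≤
      22 * ((q : ℝ) / Nat.totient q) * N / Real.log N := le_trans (by exact_mod_cast h1) h2
  have hlN : 0 < Real.log N := by linarith
  calc ((((Ioc K0 (K0 + K)).filter Nat.Prime).filter (fun k => k ≡ a [MOD q])).card : ℝ) * Nat.totient q ≤
        (22 * ((q : ℝ) / Nat.totient q) * N / Real.log N) * Nat.totient q := mul_le_mul_of_nonneg_right h3 hφ0.le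
    _ = 22 * q * N / Real.log N := by field_simp
    _ ≤ 22 * q * (2 * K / q) / (Real.log K / 2) := by
        apply div_le_div₀ (by positivity) _ (by positivity) hNlog
        exact mul_le_mul_of_nonneg_left hNr (by positivity)
    _ = 88 * K / Real.log K := by
        field_simp
        norm_num

/-- primes in intervals have no concentration -/
lemma spr_primes (n : ℕ) (hn : 1 ≤ n) (lam : ℝ) (hlam : 0 ≤ lam) (C : ℕ) : ∀ᶠ X : ℕ in atTop, ∀ K0 K : ℕ, ∀ B : Finset ℕ,
    B ⊆ (Ioc K0 (K0 + K)).filter Nat.Prime → (K : ℝ) ≤ lam * Real.log X ^ n * Real.log K →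
    (∀ k ∈ B, (k : ℝ) ≤ Real.log X ^ C) → Spr n (88 * lam + 1) (1 / 4) C X B := by
  filter_upwards [ev_log_ge 16] with X hL K0 K B hB hK hBC
  obtain ⟨L, hLd⟩ : ∃ L, L = Real.log (X : ℝ) := ⟨_, rfl⟩
  rw [← hLd] at hL hK hBC
  refine ⟨by rw [← hLd]; exact hBC, ?_⟩
  rw [← hLd]
  intro q hq1 hq a
  have hL0 : 0 < L := by linarith
  have hLn : L ≤ L ^ n := by
    calc L = L ^ 1 := (pow_one L).symm
      _ ≤ L ^ n := pow_le_pow_right₀ (by linarith) hn
  have hφq : (Nat.totient q : ℝ) ≤ q := by exact_mod_cast Nat.totient_le q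
  have hq4 : (q : ℝ) ^ 2 ≤ L ^ ((1 : ℝ) / 2) := by
    have h1 := pow_le_pow_left₀ (Nat.cast_nonneg q) hq 2
    refine h1.trans (le_of_eq ?_)
    rw [← Real.rpow_natCast, ← Real.rpow_mul hL0.le]
    norm_num
  have hhalf : L ^ ((1 : ℝ) / 2) * L ^ ((1 : ℝ) / 2) = L := by
    rw [← Real.rpow_add hL0]
    norm_num
  have hLh1 : (4 : ℝ) ≤ L ^ ((1 : ℝ) / 2) := by
    calc (4 : ℝ) = (16 : ℝ) ^ ((1 : ℝ) / 2) := by
          rw [show (16 : ℝ) = 4 ^ (2 : ℝ) by norm_num, ← Real.rpow_mul (by norm_num)]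
          norm_num
      _ ≤ L ^ ((1 : ℝ) / 2) := Real.rpow_le_rpow (by norm_num) hL (by norm_num)
  by_cases hcase : (K : ℝ) ≤ L ^ ((1 : ℝ) / 2)
  · have h1 : ((B.filter (fun k => k ≡ a [MOD q])).card : ℝ) ≤ K := by
      have h2 : (B.filter (fun k => k ≡ a [MOD q])).card ≤ K := by
        refine (card_filter_le _ _).trans ?_
        refine (card_le_card hB).trans ?_
        refine (card_filter_le _ _).trans ?_
        rw [Nat.card_Ioc]
        omega
      exact_mod_cast h2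
    have h2 : (q : ℝ) ≤ L ^ ((1 : ℝ) / 2) := by
      refine le_trans ?_ hq4
      have : (1 : ℝ) ≤ q := by exact_mod_cast hq1
      nlinarith
    have hl : 0 ≤ 88 * lam * L ^ n := by positivity
    calc ((B.filter (fun k => k ≡ a [MOD q])).card : ℝ) * Nat.totient q ≤ K * q :=
          mul_le_mul h1 hφq (Nat.cast_nonneg _) (Nat.cast_nonneg _)
      _ ≤ L ^ ((1 : ℝ) / 2) * L ^ ((1 : ℝ) / 2) := mul_le_mul hcase h2 (Nat.cast_nonneg _) (by positivity)
      _ = L := hhalf
      _ ≤ (88 * lam + 1) * L ^ n := by linarith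
  · push Not at hcase
    have hqK : q ^ 2 ≤ K := by
      have : (q : ℝ) ^ 2 ≤ K := hq4.trans hcase.le
      exact_mod_cast this
    have hK4 : 4 ≤ K := by
      have : (4 : ℝ) ≤ K := hLh1.trans hcase.le
      exact_mod_cast this
    have h1 := bt_int K0 K q a hq1 hqK hK4
    have h2 : ((B.filter (fun k => k ≡ a [MOD q])).card : ℝ) ≤
        ((((Ioc K0 (K0 + K)).filter Nat.Prime).filter (fun k => k ≡ a [MOD q])).card : ℝ) := by
      exact_mod_cast card_le_card (filter_subset_filter _ hB)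
    have hKr : (4 : ℝ) ≤ K := by exact_mod_cast hK4
    have hlK : 0 < Real.log K := Real.log_pos (by linarith)
    have h3 : 88 * (K : ℝ) / Real.log K ≤ 88 * lam * L ^ n := by
      rw [div_le_iff₀ hlK]
      linarith
    have h4 := mul_le_mul_of_nonneg_right h2 (Nat.cast_nonneg (Nat.totient q) : (0 : ℝ) ≤ Nat.totient q)
    have : 0 ≤ L ^ n := by positivity
    linarith

/-- the lower bound of Chebyshev -/
lemma pi_lower : ∃ y0 : ℕ, 2 ≤ y0 ∧ ∀ y : ℕ, y0 ≤ y → (y : ℝ) / (2 * Real.log y) ≤ pi1 y := by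
  obtain ⟨C, hC⟩ := Pool.Agent.H442R2.EHI.pnt_err 2
  have h1 : ∀ᶠ y : ℕ in atTop, 4 * |C| + 8 ≤ Real.log y := ev_log_ge _
  obtain ⟨y1, hy1⟩ := eventually_atTop.1 (h1.and (ev_pow_log 1))
  refine ⟨max y1 8, (by norm_num : 2 ≤ 8).trans (le_max_right _ _), ?_⟩
  intro y hy
  obtain ⟨hL, hP⟩ := hy1 y ((le_max_left _ _).trans hy)
  have hy8 : 8 ≤ y := (le_max_right _ _).trans hy
  have hy8r : (8 : ℝ) ≤ y := by exact_mod_cast hy8
  obtain ⟨L, hLd⟩ : ∃ L, L = Real.log (y : ℝ) := ⟨_, rfl⟩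
  have h2 := hC y (by omega)
  have h3 := (lis_sub_bounds 2 (y - 2) le_rfl).1
  rw [show 2 + (y - 2) = y by omega] at h3
  rw [show ((2 : ℕ) : ℝ) + ((y - 2 : ℕ) : ℝ) = y by rw [Nat.cast_sub (by omega)]; push_cast; ring,
    Nat.cast_sub (by omega)] at h3
  have h4 : 0 ≤ Pool.Agent.H442R2.EHI.lis 2 := by
    unfold Pool.Agent.H442R2.EHI.lis
    apply Finset.sum_nonneg
    intro k hk
    have : 0 ≤ Real.log k := Real.log_natCast_nonneg k
    positivity
  have e : pi1 y = (((Icc 1 y).filter (fun p : ℕ => p.Prime)).card : ℝ) := rfl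
  rw [e]
  have h5 := (abs_le.1 h2).1
  rw [← hLd] at hL h3 h5 ⊢
  push_cast at h3
  have hL0 : 0 < L := by
    have := abs_nonneg C
    linarith
  have h6 : C * (y : ℝ) / L ^ 2 ≤ y / (4 * L) := by
    rw [div_le_div_iff₀ (by positivity) (by positivity)]
    have h7 : C * 4 ≤ L := by
      have := le_abs_self C
      linarith
    have h8 : 0 ≤ (y : ℝ) * L := by positivity
    calc C * y * (4 * L) = (C * 4) * (y * L) := by ring
      _ ≤ L * (y * L) := mul_le_mul_of_nonneg_right h7 h8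
      _ = y * L ^ 2 := by ring
  have h7 : (y : ℝ) / (2 * L) + y / (4 * L) ≤ ((y : ℝ) - 2) / L := by
    rw [div_add_div _ _ (by positivity) (by positivity), div_le_div_iff₀ (by positivity) (by positivity)]
    have : 0 ≤ L ^ 3 := by positivity
    have h9 : (0 : ℝ) ≤ L ^ 2 := by positivity
    nlinarith [mul_nonneg h9 (by linarith : (0 : ℝ) ≤ (y : ℝ) - 8)]
  linarith

variable {n d : ℕ}

open Classical in
/-- the primes at which a polynomial is prime to `P` -/
lemma prime_mean (P : ℕ) (hP : 1 ≤ P) (δ : ℝ) (hδ : 0 < δ) : ∃ y0 : ℕ, ∀ y : ℕ, y0 ≤ y → ∀ G : ℤ[X],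
    |((((Icc 1 y).filter Nat.Prime).filter (fun k : ℕ => IsCoprime (G.eval (k : ℤ)) (P : ℤ))).card : ℝ) -
      pi1 y * ((gd (X * G) P : ℝ) / Nat.totient P)| ≤ δ * pi1 y := by
  obtain ⟨x0, hsw⟩ := sw_pow 1 2
  obtain ⟨y1, hy12, hy1⟩ := pi_lower
  have hPr : (1 : ℝ) ≤ P := by exact_mod_cast hP
  have hev := (ev_log_ge (max (P : ℝ) (4 * P / δ + 1))).and ((ev_pow_log 2).and (ev_log_ge (4 * P / δ + 1)))
  obtain ⟨y2, hy2⟩ := eventually_atTop.1 hev
  refine ⟨max x0 (max y1 y2), ?_⟩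
  intro y hy G
  have hyx : x0 ≤ y := (le_max_left _ _).trans hy
  have hyy1 : y1 ≤ y := ((le_max_left _ _).trans (le_max_right _ _)).trans hy
  have hyy2 : y2 ≤ y := ((le_max_right _ _).trans (le_max_right _ _)).trans hy
  obtain ⟨hL1, hyL, hL2⟩ := hy2 y hyy2
  obtain ⟨L, hL⟩ : ∃ L, L = Real.log (y : ℝ) := ⟨_, rfl⟩
  have hpi := hy1 y hyy1
  rw [← hL] at hL1 hyL hL2 hpi
  have hL0 : 0 < L := by linarith [(le_max_left (P : ℝ) (4 * P / δ + 1))]
  have hy0 : (0 : ℝ) < y := by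
    have : 2 ≤ y := hy12.trans hyy1
    exact_mod_cast (by omega : 0 < y)
  have hpi0 : 0 ≤ pi1 y := by unfold pi1; exact Nat.cast_nonneg _
  -- the main sum over the residue classes
  obtain ⟨A, hA⟩ : ∃ A, A = (range P).filter (fun a : ℕ => IsCoprime ((X * G).eval (a : ℤ)) (P : ℤ)) := ⟨_, rfl⟩
  obtain ⟨S, hS⟩ : ∃ S, S = ((Icc 1 y).filter Nat.Prime).filter (fun k : ℕ => IsCoprime (G.eval (k : ℤ)) (P : ℤ)) := ⟨_, rfl⟩
  rw [← hS]
  have hmem : ∀ k : ℕ, k % P ∈ A ↔ k.Coprime P ∧ IsCoprime (G.eval (k : ℤ)) (P : ℤ) := by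
    intro k
    rw [hA, mem_filter, mem_range]
    have h1 : IsCoprime ((X * G).eval ((k % P : ℕ) : ℤ)) (P : ℤ) ↔ IsCoprime ((X * G).eval (k : ℤ)) (P : ℤ) :=
      cop_mod (X * G) P (k % P) k (Nat.mod_modEq k P)
    rw [h1, eval_mul, eval_X, IsCoprime.mul_left_iff, Nat.isCoprime_iff_coprime]
    exact ⟨fun h => h.2, fun h => ⟨Nat.mod_lt _ (by omega), h⟩⟩
  have h1 : (S.card : ℝ) = ∑ a ∈ A, piAP y P a + ((S.filter (fun k => ¬k % P ∈ A)).card : ℝ) := by
    rw [← Finset.card_filter_add_card_filter_not (s := S) (fun k => k % P ∈ A)]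
    push_cast
    congr 1
    have h2 : (S.filter (fun k => k % P ∈ A)).card = ∑ a ∈ A, ((S.filter (fun k => k % P ∈ A)).filter (fun k => k % P = a)).card := by
      apply Finset.card_eq_sum_card_fiberwise
      intro k hk
      rw [mem_coe, mem_filter] at hk
      exact hk.2
    rw [h2]
    push_cast
    apply Finset.sum_congr rfl
    intro a ha
    unfold piAP
    congr 1
    congr 1
    ext k
    rw [mem_filter, mem_filter, mem_filter, hS, mem_filter, mem_filter]
    have haP : a < P := by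
      rw [hA, mem_filter, mem_range] at ha
      exact ha.1
    constructor
    · rintro ⟨⟨⟨⟨h3, h4⟩, h5⟩, h6⟩, h7⟩
      refine ⟨h3, h4, ?_⟩
      unfold Nat.ModEq
      rw [h7, Nat.mod_eq_of_lt haP]
    · rintro ⟨h3, h4, h5⟩
      unfold Nat.ModEq at h5
      rw [Nat.mod_eq_of_lt haP] at h5
      have h6 : k % P ∈ A := by rw [h5]; exact ha
      exact ⟨⟨⟨⟨h3, h4⟩, ((hmem k).1 h6).2⟩, h6⟩, h5⟩
  have h2 : (((S.filter (fun k => ¬k % P ∈ A)).card : ℕ) : ℝ) ≤ P := by
    have h3 : S.filter (fun k => ¬k % P ∈ A) ⊆ Icc 1 P := by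
      intro k hk
      rw [mem_filter, hS, mem_filter, mem_filter, mem_Icc, hmem] at hk
      obtain ⟨⟨⟨h3, h4⟩, h5⟩, h6⟩ := hk
      have h7 : ¬k.Coprime P := fun h => h6 ⟨h, h5⟩
      have h8 : k ∣ P := by
        by_contra hcon
        exact h7 ((Nat.Prime.coprime_iff_not_dvd h4).2 hcon)
      rw [mem_Icc]
      exact ⟨h3.1, Nat.le_of_dvd (by omega) h8⟩
    have h4 := card_le_card h3
    rw [Nat.card_Icc, Nat.add_sub_cancel] at h4
    exact_mod_cast h4
  have h3 : |∑ a ∈ A, piAP y P a - pi1 y * ((gd (X * G) P : ℝ) / Nat.totient P)| ≤ P * (y / L ^ 2) := by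
    have e : pi1 y * ((gd (X * G) P : ℝ) / Nat.totient P) = ∑ _a ∈ A, pi1 y / Nat.totient P := by
      rw [Finset.sum_const, nsmul_eq_mul, hA]
      unfold gd
      ring
    rw [e, ← Finset.sum_sub_distrib]
    refine (Finset.abs_sum_le_sum_abs _ _).trans ?_
    have hcardA : (A.card : ℝ) ≤ P := by
      have := card_filter_le (range P) (fun a : ℕ => IsCoprime ((X * G).eval (a : ℤ)) (P : ℤ))
      rw [card_range] at this
      rw [hA]
      exact_mod_cast this
    calc ∑ a ∈ A, |piAP y P a - pi1 y / Nat.totient P| ≤ ∑ _a ∈ A, y / L ^ 2 := by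
          apply Finset.sum_le_sum
          intro a ha
          rw [hL]
          apply hsw y hyx P a hP
          · rw [pow_one, ← hL]
            exact (le_max_left _ _).trans hL1
          · have h4 : a % P ∈ A := by
              rw [hA, mem_filter, mem_range] at ha
              rw [Nat.mod_eq_of_lt ha.1, hA, mem_filter, mem_range]
              exact ha
            exact ((hmem a).1 h4).1
      _ = A.card * (y / L ^ 2) := by rw [Finset.sum_const, nsmul_eq_mul]
      _ ≤ P * (y / L ^ 2) := mul_le_mul_of_nonneg_right hcardA (by positivity)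
  have h4 : P * ((y : ℝ) / L ^ 2) ≤ δ / 2 * pi1 y := by
    have h5 : (4 * P / δ) ≤ L := by linarith
    rw [div_le_iff₀ hδ] at h5
    calc P * ((y : ℝ) / L ^ 2) = (4 * P) * (y / (4 * L ^ 2)) := by ring
      _ ≤ (L * δ) * (y / (4 * L ^ 2)) := mul_le_mul_of_nonneg_right h5 (by positivity)
      _ = δ / 2 * (y / (2 * L)) := by field_simp; ring
      _ ≤ δ / 2 * pi1 y := mul_le_mul_of_nonneg_left hpi (by positivity)
  have h5 : (P : ℝ) ≤ δ / 2 * pi1 y := by
    refine le_trans ?_ h4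
    have h6 : (1 : ℝ) ≤ y / L ^ 2 := by
      rw [one_le_div (by positivity)]
      exact hyL
    nlinarith
  rw [h1]
  have h6 := abs_le.1 h3
  have h7 : (0 : ℝ) ≤ ((S.filter (fun k => ¬k % P ∈ A)).card : ℝ) := Nat.cast_nonneg _
  rw [abs_le]
  constructor
  · linarith [h6.1]
  · linarith [h6.2]

/-- the truncated singular series of `x, F_1, …, F_n` -/
noncomputable def ssp (F : Fin n → ℤ[X]) (w : ℕ) (c : Fin n → Fin d → ℤ) : ℝ :=
  gP w ^ (n + 1) * ∏ p ∈ (range (w + 1)).filter Nat.Prime, (1 - (om (X * GG F c) p : ℝ) / p)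

/-- **The parameter of the primes** -/
lemma xp_primes (n : ℕ) (hn : 1 ≤ n) (w : ℕ) (lam ε : ℝ) (hlam : 0 ≤ lam) (hε : 0 < ε) : ∀ᶠ Q : ℕ in atTop,
    ∀ (d : ℕ) (F : Fin n → ℤ[X]) (c : Fin n → Fin d → ℤ) (y : ℕ), pi1 y ≤ lam * Real.log Q ^ n →
    |xp (fun i k => (F i).eval (k : ℤ)) w Q ((Icc 1 y).filter Nat.Prime) c - ssp F w c * (pi1 y / Real.log Q ^ n)| ≤ ε := by
  classical
  obtain ⟨g, hg⟩ : ∃ g, g = gP w := ⟨_, rfl⟩
  have hg1 : 1 ≤ g := by rw [hg]; exact gP_ge w
  obtain ⟨δ, hδ⟩ : ∃ δ : ℝ, δ = ε / (g ^ n * (lam + 1)) := ⟨_, rfl⟩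
  have hδ0 : 0 < δ := by rw [hδ]; positivity
  obtain ⟨y0, hy0⟩ := prime_mean (primorial w) (primorial_pos w) δ hδ0
  filter_upwards [ev_log_ge (max 1 ((g * g * (2 * y0 + 1)) / ε * g ^ n)), ev_log_ge 1] with Q hQ1 hQ d F c y hy
  obtain ⟨L, hL⟩ : ∃ L, L = Real.log (Q : ℝ) := ⟨_, rfl⟩
  rw [← hL] at hQ1 hQ hy ⊢
  have hL0 : 0 < L := by linarith
  have hpi0 : 0 ≤ pi1 y := by unfold pi1; exact Nat.cast_nonneg _
  have hSv : Sv (fun i k => (F i).eval (k : ℤ)) (primorial w) c ((Icc 1 y).filter Nat.Prime) =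
      ((Icc 1 y).filter Nat.Prime).filter (fun k : ℕ => IsCoprime ((GG F c).eval (k : ℤ)) ((primorial w : ℕ) : ℤ)) := by
    unfold Sv
    apply filter_congr
    intro k _
    rw [GG_eval, IsCoprime.prod_left_iff]
    simp
  have hφ0 : (0 : ℝ) < Nat.totient (primorial w) := by exact_mod_cast Nat.totient_pos.2 (primorial_pos w)
  have hP0 : (0 : ℝ) < (primorial w : ℝ) := by exact_mod_cast primorial_pos w
  obtain ⟨M, hM⟩ : ∃ M, M = (gd (X * GG F c) (primorial w) : ℝ) / Nat.totient (primorial w) := ⟨_, rfl⟩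
  have hMe : ssp F w c = g ^ n * M := by
    unfold ssp
    rw [hM, gd_primorial, ← hg, pow_succ]
    have : g = (primorial w : ℝ) / Nat.totient (primorial w) := by rw [hg]; rfl
    rw [this]
    ring
  have hM0 : 0 ≤ M := by rw [hM]; positivity
  have hMg : M ≤ g := by
    rw [hM, hg]
    unfold gP
    apply div_le_div_of_nonneg_right _ hφ0.le
    have := card_filter_le (range (primorial w)) (fun a : ℕ => IsCoprime ((X * GG F c).eval (a : ℤ)) ((primorial w : ℕ) : ℤ))
    rw [card_range] at this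
    unfold gd
    exact_mod_cast this
  have hxp : xp (fun i k => (F i).eval (k : ℤ)) w Q ((Icc 1 y).filter Nat.Prime) c =
      g ^ n / L ^ n * ((Sv (fun i k => (F i).eval (k : ℤ)) (primorial w) c ((Icc 1 y).filter Nat.Prime)).card : ℝ) := by
    unfold xp
    rw [← hg, ← hL, div_pow]
  obtain ⟨N, hN⟩ : ∃ N : ℝ, N = ((Sv (fun i k => (F i).eval (k : ℤ)) (primorial w) c ((Icc 1 y).filter Nat.Prime)).card : ℝ) :=
    ⟨_, rfl⟩
  rw [hxp, hMe, ← hN]
  have e : g ^ n / L ^ n * N - g ^ n * M * (pi1 y / L ^ n) = g ^ n / L ^ n * (N - pi1 y * M) := by ring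
  have hgL : 0 ≤ g ^ n / L ^ n := by positivity
  rw [e, abs_mul, abs_of_nonneg hgL]
  by_cases hyy : y0 ≤ y
  · have h1 := hy0 y hyy (GG F c)
    rw [← hSv, ← hN, ← hM] at h1
    calc g ^ n / L ^ n * |N - pi1 y * M| ≤ g ^ n / L ^ n * (δ * pi1 y) := mul_le_mul_of_nonneg_left h1 hgL
      _ ≤ g ^ n / L ^ n * (δ * (lam * L ^ n)) := by
          apply mul_le_mul_of_nonneg_left _ hgL
          exact mul_le_mul_of_nonneg_left hy hδ0.le
      _ = g ^ n * lam * δ := by
          field_simp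
      _ ≤ ε := by
          rw [hδ, mul_div_assoc', div_le_iff₀ (by positivity)]
          have : 0 ≤ g ^ n * ε := by positivity
          nlinarith
  · push Not at hyy
    have hpy : pi1 y ≤ y0 := by
      unfold pi1
      have h2 := card_filter_le (Icc 1 y) (fun p => p.Prime)
      rw [Nat.card_Icc, Nat.add_sub_cancel] at h2
      exact_mod_cast h2.trans hyy.le
    have hNy : N ≤ y0 := by
      rw [hN, hSv]
      have h2 := card_filter_le ((Icc 1 y).filter Nat.Prime) (fun k : ℕ => IsCoprime ((GG F c).eval (k : ℤ)) ((primorial w : ℕ) : ℤ))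
      have h3 := card_filter_le (Icc 1 y) (fun p => p.Prime)
      rw [Nat.card_Icc, Nat.add_sub_cancel] at h3
      exact_mod_cast (h2.trans h3).trans hyy.le
    have hN0 : 0 ≤ N := by rw [hN]; exact Nat.cast_nonneg _
    have h3 : |N - pi1 y * M| ≤ g * (2 * y0 + 1) := by
      have h4 : pi1 y * M ≤ y0 * g := mul_le_mul hpy hMg hM0 (Nat.cast_nonneg _)
      have h5 : 0 ≤ pi1 y * M := by positivity
      have h6 : (y0 : ℝ) ≤ g * y0 := by
        have : (0 : ℝ) ≤ y0 := Nat.cast_nonneg _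
        nlinarith
      rw [abs_le]
      constructor
      · nlinarith
      · nlinarith
    have hLL : L ≤ L ^ n := by
      calc L = L ^ 1 := (pow_one L).symm
        _ ≤ L ^ n := pow_le_pow_right₀ hQ hn
    have h4 : (g * g * (2 * y0 + 1)) / ε * g ^ n ≤ L := (le_max_right _ _).trans hQ1
    have h5 : g ^ n * (g * (2 * y0 + 1)) ≤ ε * L := by
      rw [div_mul_eq_mul_div, div_le_iff₀ hε] at h4
      have h6 : g ^ n * (g * (2 * y0 + 1)) ≤ g * g * (2 * y0 + 1) * g ^ n := by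
        have h7 : (0 : ℝ) ≤ g ^ n * (g * (2 * y0 + 1)) := by positivity
        nlinarith
      linarith
    calc g ^ n / L ^ n * |N - pi1 y * M| ≤ g ^ n / L ^ n * (g * (2 * y0 + 1)) := mul_le_mul_of_nonneg_left h3 hgL
      _ = g ^ n * (g * (2 * y0 + 1)) / L ^ n := by ring
      _ ≤ ε * L / L ^ n := div_le_div_of_nonneg_right h5 (by positivity)
      _ ≤ ε * L / L := div_le_div_of_nonneg_left (by positivity) hL0 hLL
      _ = ε := by field_simp

end Pool.Agent.Q236.RP
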