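import Pool.Agent.Q236.RP.Final

set_option autoImplicit false

/-!
# Sets of points without concentration in residue classes
-/

namespace Pool.Agent.Q236.RP

open Finset Filter
open Pool.Agent.H373R2.T7 Pool.Agent.TH464.PO

/-- no concentration in the residue classes modulo `q ≤ log^θ X` -/
def Spr (n : ℕ) (lam θ : ℝ) (C X : ℕ) (B : Finset ℕ) : Prop :=
  (∀ k ∈ B, (k : ℝ) ≤ Real.log X ^ C) ∧ ∀ q : ℕ, 1 ≤ q → (q : ℝ) ≤ Real.log X ^ θ → ∀ a : ℕ,
    ((B.filter (fun k => k ≡ a [MOD q])).card : ℝ) * (Nat.totient q : ℝ) ≤ lam * Real.log X ^ n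

/-- the choice of the level -/
lemma exists_z (θ : ℝ) (hθ : 0 < θ) (C c w : ℕ) : ∀ᶠ X : ℕ in atTop, ∃ z : ℕ, 2 ≤ z ∧ w ≤ z ∧
    (4 : ℝ) ^ z ≤ Real.log X ^ θ ∧ (c : ℝ) * (C * Real.log (Real.log X)) / (z * Real.log z) ≤ 1 / (2 * w + 2) := by
  obtain ⟨z1, hz1⟩ : ∃ z1 : ℕ, z1 = max (max 2 w) (⌈Real.exp (4 * c * C / θ * (2 * w + 2))⌉₊) := ⟨_, rfl⟩
  have hu := (Real.tendsto_log_atTop.comp (Real.tendsto_log_atTop.comp
    (tendsto_natCast_atTop_atTop (R := ℝ)))).eventually_ge_atTop (max (4 / θ) (2 * (z1 + 1) / θ))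
  filter_upwards [hu, ev_log_ge 1] with X hX hL
  simp only [Function.comp_apply] at hX
  obtain ⟨u, hud⟩ : ∃ u, u = Real.log (Real.log (X : ℝ)) := ⟨_, rfl⟩
  rw [← hud] at hX ⊢
  have h1 : 4 / θ ≤ u := (le_max_left _ _).trans hX
  have h2 : 2 * (z1 + 1) / θ ≤ u := (le_max_right _ _).trans hX
  rw [div_le_iff₀ hθ] at h1 h2
  obtain ⟨z, hz⟩ : ∃ z, z = ⌊u * θ / 2⌋₊ := ⟨_, rfl⟩
  have hu0 : 0 < u * θ := by linarith
  have hz2 : (z : ℝ) ≤ u * θ / 2 := by rw [hz]; exact Nat.floor_le (by linarith)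
  have hz3 : u * θ / 2 < z + 1 := by rw [hz]; exact Nat.lt_floor_add_one _
  have hz4 : z1 ≤ z := by
    have : (z1 : ℝ) < z + 1 := by linarith
    have h5 : z1 < z + 1 := by exact_mod_cast this
    omega
  have hz12 : 2 ≤ z1 := by rw [hz1]; exact (le_max_left _ _).trans (le_max_left _ _)
  have hz1w : w ≤ z1 := by rw [hz1]; exact (le_max_right _ _).trans (le_max_left _ _)
  have hz1e : Real.exp (4 * c * C / θ * (2 * w + 2)) ≤ z1 := by
    rw [hz1]
    refine (Nat.le_ceil _).trans ?_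
    exact_mod_cast le_max_right _ _
  have hzr : (2 : ℝ) ≤ z := by exact_mod_cast hz12.trans hz4
  refine ⟨z, hz12.trans hz4, hz1w.trans hz4, ?_, ?_⟩
  · have hL0 : 0 < Real.log (X : ℝ) := by linarith
    rw [← Real.exp_log (show (0 : ℝ) < (4 : ℝ) ^ z by positivity), Real.log_pow, Real.rpow_def_of_pos hL0, ← hud]
    apply Real.exp_le_exp.2
    have h4 : Real.log 4 ≤ 2 := by
      rw [show (4 : ℝ) = 2 * 2 by norm_num, Real.log_mul (by norm_num) (by norm_num)]
      have := Real.log_two_lt_d9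
      linarith
    calc (z : ℝ) * Real.log 4 ≤ (u * θ / 2) * 2 := mul_le_mul hz2 h4 (Real.log_nonneg (by norm_num)) (by linarith)
      _ = u * θ := by ring
  · have hzlog : 4 * c * C / θ * (2 * w + 2) ≤ Real.log z := by
      rw [Real.le_log_iff_exp_le (by linarith)]
      exact hz1e.trans (by exact_mod_cast hz4)
    have hlz : 0 < Real.log z := Real.log_pos (by linarith)
    rw [div_le_div_iff₀ (by positivity) (by positivity), one_mul]
    have hu4 : u ≤ 4 * z / θ := by
      rw [le_div_iff₀ hθ]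
      linarith
    have hcC : (0 : ℝ) ≤ c * C := by positivity
    calc (c : ℝ) * (C * u) * (2 * w + 2) = (c * C) * (2 * w + 2) * u := by ring
      _ ≤ (c * C) * (2 * w + 2) * (4 * z / θ) := mul_le_mul_of_nonneg_left hu4 (by positivity)
      _ = z * (4 * c * C / θ * (2 * w + 2)) := by ring
      _ ≤ z * Real.log z := mul_le_mul_of_nonneg_left hzlog (by linarith)

/-- the part of the majorant at the primes `≤ z` -/
noncomputable def Eh1 (c w z h : ℕ) : ℝ :=
  ∏ p ∈ (h.primeFactors.filter (fun p => w < p)).filter (fun p => p ≤ z), (1 + (c : ℝ) / p)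

lemma prod_ge_one (c : ℕ) (s : Finset ℕ) : (1 : ℝ) ≤ ∏ p ∈ s, (1 + (c : ℝ) / p) := by
  induction s using Finset.induction_on with
  | empty => simp
  | insert p s hp ih =>
    rw [prod_insert hp]
    have : (0 : ℝ) ≤ c / p := by positivity
    nlinarith

lemma Eh1_ge (c w z h : ℕ) : 1 ≤ Eh1 c w z h := prod_ge_one _ _

/-- the large primes contribute little -/
lemma Eh_split (c w z h : ℕ) (hz : 2 ≤ z) (hh : 1 ≤ h) :
    Eh c w h ≤ Eh1 c w z h * Real.exp (c * Real.log h / (z * Real.log z)) := by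
  obtain ⟨S, hS⟩ : ∃ S, S = (h.primeFactors.filter (fun p => w < p)).filter (fun p => ¬p ≤ z) := ⟨_, rfl⟩
  have e : Eh c w h = Eh1 c w z h * ∏ p ∈ S, (1 + (c : ℝ) / p) := by
    unfold Eh Eh1
    rw [hS]
    exact (Finset.prod_filter_mul_prod_filter_not _ _ _).symm
  rw [e]
  apply mul_le_mul_of_nonneg_left _ (by linarith [Eh1_ge c w z h])
  have hzr : (2 : ℝ) ≤ z := by exact_mod_cast hz
  have hlz : 0 < Real.log z := Real.log_pos (by linarith)
  have hmem : ∀ p ∈ S, p.Prime ∧ p ∣ h ∧ z < p := by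
    intro p hp
    rw [hS, mem_filter, mem_filter, Nat.mem_primeFactors] at hp
    exact ⟨hp.1.1.1, hp.1.1.2.1, by omega⟩
  have h1 : z ^ S.card ≤ h := by
    calc z ^ S.card = ∏ _p ∈ S, z := by rw [Finset.prod_const]
      _ ≤ ∏ p ∈ S, p := Finset.prod_le_prod' fun p hp => (hmem p hp).2.2.le
      _ ≤ h := Nat.le_of_dvd (by omega) (Finset.prod_primes_dvd h (fun p hp => (hmem p hp).1.prime)
          (fun p hp => (hmem p hp).2.1))
  have h2 : (S.card : ℝ) * Real.log z ≤ Real.log h := by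
    rw [← Real.log_pow]
    apply Real.log_le_log (by positivity)
    exact_mod_cast h1
  have h3 : ∏ p ∈ S, (1 + (c : ℝ) / p) ≤ Real.exp (c * S.card / z) := by
    calc ∏ p ∈ S, (1 + (c : ℝ) / p) ≤ ∏ _p ∈ S, Real.exp ((c : ℝ) / z) := by
          apply Finset.prod_le_prod
          · intro p _
            positivity
          · intro p hp
            have hpz : (z : ℝ) ≤ p := by exact_mod_cast (hmem p hp).2.2.le
            have : (c : ℝ) / p ≤ c / z := div_le_div_of_nonneg_left (Nat.cast_nonneg c) (by linarith) hpz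
            have h4 := Real.add_one_le_exp ((c : ℝ) / z)
            linarith
      _ = Real.exp (c * S.card / z) := by
          rw [Finset.prod_const, ← Real.exp_nat_mul]
          congr 1
          ring
  refine h3.trans (Real.exp_le_exp.2 ?_)
  rw [div_le_div_iff₀ (by linarith) (by positivity)]
  have hcz : (0 : ℝ) ≤ c * z := by positivity
  calc (c : ℝ) * S.card * (z * Real.log z) = (c * z) * (S.card * Real.log z) := by ring
    _ ≤ (c * z) * Real.log h := mul_le_mul_of_nonneg_left h2 hcz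
    _ = c * Real.log h * z := by ring

lemma tot_prod (S : Finset ℕ) (hS : ∀ p ∈ S, p.Prime) : Nat.totient (∏ p ∈ S, p) = ∏ p ∈ S, (p - 1) := by
  induction S using Finset.induction_on with
  | empty => simp
  | insert p S hp ih =>
    rw [prod_insert hp, prod_insert hp]
    have hpp := hS p (mem_insert_self _ _)
    have hSS : ∀ q ∈ S, q.Prime := fun q hq => hS q (mem_insert_of_mem hq)
    have hcop : p.Coprime (∏ q ∈ S, q) := by
      apply Nat.Coprime.prod_right
      intro q hq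
      rw [Nat.coprime_primes hpp (hSS q hq)]
      rintro rfl
      exact hp hq
    rw [Nat.totient_mul hcop, Nat.totient_prime hpp, ih hSS]

/-- the average of the first part -/
lemma Eh1_avg (c w z : ℕ) (hw : 1 ≤ w) (K : ℝ) (hK : 0 ≤ K) (B : Finset ℕ)
    (hB : ∀ q : ℕ, 1 ≤ q → q ≤ 4 ^ z → ∀ a : ℕ, ((B.filter (fun k => k ≡ a [MOD q])).card : ℝ) * (Nat.totient q : ℝ) ≤ K) :
    ∑ x ∈ prs B, (Eh1 c w z (x.2 - x.1) - 1) ≤ K ^ 2 * (Real.exp (2 * c / w) - 1) := by
  obtain ⟨PS, hPS⟩ : ∃ PS, PS = (pz z).filter (fun p => w < p) := ⟨_, rfl⟩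
  have hPp : ∀ p ∈ PS, p.Prime := by
    intro p hp
    rw [hPS, mem_filter, mem_pz] at hp
    exact hp.1.2
  have hcardB : (B.card : ℝ) ≤ K := by
    have h := hB 1 le_rfl (Nat.one_le_pow _ _ (by norm_num)) 0
    rw [Nat.totient_one, Nat.cast_one, mul_one] at h
    have e : B.filter (fun k => k ≡ 0 [MOD 1]) = B := by
      rw [filter_eq_self]
      intro k _
      exact Nat.modEq_one
    rwa [e] at h
  have h1 : ∀ x ∈ prs B, Eh1 c w z (x.2 - x.1) - 1 =
      ∑ S ∈ PS.powerset.erase ∅, if (∀ p ∈ S, p ∣ x.2 - x.1) then ∏ p ∈ S, ((c : ℝ) / p) else 0 := by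
    intro x hx
    unfold prs at hx
    rw [mem_filter] at hx
    obtain ⟨h, hh⟩ : ∃ h, h = x.2 - x.1 := ⟨_, rfl⟩
    have hh1 : 1 ≤ h := by omega
    rw [← hh]
    have e0 : (h.primeFactors.filter (fun p => w < p)).filter (fun p => p ≤ z) = PS.filter (fun p => p ∣ h) := by
      ext p
      rw [mem_filter, mem_filter, Nat.mem_primeFactors, hPS, mem_filter, mem_filter, mem_pz]
      constructor
      · rintro ⟨⟨⟨a1, a2, a3⟩, a4⟩, a5⟩
        exact ⟨⟨⟨a5, a1⟩, a4⟩, a2⟩
      · rintro ⟨⟨⟨a1, a2⟩, a3⟩, a4⟩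
        exact ⟨⟨⟨a2, a4, by omega⟩, a3⟩, a1⟩
    have e1 : ∏ p ∈ PS.filter (fun p => p ∣ h), (1 + (c : ℝ) / p) =
        ∏ p ∈ PS, ((if p ∣ h then (c : ℝ) / (p : ℝ) else 0) + 1) := by
      rw [Finset.prod_filter]
      apply Finset.prod_congr rfl
      intro p _
      split_ifs
      · ring
      · ring
    have e2 : Eh1 c w z h = ∑ S ∈ PS.powerset, if (∀ p ∈ S, p ∣ h) then ∏ p ∈ S, ((c : ℝ) / p) else 0 := by
      unfold Eh1
      rw [e0, e1, Finset.prod_add_one]
      apply Finset.sum_congr rfl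
      intro S _
      by_cases hS : ∀ p ∈ S, p ∣ h
      · rw [if_pos hS]
        apply Finset.prod_congr rfl
        intro p hp
        rw [if_pos (hS p hp)]
      · rw [if_neg hS]
        push Not at hS
        obtain ⟨p, hp, hpn⟩ := hS
        exact Finset.prod_eq_zero hp (if_neg hpn)
    rw [e2, ← Finset.add_sum_erase _ _ (empty_mem_powerset PS)]
    simp
  rw [Finset.sum_congr rfl h1, Finset.sum_comm]
  have h2 : ∀ S ∈ PS.powerset.erase ∅, ∑ x ∈ prs B, (if (∀ p ∈ S, p ∣ x.2 - x.1) then ∏ p ∈ S, ((c : ℝ) / p) else 0) ≤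
      K ^ 2 * ∏ p ∈ S, ((2 * c : ℝ) / (p : ℝ) ^ 2) := by
    intro S hS
    rw [mem_erase, mem_powerset] at hS
    have hSp : ∀ p ∈ S, p.Prime := fun p hp => hPp p (hS.2 hp)
    obtain ⟨q, hq⟩ : ∃ q, q = ∏ p ∈ S, p := ⟨_, rfl⟩
    have hq1 : 1 ≤ q := by
      rw [hq]
      exact Finset.prod_pos fun p hp => (hSp p hp).pos
    have hqz : q ≤ 4 ^ z := by
      refine le_trans ?_ (primorial_le_four_pow z)
      rw [hq]
      unfold primorial
      apply Finset.prod_le_prod_of_subset_of_one_le'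
      · intro p hp
        have h3 := hS.2 hp
        rw [hPS, mem_filter, mem_pz] at h3
        rw [mem_filter, mem_range]
        exact ⟨by omega, h3.1.2⟩
      · intro p hp _
        rw [mem_filter] at hp
        exact hp.2.one_lt.le
    have hcop : ∀ h, (∀ p ∈ S, p ∣ h) ↔ q ∣ h := by
      intro h
      rw [hq]
      constructor
      · intro hd
        exact Finset.prod_primes_dvd h (fun p hp => (hSp p hp).prime) hd
      · intro hd p hp
        exact (Finset.dvd_prod_of_mem _ hp).trans hd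
    rw [← Finset.sum_filter, Finset.sum_const, nsmul_eq_mul]
    have hφ0 : (0 : ℝ) < Nat.totient q := by exact_mod_cast Nat.totient_pos.2 hq1
    have h4 : (((prs B).filter (fun x => ∀ p ∈ S, p ∣ x.2 - x.1)).card : ℝ) ≤ K ^ 2 / Nat.totient q := by
      have h5 : (((prs B).filter (fun x => ∀ p ∈ S, p ∣ x.2 - x.1)).card : ℝ) ≤
          ∑ k ∈ B, ((B.filter (fun m => m ≡ k [MOD q])).card : ℝ) := by
        have h6 : ((prs B).filter (fun x => ∀ p ∈ S, p ∣ x.2 - x.1)).card ≤
            ∑ k ∈ B, ((prs B).filter (fun x => ∀ p ∈ S, p ∣ x.2 - x.1)).card.choose 0 *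
              (B.filter (fun m => m ≡ k [MOD q])).card := by
          have h7 : (prs B).filter (fun x => ∀ p ∈ S, p ∣ x.2 - x.1) ⊆
              (B.sigma (fun k => B.filter (fun m => m ≡ k [MOD q]))).image (fun y => ((y.1, y.2) : ℕ × ℕ)) := by
            intro x hx
            rw [mem_filter, hcop] at hx
            obtain ⟨hx1, hx2⟩ := hx
            unfold prs at hx1
            rw [mem_filter, mem_product] at hx1
            rw [mem_image]
            refine ⟨⟨x.1, x.2⟩, ?_, rfl⟩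
            rw [mem_sigma, mem_filter]
            refine ⟨hx1.1.1, hx1.1.2, ?_⟩
            exact ((Nat.modEq_iff_dvd' hx1.2.le).2 hx2).symm
          have h8 := (card_le_card h7).trans card_image_le
          rw [card_sigma] at h8
          simpa using h8
        have h9 : ((∑ k ∈ B, ((prs B).filter (fun x => ∀ p ∈ S, p ∣ x.2 - x.1)).card.choose 0 *
              (B.filter (fun m => m ≡ k [MOD q])).card : ℕ) : ℝ) =
            ∑ k ∈ B, ((B.filter (fun m => m ≡ k [MOD q])).card : ℝ) := by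
          push_cast
          simp
        rw [← h9]
        exact_mod_cast h6
      refine h5.trans ?_
      calc ∑ k ∈ B, ((B.filter (fun m => m ≡ k [MOD q])).card : ℝ) ≤ ∑ _k ∈ B, K / Nat.totient q := by
            apply Finset.sum_le_sum
            intro k _
            rw [le_div_iff₀ hφ0]
            exact hB q hq1 hqz k
        _ = B.card * (K / Nat.totient q) := by rw [Finset.sum_const, nsmul_eq_mul]
        _ ≤ K * (K / Nat.totient q) := mul_le_mul_of_nonneg_right hcardB (by positivity)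
        _ = K ^ 2 / Nat.totient q := by ring
    have hnn : 0 ≤ ∏ p ∈ S, ((c : ℝ) / p) := prod_nonneg fun p _ => by positivity
    refine (mul_le_mul_of_nonneg_right h4 hnn).trans ?_
    have hφ : (Nat.totient q : ℝ) = ∏ p ∈ S, ((p : ℝ) - 1) := by
      rw [hq, tot_prod S hSp, Nat.cast_prod]
      apply Finset.prod_congr rfl
      intro p hp
      rw [Nat.cast_sub (hSp p hp).one_lt.le, Nat.cast_one]
    rw [div_mul_eq_mul_div, mul_div_assoc, hφ, ← Finset.prod_div_distrib]
    apply mul_le_mul_of_nonneg_left _ (by positivity)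
    apply Finset.prod_le_prod
    · intro p hp
      have : (2 : ℝ) ≤ p := by exact_mod_cast (hSp p hp).two_le
      have h5 : (0 : ℝ) < p - 1 := by linarith
      positivity
    · intro p hp
      have hp2 : (2 : ℝ) ≤ p := by exact_mod_cast (hSp p hp).two_le
      have h5 : (0 : ℝ) < p - 1 := by linarith
      rw [div_div, div_le_div_iff₀ (by positivity) (by positivity)]
      have hc : (0 : ℝ) ≤ c := Nat.cast_nonneg c
      nlinarith [mul_nonneg hc (by nlinarith : (0 : ℝ) ≤ 2 * ((p : ℝ) * (p - 1)) - (p : ℝ) ^ 2)]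
  refine (Finset.sum_le_sum h2).trans ?_
  rw [← Finset.mul_sum]
  apply mul_le_mul_of_nonneg_left _ (by positivity)
  have e : ∏ p ∈ PS, (1 + (2 * c : ℝ) / (p : ℝ) ^ 2) = ∑ S ∈ PS.powerset, ∏ p ∈ S, ((2 * c : ℝ) / (p : ℝ) ^ 2) := by
    rw [← Finset.prod_add_one]
    apply Finset.prod_congr rfl
    intro p _
    ring
  rw [← Finset.add_sum_erase _ _ (empty_mem_powerset PS)] at e
  rw [Finset.prod_empty] at e
  have h4 := prod_sq_tail (2 * c) w z hw
  rw [← hPS] at h4
  push_cast at h4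
  linarith

/-- **Sets without concentration** -/
theorem few_spr (n : ℕ) (lam θ : ℝ) (hθ : 0 < θ) (C : ℕ) : Few n lam (Spr n lam θ C) := by
  intro c
  obtain ⟨C2, hC2⟩ : ∃ C2 : ℝ, C2 = 2 * (2 * c) + 1 + 2 * c * Real.exp (2 * c) := ⟨_, rfl⟩
  refine ⟨2 * C2 + 1, 1, by rw [hC2]; positivity, one_pos, ?_⟩
  intro w hw
  filter_upwards [exists_z θ hθ C c w, ev_log_ge 1] with X hX hL B hB
  obtain ⟨z, hz2, hzw, hz4, hzt⟩ := hX
  obtain ⟨hB1, hB2⟩ := hB
  obtain ⟨K, hK⟩ : ∃ K, K = lam * Real.log X ^ n := ⟨_, rfl⟩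
  rw [← hK] at hB2 ⊢
  have hw0 : (0 : ℝ) < w := by exact_mod_cast hw
  have hcardB : (B.card : ℝ) ≤ K := by
    have h := hB2 1 le_rfl (by rw [Nat.cast_one]; exact Real.one_le_rpow hL hθ.le) 0
    rw [Nat.totient_one, Nat.cast_one, mul_one] at h
    have e : B.filter (fun k => k ≡ 0 [MOD 1]) = B := by
      rw [filter_eq_self]
      intro k _
      exact Nat.modEq_one
    rwa [e] at h
  have hK0 : 0 ≤ K := (Nat.cast_nonneg _).trans hcardB
  refine ⟨hcardB, ?_⟩
  have h1 := Eh1_avg c w z hw K hK0 B (fun q hq1 hqz a => hB2 q hq1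
    (le_trans (by exact_mod_cast hqz) hz4) a)
  have hprs : ((prs B).card : ℝ) ≤ K ^ 2 := by
    have h2 : ((prs B).card : ℝ) ≤ (B.card : ℝ) ^ 2 := by exact_mod_cast prs_card B
    exact h2.trans (pow_le_pow_left₀ (Nat.cast_nonneg _) hcardB 2)
  have h2 : ∀ x ∈ prs B, Eh c w (x.2 - x.1) - 1 ≤ 2 * (Eh1 c w z (x.2 - x.1) - 1) + 1 / w := by
    intro x hx
    unfold prs at hx
    rw [mem_filter, mem_product] at hx
    obtain ⟨h, hh⟩ : ∃ h, h = x.2 - x.1 := ⟨_, rfl⟩
    have hh1 : 1 ≤ h := by omega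
    rw [← hh]
    have h3 := Eh_split c w z h hz2 hh1
    have h4 : (h : ℝ) ≤ Real.log X ^ C := by
      have h5 := hB1 x.2 hx.1.2
      refine le_trans ?_ h5
      have : h ≤ x.2 := by omega
      exact_mod_cast this
    have hh0 : (0 : ℝ) < h := by exact_mod_cast hh1
    have h5 : Real.log h ≤ C * Real.log (Real.log X) := by
      rw [← Real.log_pow]
      exact Real.log_le_log hh0 h4
    have hzr : (2 : ℝ) ≤ z := by exact_mod_cast hz2
    have hlz : 0 < Real.log z := Real.log_pos (by linarith)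
    have h6 : (c : ℝ) * Real.log h / (z * Real.log z) ≤ 1 / (2 * w + 2) := by
      refine le_trans ?_ hzt
      apply div_le_div_of_nonneg_right _ (by positivity)
      exact mul_le_mul_of_nonneg_left h5 (Nat.cast_nonneg c)
    obtain ⟨y, hy⟩ : ∃ y, y = (c : ℝ) * Real.log h / (z * Real.log z) := ⟨_, rfl⟩
    rw [← hy] at h3 h6
    have hy0 : 0 ≤ y := by
      rw [hy]
      have : 0 ≤ Real.log h := Real.log_natCast_nonneg h
      positivity
    have hw2 : 1 / (2 * (w : ℝ) + 2) ≤ 1 := by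
      rw [div_le_one (by positivity)]
      linarith
    have h7 := Real.abs_exp_sub_one_le (x := y) (by rw [abs_of_nonneg hy0]; linarith)
    rw [abs_of_nonneg hy0] at h7
    have h8 := (le_abs_self _).trans h7
    have h9 : 2 * y ≤ 1 / (w + 1) := by
      have : 2 * (1 / (2 * (w : ℝ) + 2)) = 1 / (w + 1) := by field_simp
      linarith
    have h10 : 1 / ((w : ℝ) + 1) ≤ 1 / w := by
      apply one_div_le_one_div_of_le hw0
      linarith
    have h11 : 1 / ((w : ℝ) + 1) ≤ 1 := by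
      rw [div_le_one (by positivity)]
      linarith
    have hE := Eh1_ge c w z h
    have h12 : Eh1 c w z h * Real.exp y ≤ Eh1 c w z h * (1 + 1 / (w + 1)) :=
      mul_le_mul_of_nonneg_left (by linarith) (by linarith)
    have h13 : (Eh1 c w z h - 1) * (1 / (w + 1)) ≤ (Eh1 c w z h - 1) * 1 :=
      mul_le_mul_of_nonneg_left h11 (by linarith)
    have h14 : Eh1 c w z h * (1 + 1 / (w + 1)) = Eh1 c w z h + (Eh1 c w z h - 1) * (1 / (w + 1)) + 1 / (w + 1) := by ring
    linarith
  have h3 : Real.exp ((2 * c : ℝ) / w) - 1 ≤ C2 / w := by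
    rcases le_or_gt ((2 * c : ℕ) : ℝ) w with h | h
    · push_cast at h
      have hx : (2 * c : ℝ) / w ≤ 1 := by
        rw [div_le_one hw0]
        exact h
      have h9 := Real.abs_exp_sub_one_le (x := (2 * c : ℝ) / w) (by rw [abs_of_nonneg (by positivity)]; exact hx)
      rw [abs_of_nonneg (by positivity : (0 : ℝ) ≤ (2 * c : ℝ) / w)] at h9
      have h10 := (le_abs_self _).trans h9
      refine h10.trans ?_
      rw [mul_div_assoc']
      apply div_le_div_of_nonneg_right _ hw0.le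
      have : 0 ≤ 2 * (c : ℝ) * Real.exp (2 * c) := by positivity
      rw [hC2]
      linarith
    · push_cast at h
      rw [le_div_iff₀ hw0]
      have hw1 : (1 : ℝ) ≤ w := by exact_mod_cast hw
      have h4 : (2 * c : ℝ) / w ≤ 2 * c := div_le_self (by positivity) hw1
      have h5 := Real.exp_le_exp.2 h4
      have h6 : 0 ≤ Real.exp ((2 * c : ℝ) / w) - 1 := by
        have : (0 : ℝ) ≤ (2 * c : ℝ) / w := by positivity
        linarith [Real.one_le_exp this]
      calc (Real.exp ((2 * c : ℝ) / w) - 1) * w ≤ Real.exp (2 * c) * (2 * c) := by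
            apply mul_le_mul (by linarith) h.le hw0.le (Real.exp_pos _).le
        _ ≤ C2 := by
            rw [hC2]
            have : (0 : ℝ) ≤ c := Nat.cast_nonneg c
            linarith
  calc ∑ x ∈ prs B, (Eh c w (x.2 - x.1) - 1) ≤ ∑ x ∈ prs B, (2 * (Eh1 c w z (x.2 - x.1) - 1) + 1 / w) :=
        Finset.sum_le_sum h2
    _ = 2 * ∑ x ∈ prs B, (Eh1 c w z (x.2 - x.1) - 1) + (prs B).card * (1 / w) := by
        rw [Finset.sum_add_distrib, ← Finset.mul_sum, Finset.sum_const, nsmul_eq_mul]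
    _ ≤ 2 * (K ^ 2 * (C2 / w)) + K ^ 2 * (1 / w) := by
        have h4 : K ^ 2 * (Real.exp (2 * c / w) - 1) ≤ K ^ 2 * (C2 / w) := mul_le_mul_of_nonneg_left h3 (by positivity)
        have h5 : ((prs B).card : ℝ) * (1 / w) ≤ K ^ 2 * (1 / w) := mul_le_mul_of_nonneg_right hprs (by positivity)
        linarith
    _ = K ^ 2 * ((2 * C2 + 1) / (w : ℝ) ^ (1 : ℝ)) := by
        rw [Real.rpow_one]
        ring

end Pool.Agent.Q236.RP
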