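import Pool.Agent.Q236.RP.Glob

set_option autoImplicit false

/-!
# The average number of surviving points
-/

namespace Pool.Agent.Q236.RP

open Finset Filter Polynomial
open Pool.Agent.Q236.UL (Ty Al PoJ PoJ_nonneg PoJ_le_one sub_Al)

/-- the residues prime to `M` among `M` consecutive integers -/
lemma count_coprime (A : ℤ) (M : ℕ) (hM : 1 ≤ M) :
    ((Ioc 0 M).filter (fun t : ℕ => IsCoprime (A + t) (M : ℤ))).card = Nat.totient M := by
  classical
  obtain ⟨r, hr⟩ : ∃ r : ℕ, r = (A % M).toNat := ⟨_, rfl⟩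
  have hM0 : (0 : ℤ) < M := by exact_mod_cast hM
  have hrA : (r : ℤ) = A % M := by rw [hr]; exact Int.toNat_of_nonneg (Int.emod_nonneg A hM0.ne')
  have key : ∀ t : ℕ, IsCoprime (A + t) (M : ℤ) ↔ M.Coprime (r + t) := by
    intro t
    have e : A + t = ((r + t : ℕ) : ℤ) + M * (A / M) := by
      push_cast
      rw [hrA]
      have := Int.mul_ediv_add_emod A M
      linarith
    rw [e, IsCoprime.add_mul_left_left_iff, Nat.isCoprime_iff_coprime, Nat.coprime_comm]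
  have h1 : ((Ioc 0 M).filter (fun t : ℕ => IsCoprime (A + t) (M : ℤ))).card =
      ((Ico (r + 1) (r + 1 + M)).filter (fun x => M.Coprime x)).card := by
    apply card_bij (fun t _ => r + t)
    · intro t ht
      rw [mem_filter, mem_Ioc] at ht
      rw [mem_filter, mem_Ico]
      exact ⟨by omega, (key t).1 ht.2⟩
    · intro t _ u _ h
      omega
    · intro x hx
      rw [mem_filter, mem_Ico] at hx
      refine ⟨x - r, ?_, by omega⟩
      rw [mem_filter, mem_Ioc]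
      refine ⟨by omega, (key (x - r)).2 ?_⟩
      have : r + (x - r) = x := by omega
      rw [this]
      exact hx.2
  rw [h1, Nat.filter_coprime_Ico_eq_totient]

variable {d : ℕ}

/-- the unit vector times `t` -/
def uv (i0 : Fin d) (t : ℤ) : Fin d → ℤ := fun i => if i = i0 then t else 0

lemma ev_uv (f : ℕ → ℤ) (c : Fin d → ℤ) (i0 : Fin d) (hi0 : (i0 : ℕ) = 0) (t : ℤ) (k : ℕ) :
    ev f (c + uv i0 t) k = ev f c k + t := by
  rw [ev_add]
  congr 1
  unfold uv
  rw [Finset.sum_eq_single i0]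
  · rw [if_pos rfl, hi0, pow_zero, mul_one]
  · intro i _ hi
    rw [if_neg hi, zero_mul]
  · intro h
    exact absurd (mem_univ i0) h

open Classical in
/-- few coefficient vectors survive at a given point -/
lemma surv_one (f : ℕ → ℤ) (Z : Fin d → ℤ) (Y : Fin d → ℕ) (M k : ℕ) (hM : 1 ≤ M) (i0 : Fin d) (hi0 : (i0 : ℕ) = 0)
    (hY : ∀ i, 1 ≤ Y i) (hY0 : M ^ 2 ≤ Y i0) :
    (((Box Z Y).filter (fun c => IsCoprime (ev f c k) (M : ℤ))).card : ℝ) ≤
      2 * ((Nat.totient M : ℝ) / M) * (Box Z Y).card := by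
  obtain ⟨F, hF⟩ : ∃ F : (Fin d → ℤ) → ℝ, F = fun c => if IsCoprime (ev f c k) (M : ℤ) then 1 else 0 := ⟨_, rfl⟩
  have hF0 : ∀ c, 0 ≤ F c := by intro c; rw [hF]; simp only; split_ifs <;> norm_num
  have hF1 : ∀ c, F c ≤ 1 := by intro c; rw [hF]; simp only; split_ifs <;> norm_num
  obtain ⟨T, hT⟩ : ∃ T, T = ∑ c ∈ Box Z Y, F c := ⟨_, rfl⟩
  have hcard : (((Box Z Y).filter (fun c => IsCoprime (ev f c k) (M : ℤ))).card : ℝ) = T := by
    rw [hT, hF, ← Finset.sum_filter, Finset.sum_const, nsmul_eq_mul, mul_one]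
  rw [hcard]
  have hMr : (1 : ℝ) ≤ M := by exact_mod_cast hM
  have hYr : ((M : ℝ) ^ 2) ≤ Y i0 := by exact_mod_cast hY0
  have hYp : (0 : ℝ) < Y i0 := by nlinarith
  have h1 : ∀ t ∈ Ioc 0 M, T ≤ ∑ c ∈ Box Z Y, F (c + uv i0 (t : ℕ)) + 1 / M * (Box Z Y).card := by
    intro t ht
    rw [mem_Ioc] at ht
    have h2 := shift_sum Z Y hY (uv i0 (t : ℕ)) F hF0 hF1
    have h3 : ∑ i : Fin d, |((uv i0 (t : ℕ) i : ℤ) : ℝ)| / (Y i : ℝ) = t / Y i0 := by
      rw [Finset.sum_eq_single i0]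
      · unfold uv
        rw [if_pos rfl]
        push_cast
        rw [abs_of_nonneg (Nat.cast_nonneg t)]
      · intro i _ hi
        unfold uv
        rw [if_neg hi]
        simp
      · intro h
        exact absurd (mem_univ i0) h
    rw [h3] at h2
    have h4 : (t : ℝ) / Y i0 ≤ 1 / M := by
      have ht2 : (t : ℝ) ≤ M := by exact_mod_cast ht.2
      rw [div_le_div_iff₀ hYp (by linarith), one_mul]
      nlinarith
    have h5 := mul_le_mul_of_nonneg_right h4 (Nat.cast_nonneg (Box Z Y).card : (0 : ℝ) ≤ _)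
    have h6 := abs_le.1 (h2.trans h5)
    rw [hT]
    linarith [h6.1]
  have h2 : ∑ t ∈ Ioc 0 M, ∑ c ∈ Box Z Y, F (c + uv i0 (t : ℕ)) = (Nat.totient M : ℝ) * (Box Z Y).card := by
    rw [Finset.sum_comm]
    have h3 : ∀ c ∈ Box Z Y, ∑ t ∈ Ioc 0 M, F (c + uv i0 (t : ℕ)) = (Nat.totient M : ℝ) := by
      intro c _
      rw [hF]
      simp only [ev_uv f c i0 hi0]
      rw [← Finset.sum_filter, Finset.sum_const, nsmul_eq_mul, mul_one, count_coprime (ev f c k) M hM]
    rw [Finset.sum_congr rfl h3, Finset.sum_const, nsmul_eq_mul, mul_comm]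
  have h3 : (M : ℝ) * T ≤ (Nat.totient M : ℝ) * (Box Z Y).card + M * (1 / M * (Box Z Y).card) := by
    have h4 := Finset.sum_le_sum h1
    rw [Finset.sum_const, Nat.card_Ioc, nsmul_eq_mul, Nat.sub_zero, Finset.sum_add_distrib, h2, Finset.sum_const,
      Nat.card_Ioc, nsmul_eq_mul, Nat.sub_zero] at h4
    exact h4
  have hφ : (1 : ℝ) ≤ (Nat.totient M : ℝ) := by exact_mod_cast Nat.totient_pos.2 hM
  have h4 : (M : ℝ) * (1 / M * (Box Z Y).card) = (Box Z Y).card := by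
    rw [← mul_assoc, mul_one_div_cancel (by positivity), one_mul]
  rw [h4] at h3
  have h5 : (M : ℝ) * T ≤ M * (2 * ((Nat.totient M : ℝ) / M) * (Box Z Y).card) := by
    have e : (M : ℝ) * (2 * ((Nat.totient M : ℝ) / M) * (Box Z Y).card) = 2 * (Nat.totient M : ℝ) * (Box Z Y).card := by
      field_simp
    rw [e]
    have := mul_le_mul_of_nonneg_right hφ (Nat.cast_nonneg (Box Z Y).card : (0 : ℝ) ≤ _)
    linarith
  exact le_of_mul_le_mul_left h5 (by linarith)

variable {n : ℕ} {τ : Type*} [Fintype τ] [DecidableEq τ]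

open Classical in
lemma surv_all (f : Fin n → ℕ → ℤ) (w : ℕ) (Z : Fin n → Fin d → ℤ) (Y : Fin n → Fin d → ℕ) (k : ℕ) (i0 : Fin d)
    (hi0 : (i0 : ℕ) = 0) (hY : ∀ j i, 1 ≤ Y j i) (hY0 : ∀ j, primorial w ^ 2 ≤ Y j i0) :
    (((BoxN Z Y).filter (fun c => ∀ i, IsCoprime (ev (f i) (c i) k) ((primorial w : ℕ) : ℤ))).card : ℝ) ≤
      (2 / gP w) ^ n * (BoxN Z Y).card := by
  have e : (BoxN Z Y).filter (fun c => ∀ i, IsCoprime (ev (f i) (c i) k) ((primorial w : ℕ) : ℤ)) =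
      Fintype.piFinset (fun i => (Box (Z i) (Y i)).filter (fun c => IsCoprime (ev (f i) c k) ((primorial w : ℕ) : ℤ))) := by
    ext c
    unfold BoxN
    rw [mem_filter, Fintype.mem_piFinset, Fintype.mem_piFinset]
    constructor
    · rintro ⟨h1, h2⟩ i
      exact mem_filter.2 ⟨h1 i, h2 i⟩
    · intro h
      exact ⟨fun i => (mem_filter.1 (h i)).1, fun i => (mem_filter.1 (h i)).2⟩
  have e2 : (((BoxN Z Y).card : ℕ) : ℝ) = ∏ i, ((Box (Z i) (Y i)).card : ℝ) := by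
    unfold BoxN
    rw [Fintype.card_piFinset]
    push_cast
    rfl
  rw [e, Fintype.card_piFinset, e2]
  push_cast
  have h1 : ∀ i, (((Box (Z i) (Y i)).filter (fun c => IsCoprime (ev (f i) c k) ((primorial w : ℕ) : ℤ))).card : ℝ) ≤
      2 / gP w * (Box (Z i) (Y i)).card := by
    intro i
    have h2 := surv_one (f i) (Z i) (Y i) (primorial w) k (primorial_pos w) i0 hi0 (hY i) (hY0 i)
    have e3 : 2 / gP w = 2 * ((Nat.totient (primorial w) : ℝ) / ((primorial w : ℕ) : ℝ)) := by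
      unfold gP
      rw [div_div_eq_mul_div, mul_div_assoc]
    rw [e3]
    exact h2
  have h2 := Finset.prod_le_prod (s := univ) (fun i _ => Nat.cast_nonneg _) (fun i _ => h1 i)
  rw [Finset.prod_mul_distrib, Finset.prod_const, Finset.card_univ, Fintype.card_fin] at h2
  exact h2

open Classical in
/-- few classes have a large parameter -/
lemma markov_x (f : Fin n → ℕ → ℤ) (w X : ℕ) (Z : Fin n → Fin d → ℤ) (Y : Fin n → Fin d → ℕ) (T : τ → Finset ℕ)
    (i0 : Fin d) (hi0 : (i0 : ℕ) = 0) (hY : ∀ j i, 1 ≤ Y j i) (hY0 : ∀ j, primorial w ^ 2 ≤ Y j i0) (lam Λ : ℝ)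
    (hlam : 0 ≤ lam) (hΛ : 0 < Λ) (hL : 0 < Real.log X) (hT : ∀ t, ((T t).card : ℝ) ≤ lam * Real.log X ^ n) :
    (((BoxN Z Y).filter (fun c => ¬∀ t, xp f w X (T t) c ≤ Λ)).card : ℝ) ≤
      Fintype.card τ * (2 ^ n * lam / Λ) * (BoxN Z Y).card := by
  obtain ⟨L, hLd⟩ : ∃ L, L = Real.log (X : ℝ) := ⟨_, rfl⟩
  have hgp := gP_ge w
  have hone : ∀ t, (((BoxN Z Y).filter (fun c => Λ < xp f w X (T t) c)).card : ℝ) ≤
      2 ^ n * lam / Λ * (BoxN Z Y).card := by
    intro t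
    have h1 : (((BoxN Z Y).filter (fun c => Λ < xp f w X (T t) c)).card : ℝ) * Λ ≤
        ∑ c ∈ BoxN Z Y, xp f w X (T t) c := by
      calc (((BoxN Z Y).filter (fun c => Λ < xp f w X (T t) c)).card : ℝ) * Λ =
          ∑ c ∈ (BoxN Z Y).filter (fun c => Λ < xp f w X (T t) c), Λ := by
            rw [Finset.sum_const, nsmul_eq_mul]
        _ ≤ ∑ c ∈ (BoxN Z Y).filter (fun c => Λ < xp f w X (T t) c), xp f w X (T t) c := by
            apply Finset.sum_le_sum
            intro c hc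
            exact (mem_filter.1 hc).2.le
        _ ≤ _ := by
            apply Finset.sum_le_sum_of_subset_of_nonneg (filter_subset _ _)
            intro c _ _
            exact xp_nonneg f w X (T t) c hL.le
    have h2 : ∑ c ∈ BoxN Z Y, xp f w X (T t) c = (gP w / L) ^ n * ∑ k ∈ T t,
        (((BoxN Z Y).filter (fun c => ∀ i, IsCoprime (ev (f i) (c i) k) ((primorial w : ℕ) : ℤ))).card : ℝ) := by
      unfold xp
      rw [← Finset.mul_sum, ← hLd]
      congr 1
      have h3 : ∀ c : Fin n → Fin d → ℤ, ((Sv f (primorial w) c (T t)).card : ℝ) =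
          ∑ k ∈ T t, if (∀ i, IsCoprime (ev (f i) (c i) k) ((primorial w : ℕ) : ℤ)) then (1 : ℝ) else 0 := by
        intro c
        unfold Sv
        rw [← Finset.sum_filter, Finset.sum_const, nsmul_eq_mul, mul_one]
      simp only [h3]
      rw [Finset.sum_comm]
      apply Finset.sum_congr rfl
      intro k _
      rw [← Finset.sum_filter, Finset.sum_const, nsmul_eq_mul, mul_one]
    have h3 : ∑ c ∈ BoxN Z Y, xp f w X (T t) c ≤ 2 ^ n * lam * (BoxN Z Y).card := by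
      rw [h2]
      have h4 : ∑ k ∈ T t,
        (((BoxN Z Y).filter (fun c => ∀ i, IsCoprime (ev (f i) (c i) k) ((primorial w : ℕ) : ℤ))).card : ℝ) ≤
          (lam * L ^ n) * ((2 / gP w) ^ n * (BoxN Z Y).card) := by
        refine (sum_le_sum fun k _ => surv_all f w Z Y k i0 hi0 hY hY0).trans ?_
        rw [Finset.sum_const, nsmul_eq_mul]
        apply mul_le_mul_of_nonneg_right
        · rw [hLd]
          exact hT t
        · positivity
      have hL0 : 0 < L := by rw [hLd]; exact hL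
      calc (gP w / L) ^ n * _ ≤ (gP w / L) ^ n * ((lam * L ^ n) * ((2 / gP w) ^ n * (BoxN Z Y).card)) :=
            mul_le_mul_of_nonneg_left h4 (by positivity)
        _ = 2 ^ n * lam * (BoxN Z Y).card := by
            rw [div_pow, div_pow]
            field_simp
    have h4 := h1.trans h3
    have e : 2 ^ n * lam / Λ * ((BoxN Z Y).card : ℝ) = 2 ^ n * lam * (BoxN Z Y).card / Λ := by ring
    rw [e, le_div_iff₀ hΛ]
    exact h4
  have h1 : (BoxN Z Y).filter (fun c => ¬∀ t, xp f w X (T t) c ≤ Λ) ⊆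
      univ.biUnion (fun t => (BoxN Z Y).filter (fun c => Λ < xp f w X (T t) c)) := by
    intro c hc
    rw [mem_filter] at hc
    obtain ⟨h2, h3⟩ := hc
    push Not at h3
    obtain ⟨t, ht⟩ := h3
    rw [mem_biUnion]
    exact ⟨t, mem_univ t, mem_filter.2 ⟨h2, ht⟩⟩
  have h2 := (card_le_card h1).trans card_biUnion_le
  calc (((BoxN Z Y).filter (fun c => ¬∀ t, xp f w X (T t) c ≤ Λ)).card : ℝ) ≤
      ∑ t : τ, (((BoxN Z Y).filter (fun c => Λ < xp f w X (T t) c)).card : ℝ) := by exact_mod_cast h2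
    _ ≤ ∑ _t : τ, 2 ^ n * lam / Λ * (BoxN Z Y).card := sum_le_sum fun t _ => hone t
    _ = _ := by
        rw [Finset.sum_const, Finset.card_univ, nsmul_eq_mul]
        ring

/-- **The mixed Poisson law for the prime values of random polynomials**, general families of sets of points -/
theorem rp_gen (hn : 1 ≤ n) (lam ε : ℝ) (hlam : 0 ≤ lam) (hε : 0 < ε) (SS : ℕ → Finset ℕ → Prop)
    (hSS : Few n lam SS) : ∃ d0 w0 : ℕ, 2 ≤ w0 ∧ ∀ w : ℕ, w0 ≤ w → ∀ C d : ℕ, d0 ≤ d → ∀ᶠ X : ℕ in atTop,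
    ∀ (f : Fin n → ℕ → ℤ) (Z : Fin n → Fin d → ℤ) (Y : Fin n → Fin d → ℕ) (T : τ → Finset ℕ),
    (∀ t u, t ≠ u → Disjoint (T t) (T u)) → SS X (Al T) → (∀ i, SZ C X (f i) (Z i) (Y i) (Al T)) →
    ∀ A : Finset (τ → ℕ), |((open Classical in (BoxN Z Y).filter (fun c => (fun t => Np f (T t) c) ∈ A)).card : ℝ) -
      ∑ c ∈ BoxN Z Y, PoJ (fun t => xp f w X (T t) c) A| ≤ ε * (BoxN Z Y).card := by
  obtain ⟨s, hs⟩ : ∃ s : ℝ, s = Fintype.card τ := ⟨_, rfl⟩
  have hs0 : 0 ≤ s := by rw [hs]; exact Nat.cast_nonneg _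
  obtain ⟨Λ, hΛ⟩ : ∃ Λ : ℝ, Λ = s * (2 ^ n * lam) * (2 / ε) + 1 := ⟨_, rfl⟩
  have hΛ0 : 0 < Λ := by rw [hΛ]; positivity
  obtain ⟨d0, w0, hw02, h⟩ := law_class (τ := τ) hn lam Λ (ε / 2) hlam hΛ0.le (by positivity) SS hSS
  obtain ⟨C1, θ, hC1, hθ, hSSc⟩ := hSS 0
  refine ⟨max d0 1, w0, hw02, ?_⟩
  intro w hw C d hd
  filter_upwards [h w hw C d (by omega), ev_log_ge 1, hSSc w (by omega), ev_pow_log (C + 1),
    ev_log_ge (((primorial w : ℕ) : ℝ) ^ 2)] with X hX hL hSX hX2 hX3 f Z Y T hT hST hsz A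
  obtain ⟨L, hLd⟩ : ∃ L, L = Real.log (X : ℝ) := ⟨_, rfl⟩
  have hL0 : 0 < L := by rw [hLd]; linarith
  have hglob := glob f w X Z Y T Λ (ε / 2) (by positivity) A (by linarith) (fun a ha => hX f Z Y T hT hST hsz a ha A)
  have hYbig : ∀ j i, (((primorial w : ℕ) : ℝ) ^ 2) ≤ Y j i := by
    intro j i
    refine le_trans hX3 (le_trans ?_ ((hsz j).side i))
    rw [← hLd] at hX2 ⊢
    rw [le_div_iff₀ (by positivity)]
    calc L * L ^ C = L ^ (C + 1) := by ring
      _ ≤ X := hX2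
  have hY2 : ∀ j i, primorial w ^ 2 ≤ Y j i := fun j i => by exact_mod_cast hYbig j i
  have hY1 : ∀ j i, 1 ≤ Y j i := fun j i => le_trans (Nat.one_le_pow _ _ (primorial_pos w)) (hY2 j i)
  have hmar := markov_x f w X Z Y T (⟨0, by omega⟩ : Fin d) rfl hY1 (fun j => hY2 j _) lam Λ hlam hΛ0 (by linarith)
    (fun t => le_trans (by exact_mod_cast card_le_card (sub_Al T t)) (hSX (Al T) hST).1)
  rw [← hs] at hmar
  have h1 : s * (2 ^ n * lam / Λ) ≤ ε / 2 := by
    rw [mul_div_assoc', div_le_iff₀ hΛ0, hΛ]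
    have e : ε / 2 * (s * (2 ^ n * lam) * (2 / ε) + 1) = s * (2 ^ n * lam) + ε / 2 := by
      field_simp
    rw [e]
    linarith
  have h2 := mul_le_mul_of_nonneg_right h1 (Nat.cast_nonneg (BoxN Z Y).card : (0 : ℝ) ≤ _)
  refine hglob.trans ?_
  linarith

end Pool.Agent.Q236.RP
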